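import Pool.Agent.N415.ITM.Defs

/-! Models of induced topological minors. -/

namespace Pool.Agent.N415.ITM

variable {W V : Type}

/-- the path of the edge `ab` -/
def Q (f : W → V) (P : W → W → List V) (a b : W) : List V := f a :: (P a b ++ [f b])

/-- the vertices of the model -/
def Ver (H : SimpleGraph W) (f : W → V) (P : W → W → List V) (x : V) : Prop :=
  (∃ w, f w = x) ∨ ∃ a b, H.Adj a b ∧ x ∈ P a b

/-- a model of `H` as an induced topological minor in `G` -/
structure TM (H : SimpleGraph W) (G : SimpleGraph V) (f : W → V) (P : W → W → List V) : Prop where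
  inj : Function.Injective f
  rev : ∀ a b, H.Adj a b → P b a = (P a b).reverse
  nodup : ∀ a b, H.Adj a b → (P a b).Nodup
  br : ∀ a b, H.Adj a b → ∀ w, f w ∉ P a b
  disj : ∀ a b c d, H.Adj a b → H.Adj c d → ∀ x, x ∈ P a b → x ∈ P c d → s(a, b) = s(c, d)
  adj : ∀ x y, Ver H f P x → Ver H f P y →
    (G.Adj x y ↔ ∃ a b, H.Adj a b ∧ [x, y] <:+: Q f P a b)

lemma infix_map_iff {A B : Type} {g : A → B} (hg : Function.Injective g) {x y : A} {l : List A} :
    [g x, g y] <:+: l.map g ↔ [x, y] <:+: l := by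
  constructor
  · rintro ⟨s, t, h⟩
    have h' := h.symm
    rw [List.append_assoc, List.map_eq_append_iff] at h'
    obtain ⟨l1, l2, rfl, h1, h2⟩ := h'
    rw [List.map_eq_append_iff] at h2
    obtain ⟨l3, l4, rfl, h3, h4⟩ := h2
    have h5 : l3 = [x, y] := by
      have : l3.map g = [x, y].map g := by simpa using h3
      exact (List.map_injective_iff.2 hg) this
    subst h5
    exact ⟨l1, l4, by simp⟩
  · rintro ⟨s, t, rfl⟩
    exact ⟨s.map g, t.map g, by simp⟩

lemma isITM_iff {H : SimpleGraph W} {G : SimpleGraph V} :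
    IsInducedTopMinor H G ↔ ∃ f P, TM H G f P := by
  constructor
  · rintro ⟨S, f, P, hf, h1, h2, h3, h4⟩
    refine ⟨fun w => (f w).1, fun a b => (P a b).map Subtype.val, ?_, ?_, ?_, ?_, ?_, ?_⟩
    · exact Subtype.val_injective.comp hf
    · intro a b h
      rw [(h1 a b h).1, List.map_reverse]
    · intro a b h
      exact (h1 a b h).2.1.map Subtype.val_injective
    · intro a b h w hw
      rw [List.mem_map] at hw
      obtain ⟨x, hx, hxw⟩ := hw
      have : x = f w := Subtype.ext hxw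
      exact (h1 a b h).2.2 w (this ▸ hx)
    · intro a b c d h h' x hx hx'
      rw [List.mem_map] at hx hx'
      obtain ⟨y, hy, rfl⟩ := hx
      obtain ⟨z, hz, hzy⟩ := hx'
      have : z = y := Subtype.ext hzy
      subst this
      exact h2 a b c d h h' _ hy hz
    · intro x y hx hy
      have hv : ∀ x, Ver H (fun w => (f w).1) (fun a b => (P a b).map Subtype.val) x → x ∈ S := by
        rintro x (⟨w, rfl⟩ | ⟨a, b, h, hx⟩)
        · exact (f w).2
        · rw [List.mem_map] at hx
          obtain ⟨y, _, rfl⟩ := hx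
          exact y.2
      have hk := h4 ⟨x, hv x hx⟩ ⟨y, hv y hy⟩
      simp only [SimpleGraph.comap_adj, Function.Embedding.subtype_apply] at hk
      rw [hk]
      refine exists_congr fun a => exists_congr fun b => and_congr_right fun h => ?_
      have : Q (fun w => (f w).1) (fun a b => (P a b).map Subtype.val) a b =
          (f a :: (P a b ++ [f b])).map Subtype.val := by simp [Q]
      rw [this]
      exact (infix_map_iff Subtype.val_injective (x := (⟨x, hv x hx⟩ : S)) (y := ⟨y, hv y hy⟩)).symm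
  · rintro ⟨f, P, h⟩
    classical
    set S : Set V := {x | Ver H f P x} with hS
    have hP : ∀ a b, H.Adj a b → ∀ x ∈ P a b, x ∈ S := fun a b hab x hx => Or.inr ⟨a, b, hab, hx⟩
    let f' : W → S := fun w => ⟨f w, Or.inl ⟨w, rfl⟩⟩
    let P' : W → W → List S := fun a b =>
      if hab : H.Adj a b then (P a b).attachWith (· ∈ S) (hP a b hab) else []
    have e : ∀ a b, H.Adj a b → (P' a b).map Subtype.val = P a b := by
      intro a b hab
      simp only [P', dif_pos hab]
      rw [List.attachWith_map_subtype_val]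
    have hm : ∀ a b, H.Adj a b → ∀ x : S, x ∈ P' a b ↔ x.1 ∈ P a b := by
      intro a b hab x
      rw [← e a b hab, List.mem_map]
      constructor
      · intro hx; exact ⟨x, hx, rfl⟩
      · rintro ⟨y, hy, hyx⟩
        have : y = x := Subtype.ext hyx
        exact this ▸ hy
    refine ⟨S, f', P', ?_, ?_, ?_, ?_, ?_⟩
    · intro a b hab
      exact h.inj (congrArg Subtype.val hab)
    · intro a b hab
      refine ⟨?_, ?_, ?_⟩
      · apply List.map_injective_iff.2 Subtype.val_injective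
        rw [e b a hab.symm, List.map_reverse, e a b hab, h.rev a b hab]
      · apply List.Nodup.of_map Subtype.val
        rw [e a b hab]; exact h.nodup a b hab
      · intro w hw
        exact h.br a b hab w ((hm a b hab _).1 hw)
    · intro a b c d hab hcd x hx hx'
      exact h.disj a b c d hab hcd x.1 ((hm a b hab _).1 hx) ((hm c d hcd _).1 hx')
    · rintro ⟨x, hx⟩
      rcases hx with ⟨w, rfl⟩ | ⟨a, b, hab, hx⟩
      · exact Or.inl ⟨w, rfl⟩
      · exact Or.inr ⟨a, b, hab, (hm a b hab _).2 hx⟩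
    · intro x y
      have := h.adj x.1 y.1 x.2 y.2
      simp only [SimpleGraph.comap_adj, Function.Embedding.subtype_apply]
      rw [this]
      refine exists_congr fun a => exists_congr fun b => and_congr_right fun hab => ?_
      have e2 : Q f P a b = (f' a :: (P' a b ++ [f' b])).map Subtype.val := by
        simp [Q, f', e a b hab]
      rw [e2]
      exact infix_map_iff Subtype.val_injective

section
variable {H : SimpleGraph W} {G : SimpleGraph V} {f : W → V} {P : W → W → List V}

lemma mem_Q {a b : W} {x : V} : x ∈ Q f P a b ↔ x = f a ∨ x ∈ P a b ∨ x = f b := by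
  simp [Q]

lemma infix_mem {A : Type} {x y : A} {l : List A} (h : [x, y] <:+: l) : x ∈ l ∧ y ∈ l := by
  obtain ⟨s, t, rfl⟩ := h
  simp

lemma TM.inner (h : TM H G f P) {a b : W} (hab : H.Adj a b) {x y : V} (hx : x ∈ P a b)
    (hy : Ver H f P y) (hxy : G.Adj x y) : y ∈ P a b ∨ y = f a ∨ y = f b := by
  obtain ⟨c, d, hcd, hi⟩ := (h.adj x y (Or.inr ⟨a, b, hab, hx⟩) hy).1 hxy
  obtain ⟨h1, h2⟩ := infix_mem hi
  rw [mem_Q] at h1 h2
  have h3 : x ∈ P c d := by
    rcases h1 with h1 | h1 | h1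
    · exact absurd (h1 ▸ hx) (h.br a b hab c)
    · exact h1
    · exact absurd (h1 ▸ hx) (h.br a b hab d)
  have h4 := h.disj a b c d hab hcd x hx h3
  rw [Sym2.eq_iff] at h4
  rcases h4 with ⟨rfl, rfl⟩ | ⟨rfl, rfl⟩
  · tauto
  · have : y ∈ P b a ↔ y ∈ P a b := by rw [h.rev b a hcd, List.mem_reverse]
    tauto

lemma TM.branch (h : TM H G f P) {a b : W} (hab : G.Adj (f a) (f b)) : H.Adj a b := by
  obtain ⟨c, d, hcd, hi⟩ := (h.adj _ _ (Or.inl ⟨a, rfl⟩) (Or.inl ⟨b, rfl⟩)).1 hab
  obtain ⟨h1, h2⟩ := infix_mem hi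
  rw [mem_Q] at h1 h2
  have h3 : a = c ∨ a = d := by
    rcases h1 with h1 | h1 | h1
    · exact Or.inl (h.inj h1)
    · exact absurd h1 (h.br c d hcd a)
    · exact Or.inr (h.inj h1)
  have h4 : b = c ∨ b = d := by
    rcases h2 with h2 | h2 | h2
    · exact Or.inl (h.inj h2)
    · exact absurd h2 (h.br c d hcd b)
    · exact Or.inr (h.inj h2)
  have hne : a ≠ b := by rintro rfl; exact hab.ne rfl
  rcases h3 with rfl | rfl <;> rcases h4 with rfl | rfl
  · exact absurd rfl hne
  · exact hcd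
  · exact hcd.symm
  · exact absurd rfl hne

/-- `n` lies on the path of `ab` but is not `f a` -/
def On (f : W → V) (P : W → W → List V) (a b : W) (n : V) : Prop := n ∈ P a b ∨ n = f b

lemma On.ver {a b : W} (hab : H.Adj a b) {n : V} (h : On f P a b n) : Ver H f P n := by
  rcases h with h | h
  · exact Or.inr ⟨a, b, hab, h⟩
  · exact Or.inl ⟨b, h.symm⟩

lemma TM.exists_next (h : TM H G f P) {a b : W} (hab : H.Adj a b) :
    ∃ n, G.Adj (f a) n ∧ On f P a b n := by
  rcases hP : P a b with _ | ⟨n, l⟩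
  · refine ⟨f b, ?_, Or.inr rfl⟩
    rw [h.adj _ _ (Or.inl ⟨a, rfl⟩) (Or.inl ⟨b, rfl⟩)]
    exact ⟨a, b, hab, [], [], by simp [Q, hP]⟩
  · have hn : n ∈ P a b := by rw [hP]; simp
    refine ⟨n, ?_, Or.inl hn⟩
    rw [h.adj _ _ (Or.inl ⟨a, rfl⟩) (Or.inr ⟨a, b, hab, hn⟩)]
    exact ⟨a, b, hab, [], l ++ [f b], by simp [Q, hP]⟩

lemma TM.on_ne (h : TM H G f P) {a b c : W} (hab : H.Adj a b) (hac : H.Adj a c) (hbc : b ≠ c)
    {x y : V} (hx : On f P a b x) (hy : On f P a c y) : x ≠ y := by
  rintro rfl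
  rcases hx with hx | hx <;> rcases hy with hy | hy
  · have := h.disj a b a c hab hac x hx hy
    rw [Sym2.eq_iff] at this
    rcases this with ⟨_, h1⟩ | ⟨h1, h2⟩
    · exact hbc h1
    · exact hbc (h2.trans h1)
  · exact h.br a b hab c (hy ▸ hx)
  · exact h.br a c hac b (hx ▸ hy)
  · exact hbc (h.inj (hx.symm.trans hy))

lemma TM.on_ne_self (h : TM H G f P) {a b : W} (hab : H.Adj a b) {x : V} (hx : On f P a b x) :
    x ≠ f a := by
  rintro rfl
  rcases hx with hx | hx
  · exact h.br a b hab a hx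
  · exact hab.ne (h.inj hx)

lemma TM.on_adj (h : TM H G f P) {a b c : W} (hab : H.Adj a b) (hac : H.Adj a c) (hbc : b ≠ c)
    {x y : V} (hx : On f P a b x) (hy : On f P a c y) (hxy : G.Adj x y) : x = f b ∧ y = f c := by
  have key : ∀ {b c : W} {x y : V}, H.Adj a b → H.Adj a c → b ≠ c → On f P a b x → On f P a c y →
      G.Adj x y → x = f b := by
    intro b c x y hab hac hbc hx hy hxy
    rcases hx with hx | hx
    · exfalso
      have h1 := h.inner hab hx (hy.ver hac) hxy
      rcases h1 with h1 | h1 | h1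
      · exact h.on_ne hab hac hbc (Or.inl h1) hy rfl
      · exact h.on_ne_self hac hy h1
      · exact h.on_ne hab hac hbc (Or.inr h1) hy rfl
    · exact hx
  exact ⟨key hab hac hbc hx hy hxy, key hac hab hbc.symm hy hx hxy.symm⟩

/-- the path of a disjoint edge -/
lemma TM.far (h : TM H G f P) {a b c d : W} (hab : H.Adj a b) (hcd : H.Adj c d)
    (h1 : a ≠ c) (h2 : a ≠ d) (h3 : b ≠ c) (h4 : b ≠ d)
    {x y : V} (hx : x ∈ Q f P a b) (hy : y ∈ Q f P c d) : x ≠ y := by
  rintro rfl
  rw [mem_Q] at hx hy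
  rcases hx with hx | hx | hx <;> rcases hy with hy | hy | hy
  · exact h1 (h.inj (hx.symm.trans hy))
  · exact h.br c d hcd a (hx ▸ hy)
  · exact h2 (h.inj (hx.symm.trans hy))
  · exact h.br a b hab c (hy ▸ hx)
  · have := h.disj a b c d hab hcd x hx hy
    rw [Sym2.eq_iff] at this
    rcases this with ⟨h5, _⟩ | ⟨h5, _⟩
    · exact h1 h5
    · exact h2 h5
  · exact h.br a b hab d (hy ▸ hx)
  · exact h3 (h.inj (hx.symm.trans hy))
  · exact h.br c d hcd b (hx ▸ hy)
  · exact h4 (h.inj (hx.symm.trans hy))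

/-- a vertex of the path of `ab` adjacent to a vertex of the path of `cd` -/
lemma TM.far_adj (h : TM H G f P) {a b c d : W} (hab : H.Adj a b) (hcd : H.Adj c d)
    (h1 : a ≠ c) (h2 : a ≠ d) (h3 : b ≠ c) (h4 : b ≠ d)
    {x y : V} (hx : x ∈ Q f P a b) (hy : y ∈ Q f P c d) (hxy : G.Adj x y) :
    H.Adj a c ∨ H.Adj a d ∨ H.Adj b c ∨ H.Adj b d := by
  have ver : ∀ {a b : W} {x : V}, H.Adj a b → x ∈ Q f P a b → Ver H f P x := by
    intro a b x hab hx
    rw [mem_Q] at hx
    rcases hx with hx | hx | hx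
    · exact Or.inl ⟨a, hx.symm⟩
    · exact Or.inr ⟨a, b, hab, hx⟩
    · exact Or.inl ⟨b, hx.symm⟩
  have hx' := hx
  have hy' := hy
  rw [mem_Q] at hx' hy'
  by_cases e1 : x ∈ P a b
  · have h5 := h.inner hab e1 (ver hcd hy) hxy
    exact absurd rfl (h.far hab hcd h1 h2 h3 h4 (x := y) (y := y)
      (by rw [mem_Q]; tauto) hy)
  by_cases e2 : y ∈ P c d
  · have h5 := h.inner hcd e2 (ver hab hx) hxy.symm
    exact absurd rfl (h.far hab hcd h1 h2 h3 h4 (x := x) (y := x) hx
      (by rw [mem_Q]; tauto))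
  have hx2 : x = f a ∨ x = f b := by tauto
  have hy2 : y = f c ∨ y = f d := by tauto
  rcases hx2 with rfl | rfl <;> rcases hy2 with rfl | rfl
  · exact Or.inl (h.branch hxy)
  · exact Or.inr (Or.inl (h.branch hxy))
  · exact Or.inr (Or.inr (Or.inl (h.branch hxy)))
  · exact Or.inr (Or.inr (Or.inr (h.branch hxy)))

/-- a branch vertex adjacent to a vertex of the path of `ab` -/
lemma TM.branch_adj (h : TM H G f P) {a b d : W} (hab : H.Adj a b) (h1 : a ≠ d) (h2 : b ≠ d)
    {x : V} (hx : x ∈ Q f P a b) (hxd : G.Adj x (f d)) : H.Adj a d ∨ H.Adj b d := by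
  rw [mem_Q] at hx
  rcases hx with rfl | hx | rfl
  · exact Or.inl (h.branch hxd)
  · exfalso
    rcases h.inner hab hx (Or.inl ⟨d, rfl⟩) hxd with h5 | h5 | h5
    · exact h.br a b hab d h5
    · exact h1 (h.inj h5.symm)
    · exact h2 (h.inj h5.symm)
  · exact Or.inr (h.branch hxd)

lemma TM.ne_branch (h : TM H G f P) {a b d : W} (hab : H.Adj a b) (h1 : a ≠ d) (h2 : b ≠ d)
    {x : V} (hx : x ∈ Q f P a b) : x ≠ f d := by
  rintro rfl
  rw [mem_Q] at hx
  rcases hx with h5 | h5 | h5
  · exact h1 (h.inj h5.symm)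
  · exact h.br a b hab d h5
  · exact h2 (h.inj h5.symm)

/-- restriction to an induced subgraph -/
lemma TM.restrict (h : TM H G f P) {W' : Type} {H' : SimpleGraph W'} (φ : H' ↪g H) :
    TM H' G (fun a => f (φ a)) (fun a b => P (φ a) (φ b)) := by
  have hadj : ∀ {a b : W'}, H'.Adj a b ↔ H.Adj (φ a) (φ b) := fun {a b} => φ.map_adj_iff.symm
  have hver : ∀ {x : V}, Ver H' (fun a => f (φ a)) (fun a b => P (φ a) (φ b)) x → Ver H f P x := by
    rintro x (⟨w, hw⟩ | ⟨a, b, hab, hx⟩)
    · exact Or.inl ⟨φ w, hw⟩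
    · exact Or.inr ⟨φ a, φ b, hadj.1 hab, hx⟩
  refine ⟨?_, ?_, ?_, ?_, ?_, ?_⟩
  · exact h.inj.comp φ.injective
  · intro a b hab; exact h.rev _ _ (hadj.1 hab)
  · intro a b hab; exact h.nodup _ _ (hadj.1 hab)
  · intro a b hab w; exact h.br _ _ (hadj.1 hab) _
  · intro a b c d hab hcd x hx hx'
    have := h.disj _ _ _ _ (hadj.1 hab) (hadj.1 hcd) x hx hx'
    rw [Sym2.eq_iff] at this ⊢
    rcases this with ⟨h1, h2⟩ | ⟨h1, h2⟩
    · exact Or.inl ⟨φ.injective h1, φ.injective h2⟩
    · exact Or.inr ⟨φ.injective h1, φ.injective h2⟩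
  · intro x y hx hy
    rw [h.adj x y (hver hx) (hver hy)]
    constructor
    · rintro ⟨a, b, hab, hi⟩
      -- the edge comes from `H'`
      suffices hs : ∃ a' b', φ a' = a ∧ φ b' = b by
        obtain ⟨a', b', rfl, rfl⟩ := hs
        exact ⟨a', b', hadj.2 hab, hi⟩
      obtain ⟨h1, h2⟩ := infix_mem hi
      have inner : ∀ z, (∃ c d, H'.Adj c d ∧ z ∈ P (φ c) (φ d)) → z ∈ Q f P a b →
          ∃ a' b', φ a' = a ∧ φ b' = b := by
        rintro z ⟨c, d, hcd, hz⟩ hzQ
        rw [mem_Q] at hzQ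
        have hz' : z ∈ P a b := by
          rcases hzQ with h3 | h3 | h3
          · exact absurd (h3 ▸ hz) (h.br _ _ (hadj.1 hcd) a)
          · exact h3
          · exact absurd (h3 ▸ hz) (h.br _ _ (hadj.1 hcd) b)
        have := h.disj _ _ _ _ hab (hadj.1 hcd) z hz' hz
        rw [Sym2.eq_iff] at this
        rcases this with ⟨h4, h5⟩ | ⟨h4, h5⟩
        · exact ⟨c, d, h4.symm, h5.symm⟩
        · exact ⟨d, c, h4.symm, h5.symm⟩
      rcases hx with ⟨u, hu⟩ | hx
      · rcases hy with ⟨v, hv⟩ | hy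
        · have hxy : G.Adj x y := (h.adj x y (Or.inl ⟨φ u, hu⟩) (Or.inl ⟨φ v, hv⟩)).2 ⟨a, b, hab, hi⟩
          rw [mem_Q] at h1 h2
          have h3 : φ u = a ∨ φ u = b := by
            rcases h1 with h1 | h1 | h1
            · exact Or.inl (h.inj (hu.trans h1))
            · exact absurd (show f (φ u) ∈ P a b by rw [show f (φ u) = x from hu]; exact h1)
                (h.br a b hab (φ u))
            · exact Or.inr (h.inj (hu.trans h1))
          have h4 : φ v = a ∨ φ v = b := by
            rcases h2 with h2 | h2 | h2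
            · exact Or.inl (h.inj (hv.trans h2))
            · exact absurd (show f (φ v) ∈ P a b by rw [show f (φ v) = y from hv]; exact h2)
                (h.br a b hab (φ v))
            · exact Or.inr (h.inj (hv.trans h2))
          have hne : φ u ≠ φ v := by
            intro he
            apply hxy.ne
            rw [← hu, ← hv]
            exact congrArg f he
          rcases h3 with h3 | h3 <;> rcases h4 with h4 | h4
          · exact absurd (h3.trans h4.symm) hne
          · exact ⟨u, v, h3, h4⟩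
          · exact ⟨v, u, h4, h3⟩
          · exact absurd (h3.trans h4.symm) hne
        · exact inner y hy h2
      · exact inner x hx h1
    · rintro ⟨a, b, hab, hi⟩
      exact ⟨φ a, φ b, hadj.1 hab, hi⟩

/-- an induced subgraph is an induced topological minor -/
lemma TM.of_emb (φ : H ↪g G) : TM H G φ (fun _ _ => []) := by
  have hadj : ∀ {a b : W}, H.Adj a b ↔ G.Adj (φ a) (φ b) := fun {a b} => φ.map_adj_iff.symm
  refine ⟨φ.injective, by simp, by simp, by simp, by simp, ?_⟩
  have hv : ∀ x, Ver H φ (fun _ _ => ([] : List V)) x → ∃ w, φ w = x := by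
    rintro x (h | ⟨_, _, _, h⟩)
    · exact h
    · simp at h
  intro x y hx hy
  obtain ⟨u, rfl⟩ := hv x hx
  obtain ⟨v, rfl⟩ := hv y hy
  constructor
  · intro h
    exact ⟨u, v, hadj.2 h, [], [], by simp [Q]⟩
  · rintro ⟨a, b, hab, s, t, hi⟩
    have h1 : φ u = φ a ∧ φ v = φ b := by
      rcases s with _ | ⟨s1, s⟩
      · simp only [Q, List.nil_append, List.cons_append, List.cons.injEq] at hi
        exact ⟨hi.1, hi.2.1⟩
      · exfalso
        have := congrArg List.length hi
        simp [Q] at this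
        omega
    rw [← hadj]
    have e1 := φ.injective h1.1
    have e2 := φ.injective h1.2
    rw [e1, e2]; exact hab

end

end Pool.Agent.N415.ITM
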