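import Pool.Agent.N415.ITM.Lists

/-! Certificates for the diamond and the paw. -/

namespace Pool.Agent.N415.ITM

open Pool.Agent.H175R2

variable {V : Type} {G : SimpleGraph V}

/-- three internally disjoint `x`-`y` paths whose union is an induced subgraph -/
structure Theta (G : SimpleGraph V) (x y : V) (M1 M2 M3 : List V) : Prop where
  nodup : (x :: y :: (M1 ++ (M2 ++ M3))).Nodup
  n2 : M2 ≠ []
  n3 : M3 ≠ []
  adj : ∀ u ∈ x :: y :: (M1 ++ (M2 ++ M3)), ∀ v ∈ x :: y :: (M1 ++ (M2 ++ M3)),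
    (G.Adj u v ↔ Con (x :: (M1 ++ [y])) u v ∨ Con (x :: (M2 ++ [y])) u v ∨
      Con (x :: (M3 ++ [y])) u v)

/-- an induced cycle `x, M` and a vertex `v` whose only neighbour on the cycle is `x` -/
structure Lolli (G : SimpleGraph V) (x v : V) (M : List V) : Prop where
  nodup : (x :: v :: M).Nodup
  len : 2 ≤ M.length
  adj : ∀ u ∈ x :: v :: M, ∀ w ∈ x :: v :: M,
    (G.Adj u w ↔ Con (x :: (M ++ [x])) u w ∨ Con [x, v] u w)

lemma dia_adj {a b : Fin 4} : diamond.Adj a b ↔ (a = 0 ∧ b = 1) ∨ (a = 1 ∧ b = 0) ∨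
    (a = 0 ∧ b = 2) ∨ (a = 2 ∧ b = 0) ∨ (a = 0 ∧ b = 3) ∨ (a = 3 ∧ b = 0) ∨
    (a = 1 ∧ b = 2) ∨ (a = 2 ∧ b = 1) ∨ (a = 1 ∧ b = 3) ∨ (a = 3 ∧ b = 1) := by
  unfold diamond
  simp only [SimpleGraph.fromRel_adj]
  revert a b
  decide

lemma paw_adj {a b : Fin 4} : paw.Adj a b ↔ (a = 0 ∧ b = 1) ∨ (a = 1 ∧ b = 0) ∨
    (a = 0 ∧ b = 2) ∨ (a = 2 ∧ b = 0) ∨ (a = 0 ∧ b = 3) ∨ (a = 3 ∧ b = 0) ∨
    (a = 1 ∧ b = 2) ∨ (a = 2 ∧ b = 1) := by
  unfold paw
  simp only [SimpleGraph.fromRel_adj]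
  revert a b
  decide

/-- the inner vertices for the diamond -/
def PD (L1 L2 L3 : List V) (a b : Fin 4) : List V :=
  if a = 0 ∧ b = 1 then L1 else if a = 1 ∧ b = 0 then L1.reverse else
  if a = 2 ∧ b = 1 then L2 else if a = 1 ∧ b = 2 then L2.reverse else
  if a = 3 ∧ b = 1 then L3 else if a = 1 ∧ b = 3 then L3.reverse else []

lemma mem_PD {L1 L2 L3 : List V} {a b : Fin 4} {x : V} (h : x ∈ PD L1 L2 L3 a b) :
    (x ∈ L1 ∧ s(a, b) = s(0, 1)) ∨ (x ∈ L2 ∧ s(a, b) = s(1, 2)) ∨ (x ∈ L3 ∧ s(a, b) = s(1, 3)) := by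
  unfold PD at h
  split_ifs at h with h1 h2 h3 h4 h5 h6
  · exact Or.inl ⟨h, by rw [h1.1, h1.2]⟩
  · exact Or.inl ⟨List.mem_reverse.1 h, by rw [h2.1, h2.2]; exact Sym2.eq_swap⟩
  · exact Or.inr (Or.inl ⟨h, by rw [h3.1, h3.2]; exact Sym2.eq_swap⟩)
  · exact Or.inr (Or.inl ⟨List.mem_reverse.1 h, by rw [h4.1, h4.2]⟩)
  · exact Or.inr (Or.inr ⟨h, by rw [h5.1, h5.2]; exact Sym2.eq_swap⟩)
  · exact Or.inr (Or.inr ⟨List.mem_reverse.1 h, by rw [h6.1, h6.2]⟩)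
  · simp at h

lemma inj4 {a b c d : V} (h1 : a ≠ b) (h2 : a ≠ c) (h3 : a ≠ d) (h4 : b ≠ c) (h5 : b ≠ d)
    (h6 : c ≠ d) : Function.Injective (![a, b, c, d] : Fin 4 → V) := by
  intro i j hij
  fin_cases i <;> fin_cases j <;>
    simp only [Fin.zero_eta, Fin.mk_one, Fin.reduceFinMk, Matrix.cons_val] at hij ⊢ <;>
    first
    | exact absurd hij h1 | exact absurd hij h2 | exact absurd hij h3 | exact absurd hij h4
    | exact absurd hij h5 | exact absurd hij h6 | exact absurd hij.symm h1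
    | exact absurd hij.symm h2 | exact absurd hij.symm h3 | exact absurd hij.symm h4
    | exact absurd hij.symm h5 | exact absurd hij.symm h6

theorem Theta.tm {x y a2 a3 : V} {M1 L2 L3 : List V} (h : Theta G x y M1 (a2 :: L2) (a3 :: L3)) :
    TM diamond G ![x, y, a2, a3] (PD M1 L2 L3) := by
  have hnd := h.nodup
  rw [List.nodup_cons, List.nodup_cons, List.nodup_append, List.nodup_append] at hnd
  obtain ⟨hx, hy, n1, ⟨n2, n3, d23⟩, d1⟩ := hnd
  have hxy : x ≠ y := by rintro rfl; simp at hx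
  have hxa2 : x ≠ a2 := by rintro rfl; simp at hx
  have hxa3 : x ≠ a3 := by rintro rfl; simp at hx
  have hx1 : x ∉ M1 := fun hh => hx (by simp [hh])
  have hx2 : x ∉ L2 := fun hh => hx (by simp [hh])
  have hx3 : x ∉ L3 := fun hh => hx (by simp [hh])
  have hya2 : y ≠ a2 := by rintro rfl; simp at hy
  have hya3 : y ≠ a3 := by rintro rfl; simp at hy
  have hy1 : y ∉ M1 := fun hh => hy (by simp [hh])
  have hy2 : y ∉ L2 := fun hh => hy (by simp [hh])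
  have hy3 : y ∉ L3 := fun hh => hy (by simp [hh])
  have ha2a3 : a2 ≠ a3 := d23 a2 (by simp) a3 (by simp)
  have ha21 : a2 ∉ M1 := fun hh => d1 a2 hh a2 (by simp) rfl
  have ha31 : a3 ∉ M1 := fun hh => d1 a3 hh a3 (by simp) rfl
  have ha22 : a2 ∉ L2 := (List.nodup_cons.1 n2).1
  have ha33 : a3 ∉ L3 := (List.nodup_cons.1 n3).1
  have ha32 : a3 ∉ L2 := fun hh => d23 a3 (by simp [hh]) a3 (by simp) rfl
  have ha23 : a2 ∉ L3 := fun hh => d23 a2 (by simp) a2 (by simp [hh]) rfl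
  have d12 : ∀ z ∈ M1, z ∉ L2 := fun z hz hz' => d1 z hz z (by simp [hz']) rfl
  have d13 : ∀ z ∈ M1, z ∉ L3 := fun z hz hz' => d1 z hz z (by simp [hz']) rfl
  have d23' : ∀ z ∈ L2, z ∉ L3 := fun z hz hz' => d23 z (by simp [hz]) z (by simp [hz']) rfl
  have hv : ∀ z, Ver diamond ![x, y, a2, a3] (PD M1 L2 L3) z →
      z ∈ x :: y :: (M1 ++ ((a2 :: L2) ++ (a3 :: L3))) := by
    rintro z (⟨w, rfl⟩ | ⟨a, b, _, hz⟩)
    · fin_cases w <;> simp
    · rcases mem_PD hz with ⟨h1, _⟩ | ⟨h1, _⟩ | ⟨h1, _⟩ <;> simp [h1]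
  refine ⟨inj4 hxy hxa2 hxa3 hya2 hya3 ha2a3, ?_, ?_, ?_, ?_, ?_⟩
  · intro a b hab
    rw [dia_adj] at hab
    rcases hab with ⟨rfl, rfl⟩ | ⟨rfl, rfl⟩ | ⟨rfl, rfl⟩ | ⟨rfl, rfl⟩ | ⟨rfl, rfl⟩ | ⟨rfl, rfl⟩ |
      ⟨rfl, rfl⟩ | ⟨rfl, rfl⟩ | ⟨rfl, rfl⟩ | ⟨rfl, rfl⟩ <;> simp [PD]
  · intro a b _
    unfold PD
    split_ifs
    · exact n1
    · exact List.nodup_reverse.2 n1
    · exact (List.nodup_cons.1 n2).2
    · exact List.nodup_reverse.2 (List.nodup_cons.1 n2).2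
    · exact (List.nodup_cons.1 n3).2
    · exact List.nodup_reverse.2 (List.nodup_cons.1 n3).2
    · simp
  · intro a b _ w hw
    rcases mem_PD hw with ⟨h1, _⟩ | ⟨h1, _⟩ | ⟨h1, _⟩
    · fin_cases w
      · exact hx1 h1
      · exact hy1 h1
      · exact ha21 h1
      · exact ha31 h1
    · fin_cases w
      · exact hx2 h1
      · exact hy2 h1
      · exact ha22 h1
      · exact ha32 h1
    · fin_cases w
      · exact hx3 h1
      · exact hy3 h1
      · exact ha23 h1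
      · exact ha33 h1
  · intro a b c d _ _ z hz hz'
    rcases mem_PD hz with ⟨h1, e1⟩ | ⟨h1, e1⟩ | ⟨h1, e1⟩ <;>
      rcases mem_PD hz' with ⟨h2, e2⟩ | ⟨h2, e2⟩ | ⟨h2, e2⟩
    · rw [e1, e2]
    · exact absurd h2 (d12 z h1)
    · exact absurd h2 (d13 z h1)
    · exact absurd h1 (d12 z h2)
    · rw [e1, e2]
    · exact absurd h2 (d23' z h1)
    · exact absurd h1 (d13 z h2)
    · exact absurd h1 (d23' z h2)
    · rw [e1, e2]
  · intro u v hu hv'
    rw [h.adj u (hv u hu) v (hv v hv')]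
    have q01 : Q ![x, y, a2, a3] (PD M1 L2 L3) 0 1 = x :: (M1 ++ [y]) := by simp [Q, PD]
    have q10 : Q ![x, y, a2, a3] (PD M1 L2 L3) 1 0 = (x :: (M1 ++ [y])).reverse := by simp [Q, PD]
    have q02 : Q ![x, y, a2, a3] (PD M1 L2 L3) 0 2 = [x, a2] := by simp [Q, PD]
    have q20 : Q ![x, y, a2, a3] (PD M1 L2 L3) 2 0 = [x, a2].reverse := by simp [Q, PD]
    have q03 : Q ![x, y, a2, a3] (PD M1 L2 L3) 0 3 = [x, a3] := by simp [Q, PD]
    have q30 : Q ![x, y, a2, a3] (PD M1 L2 L3) 3 0 = [x, a3].reverse := by simp [Q, PD]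
    have q21 : Q ![x, y, a2, a3] (PD M1 L2 L3) 2 1 = a2 :: (L2 ++ [y]) := by simp [Q, PD]
    have q12 : Q ![x, y, a2, a3] (PD M1 L2 L3) 1 2 = (a2 :: (L2 ++ [y])).reverse := by simp [Q, PD]
    have q31 : Q ![x, y, a2, a3] (PD M1 L2 L3) 3 1 = a3 :: (L3 ++ [y]) := by simp [Q, PD]
    have q13 : Q ![x, y, a2, a3] (PD M1 L2 L3) 1 3 = (a3 :: (L3 ++ [y])).reverse := by simp [Q, PD]
    have e2 : Con (x :: ((a2 :: L2) ++ [y])) u v ↔ Con [x, a2] u v ∨ Con (a2 :: (L2 ++ [y])) u v := by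
      unfold Con
      simp only [List.cons_append, infix_cc (a := x), infix_single, or_false]
      tauto
    have e3 : Con (x :: ((a3 :: L3) ++ [y])) u v ↔ Con [x, a3] u v ∨ Con (a3 :: (L3 ++ [y])) u v := by
      unfold Con
      simp only [List.cons_append, infix_cc (a := x), infix_single, or_false]
      tauto
    rw [e2, e3]
    have hr : (∃ a b, diamond.Adj a b ∧ [u, v] <:+: Q ![x, y, a2, a3] (PD M1 L2 L3) a b) ↔
        ([u, v] <:+: Q ![x, y, a2, a3] (PD M1 L2 L3) 0 1 ∨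
         [u, v] <:+: Q ![x, y, a2, a3] (PD M1 L2 L3) 1 0 ∨
         [u, v] <:+: Q ![x, y, a2, a3] (PD M1 L2 L3) 0 2 ∨
         [u, v] <:+: Q ![x, y, a2, a3] (PD M1 L2 L3) 2 0 ∨
         [u, v] <:+: Q ![x, y, a2, a3] (PD M1 L2 L3) 0 3 ∨
         [u, v] <:+: Q ![x, y, a2, a3] (PD M1 L2 L3) 3 0 ∨
         [u, v] <:+: Q ![x, y, a2, a3] (PD M1 L2 L3) 1 2 ∨
         [u, v] <:+: Q ![x, y, a2, a3] (PD M1 L2 L3) 2 1 ∨
         [u, v] <:+: Q ![x, y, a2, a3] (PD M1 L2 L3) 1 3 ∨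
         [u, v] <:+: Q ![x, y, a2, a3] (PD M1 L2 L3) 3 1) := by
      constructor
      · rintro ⟨a, b, hab, hi⟩
        rw [dia_adj] at hab
        rcases hab with ⟨rfl, rfl⟩ | ⟨rfl, rfl⟩ | ⟨rfl, rfl⟩ | ⟨rfl, rfl⟩ | ⟨rfl, rfl⟩ |
          ⟨rfl, rfl⟩ | ⟨rfl, rfl⟩ | ⟨rfl, rfl⟩ | ⟨rfl, rfl⟩ | ⟨rfl, rfl⟩ <;> simp only [hi, true_or, or_true]
      · rintro (hi | hi | hi | hi | hi | hi | hi | hi | hi | hi)
        · exact ⟨0, 1, by rw [dia_adj]; simp, hi⟩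
        · exact ⟨1, 0, by rw [dia_adj]; simp, hi⟩
        · exact ⟨0, 2, by rw [dia_adj]; simp, hi⟩
        · exact ⟨2, 0, by rw [dia_adj]; simp, hi⟩
        · exact ⟨0, 3, by rw [dia_adj]; simp, hi⟩
        · exact ⟨3, 0, by rw [dia_adj]; simp, hi⟩
        · exact ⟨1, 2, by rw [dia_adj]; simp, hi⟩
        · exact ⟨2, 1, by rw [dia_adj]; simp, hi⟩
        · exact ⟨1, 3, by rw [dia_adj]; simp, hi⟩
        · exact ⟨3, 1, by rw [dia_adj]; simp, hi⟩
    rw [hr, q01, q10, q02, q20, q03, q30, q12, q21, q13, q31]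
    simp only [infix_rev, Con]
    constructor
    · rintro ((hh | hh) | ((hh | hh) | (hh | hh)) | ((hh | hh) | (hh | hh))) <;>
        simp only [hh, true_or, or_true]
    · rintro (hh | hh | hh | hh | hh | hh | hh | hh | hh | hh) <;>
        simp only [hh, true_or, or_true]

theorem Theta.itm {x y : V} {M1 M2 M3 : List V} (h : Theta G x y M1 M2 M3) :
    IsInducedTopMinor diamond G := by
  obtain ⟨a2, L2, rfl⟩ := List.exists_cons_of_ne_nil h.n2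
  obtain ⟨a3, L3, rfl⟩ := List.exists_cons_of_ne_nil h.n3
  exact isITM_iff.2 ⟨_, _, h.tm⟩

/-- the inner vertices for the paw -/
def PP (L : List V) (a b : Fin 4) : List V :=
  if a = 1 ∧ b = 2 then L else if a = 2 ∧ b = 1 then L.reverse else []

lemma mem_PP {L : List V} {a b : Fin 4} {x : V} (h : x ∈ PP L a b) :
    x ∈ L ∧ s(a, b) = s(1, 2) := by
  unfold PP at h
  split_ifs at h with h1 h2
  · exact ⟨h, by rw [h1.1, h1.2]⟩
  · exact ⟨List.mem_reverse.1 h, by rw [h2.1, h2.2]; exact Sym2.eq_swap⟩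
  · simp at h

theorem Lolli.itm {x v : V} {M : List V} (h : Lolli G x v M) : IsInducedTopMinor paw G := by
  obtain ⟨a, M', rfl⟩ : ∃ a M', M = a :: M' := by
    rcases M with _ | ⟨a, M'⟩
    · have := h.len; simp at this
    · exact ⟨a, M', rfl⟩
  obtain ⟨L, b, rfl⟩ : ∃ L b, M' = L ++ [b] := by
    rcases List.eq_nil_or_concat M' with h1 | ⟨L, b, h1⟩
    · have := h.len; simp [h1] at this
    · exact ⟨L, b, by simpa using h1⟩
  have hnd := h.nodup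
  rw [List.nodup_cons, List.nodup_cons, List.nodup_cons, List.nodup_append] at hnd
  obtain ⟨hx, hv, ha, nL, _, dL⟩ := hnd
  have hxv : x ≠ v := by rintro rfl; simp at hx
  have hxa : x ≠ a := by rintro rfl; simp at hx
  have hxb : x ≠ b := by rintro rfl; simp at hx
  have hxL : x ∉ L := fun hh => hx (by simp [hh])
  have hva : v ≠ a := by rintro rfl; simp at hv
  have hvb : v ≠ b := by rintro rfl; simp at hv
  have hvL : v ∉ L := fun hh => hv (by simp [hh])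
  have hab' : a ≠ b := by rintro rfl; simp at ha
  have haL : a ∉ L := fun hh => ha (by simp [hh])
  have hbL : b ∉ L := fun hh => dL b hh b (by simp) rfl
  have hver : ∀ z, Ver paw ![x, a, b, v] (PP L) z → z ∈ x :: v :: (a :: (L ++ [b])) := by
    rintro z (⟨w, rfl⟩ | ⟨a, b, _, hz⟩)
    · fin_cases w <;> simp
    · simp [(mem_PP hz).1]
  refine isITM_iff.2 ⟨![x, a, b, v], PP L, inj4 hxa hxb hxv hab' hva.symm hvb.symm, ?_, ?_, ?_, ?_, ?_⟩
  · intro a b hab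
    rw [paw_adj] at hab
    rcases hab with ⟨rfl, rfl⟩ | ⟨rfl, rfl⟩ | ⟨rfl, rfl⟩ | ⟨rfl, rfl⟩ | ⟨rfl, rfl⟩ | ⟨rfl, rfl⟩ |
      ⟨rfl, rfl⟩ | ⟨rfl, rfl⟩ <;> simp [PP]
  · intro a b _
    unfold PP
    split_ifs
    · exact nL
    · exact List.nodup_reverse.2 nL
    · simp
  · intro c d _ w hw
    have h1 := (mem_PP hw).1
    fin_cases w
    · exact hxL h1
    · exact haL h1
    · exact hbL h1
    · exact hvL h1
  · intro a b c d _ _ z hz hz'
    rw [(mem_PP hz).2, (mem_PP hz').2]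
  · intro u w hu hw
    rw [h.adj u (hver u hu) w (hver w hw)]
    have q01 : Q ![x, a, b, v] (PP L) 0 1 = [x, a] := by simp [Q, PP]
    have q10 : Q ![x, a, b, v] (PP L) 1 0 = [x, a].reverse := by simp [Q, PP]
    have q02 : Q ![x, a, b, v] (PP L) 0 2 = [b, x].reverse := by simp [Q, PP]
    have q20 : Q ![x, a, b, v] (PP L) 2 0 = [b, x] := by simp [Q, PP]
    have q03 : Q ![x, a, b, v] (PP L) 0 3 = [x, v] := by simp [Q, PP]
    have q30 : Q ![x, a, b, v] (PP L) 3 0 = [x, v].reverse := by simp [Q, PP]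
    have q12 : Q ![x, a, b, v] (PP L) 1 2 = a :: (L ++ [b]) := by simp [Q, PP]
    have q21 : Q ![x, a, b, v] (PP L) 2 1 = (a :: (L ++ [b])).reverse := by simp [Q, PP]
    have e1 : Con (x :: ((a :: (L ++ [b])) ++ [x])) u w ↔
        Con [x, a] u w ∨ Con (a :: (L ++ [b])) u w ∨ Con [b, x] u w := by
      have e2 : x :: ((a :: (L ++ [b])) ++ [x]) = (x :: a :: L) ++ b :: [x] := by simp
      rw [e2, con_split]
      unfold Con
      simp only [List.cons_append, infix_cc (a := x), infix_single, or_false]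
      tauto
    rw [e1]
    have hr : (∃ a' b', paw.Adj a' b' ∧ [u, w] <:+: Q ![x, a, b, v] (PP L) a' b') ↔
        ([u, w] <:+: Q ![x, a, b, v] (PP L) 0 1 ∨
         [u, w] <:+: Q ![x, a, b, v] (PP L) 1 0 ∨
         [u, w] <:+: Q ![x, a, b, v] (PP L) 0 2 ∨
         [u, w] <:+: Q ![x, a, b, v] (PP L) 2 0 ∨
         [u, w] <:+: Q ![x, a, b, v] (PP L) 0 3 ∨
         [u, w] <:+: Q ![x, a, b, v] (PP L) 3 0 ∨
         [u, w] <:+: Q ![x, a, b, v] (PP L) 1 2 ∨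
         [u, w] <:+: Q ![x, a, b, v] (PP L) 2 1) := by
      constructor
      · rintro ⟨a', b', hab, hi⟩
        rw [paw_adj] at hab
        rcases hab with ⟨rfl, rfl⟩ | ⟨rfl, rfl⟩ | ⟨rfl, rfl⟩ | ⟨rfl, rfl⟩ | ⟨rfl, rfl⟩ |
          ⟨rfl, rfl⟩ | ⟨rfl, rfl⟩ | ⟨rfl, rfl⟩ <;> simp only [hi, true_or, or_true]
      · rintro (hi | hi | hi | hi | hi | hi | hi | hi)
        · exact ⟨0, 1, by rw [paw_adj]; simp, hi⟩
        · exact ⟨1, 0, by rw [paw_adj]; simp, hi⟩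
        · exact ⟨0, 2, by rw [paw_adj]; simp, hi⟩
        · exact ⟨2, 0, by rw [paw_adj]; simp, hi⟩
        · exact ⟨0, 3, by rw [paw_adj]; simp, hi⟩
        · exact ⟨3, 0, by rw [paw_adj]; simp, hi⟩
        · exact ⟨1, 2, by rw [paw_adj]; simp, hi⟩
        · exact ⟨2, 1, by rw [paw_adj]; simp, hi⟩
    rw [hr, q01, q10, q02, q20, q03, q30, q12, q21]
    simp only [infix_rev, Con]
    constructor
    · rintro (((hh | hh) | (hh | hh) | (hh | hh)) | (hh | hh)) <;>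
        simp only [hh, true_or, or_true]
    · rintro (hh | hh | hh | hh | hh | hh | hh | hh) <;>
        simp only [hh, true_or, or_true]

end Pool.Agent.N415.ITM
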