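import Pool.Agent.N415.ITM.Excl

/-! The finite classification. -/

namespace Pool.Agent.N415.ITM

open Pool.Agent.H175R2 SimpleGraph

/-- the local conditions obtained from the families -/
structure Loc {W : Type} (H : SimpleGraph W) : Prop where
  p1 : ∀ a b c, a ≠ b → a ≠ c → b ≠ c → ¬ H.Adj a b → ¬ H.Adj a c → ¬ H.Adj b c → False
  p2 : ∀ a b c d, a ≠ c → a ≠ d → b ≠ c → b ≠ d → H.Adj a b → H.Adj c d → ¬ H.Adj a c →
    ¬ H.Adj a d → ¬ H.Adj b c → ¬ H.Adj b d → False
  p3 : ∀ a b c a' b' c', H.Adj a b → H.Adj a c → ¬ H.Adj b c → b ≠ c → H.Adj a' b' → H.Adj a' c' →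
    ¬ H.Adj b' c' → b' ≠ c' → a ≠ a' → ¬ H.Adj a a' → False
  p4 : ∀ x a b c d, H.Adj x a → H.Adj x b → H.Adj x c → H.Adj x d → a ≠ b → a ≠ c → b ≠ c →
    a ≠ d → b ≠ d → c ≠ d → False
  p5 : ∀ a b c d, H.Adj a b → H.Adj a c → H.Adj a d → H.Adj b c → H.Adj b d → H.Adj c d → False
  p6 : ∀ a b c d, H.Adj a b → H.Adj a c → H.Adj b c → a ≠ d → b ≠ d → c ≠ d → ¬ H.Adj a d →
    ¬ H.Adj b d → ¬ H.Adj c d → False

variable {W : Type} {H : SimpleGraph W}

/-- four-cycles -/
lemma Loc.c4 (h : Loc H) {a b c d : W} (h1 : H.Adj a b) (h2 : H.Adj b c) (h3 : H.Adj c d)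
    (h4 : H.Adj d a) (hac : a ≠ c) (hbd : b ≠ d) (h5 : ¬ H.Adj a c) (h6 : ¬ H.Adj b d) : False :=
  h.p3 a b d c b d h1 h4.symm h6 hbd h2.symm h3 h6 hbd hac h5

/-- a triangle and two further vertices -/
lemma Loc.tri5 (h : Loc H) {a b c d e : W} (hab : H.Adj a b) (hac : H.Adj a c) (hbc : H.Adj b c)
    (ad : a ≠ d) (ae : a ≠ e) (bd : b ≠ d) (be : b ≠ e) (cd : c ≠ d) (ce : c ≠ e) (de : d ≠ e) :
    False := by
  by_cases had : H.Adj a d <;> by_cases hbd : H.Adj b d <;> by_cases hcd : H.Adj c d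
  · exact h.p5 a b c d hab hac had hbc hbd hcd
  all_goals by_cases hae : H.Adj a e <;> by_cases hbe : H.Adj b e <;> by_cases hce : H.Adj c e
  all_goals by_cases hde : H.Adj d e
  all_goals first
  | exact h.p5 a b c e hab hac hae hbc hbe hce
  | exact h.p4 a b c d e hab hac had hae hbc.ne bd cd be ce de
  | exact h.p4 b a c d e hab.symm hbc hbd hbe hac.ne ad cd ae ce de
  | exact h.p4 c a b d e hac.symm hbc.symm hcd hce hab.ne ad bd ae be de
  | exact h.p6 a b c d hab hac hbc ad bd cd had hbd hcd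
  | exact h.p6 a b c e hab hac hbc ae be ce hae hbe hce
  | exact h.p6 b c e d hbc hbe hce bd cd de.symm hbd hcd (fun hh => hde hh.symm)
  | exact h.p6 a c e d hac hae hce ad cd de.symm had hcd (fun hh => hde hh.symm)
  | exact h.p6 a b e d hab hae hbe ad bd de.symm had hbd (fun hh => hde hh.symm)
  | exact h.p6 b c d e hbc hbd hcd be ce de hbe hce hde
  | exact h.p6 a c d e hac had hcd ae ce de hae hce hde
  | exact h.p6 a b d e hab had hbd ae be de hae hbe hde
  | exact h.p1 a d e ad ae de had hae hde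
  | exact h.p1 b d e bd be de hbd hbe hde
  | exact h.p1 c d e cd ce de hcd hce hde
  | exact h.c4 hab hbe hde.symm had.symm ae bd hae hbd
  | exact h.c4 hab.symm hae hde.symm hbd.symm be ad hbe had
  | exact h.c4 hac hce hde.symm had.symm ae cd hae hcd
  | exact h.c4 hac.symm hae hde.symm hcd.symm ce ad hce had
  | exact h.c4 hbc hce hde.symm hbd.symm be cd hbe hcd
  | exact h.c4 hbc.symm hbe hde.symm hcd.symm ce bd hce hbd

/-- a vertex with three neighbours and a further vertex -/
lemma Loc.three (h : Loc H) {a b c d e : W} (hab : H.Adj a b) (hac : H.Adj a c) (had : H.Adj a d)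
    (bc : b ≠ c) (bd : b ≠ d) (cd : c ≠ d) (ae : a ≠ e) (be : b ≠ e) (ce : c ≠ e) (de : d ≠ e) :
    False := by
  by_cases hbc : H.Adj b c
  · exact h.tri5 hab hac hbc had.ne ae bd be cd ce de
  by_cases hbd : H.Adj b d
  · exact h.tri5 hab had hbd hac.ne ae bc be cd.symm de ce
  by_cases hcd : H.Adj c d
  · exact h.tri5 hac had hcd hab.ne ae bc.symm ce bd.symm de be
  exact h.p1 b c d bc bd cd hbc hbd hcd

/-- a vertex with three nonneighbours -/
lemma Loc.three' (h : Loc H) {a b c d : W} (hab : ¬ H.Adj a b) (hac : ¬ H.Adj a c)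
    (had : ¬ H.Adj a d) (ab : a ≠ b) (ac : a ≠ c) (ad : a ≠ d)
    (bc : b ≠ c) (bd : b ≠ d) (cd : c ≠ d) : False := by
  by_cases hbc : H.Adj b c
  · by_cases hbd : H.Adj b d
    · by_cases hcd : H.Adj c d
      · exact h.p6 b c d a hbc hbd hcd ab.symm ac.symm ad.symm (fun hh => hab hh.symm)
          (fun hh => hac hh.symm) (fun hh => had hh.symm)
      · exact h.p1 a c d ac ad cd hac had hcd
    · exact h.p1 a b d ab ad bd hab had hbd
  · exact h.p1 a b c ab ac bc hab hac hbc

/-- two neighbours `b, e` and two nonneighbours `c, d` -/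
lemma Loc.two (h : Loc H) {a b c d e : W} (hab : H.Adj a b) (hae : H.Adj a e) (hac : ¬ H.Adj a c)
    (had : ¬ H.Adj a d) (ac : a ≠ c) (ad : a ≠ d) (bc : b ≠ c) (bd : b ≠ d) (be : b ≠ e) (cd : c ≠ d)
    (ce : c ≠ e) (de : d ≠ e) : False := by
  have hcd : H.Adj c d := by
    by_contra hcon
    exact h.p1 a c d ac ad cd hac had hcon
  by_cases hbe : H.Adj b e
  · exact h.tri5 hab hae hbe ac ad bc bd ce.symm de.symm cd
  by_cases hbc : H.Adj b c
  · by_cases hbd : H.Adj b d
    · exact h.tri5 hbc hbd hcd hab.ne.symm be ac.symm ce ad.symm de hae.ne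
    · exact h.p3 a b e c b d hab hae hbe be hbc.symm hcd hbd bd ac hac
  · have hec : H.Adj e c := by
      by_contra hcon
      exact h.p1 b e c be bc ce.symm hbe hbc hcon
    by_cases hed : H.Adj e d
    · exact h.tri5 hec hed hcd hae.ne.symm be.symm ac.symm bc.symm ad.symm bd.symm hab.ne
    · exact h.p3 a b e c e d hab hae hbe be hec.symm hcd hed de.symm ac hac

lemma Loc.five (h : Loc H) {a b c d e : W} (ab : a ≠ b) (ac : a ≠ c) (ad : a ≠ d) (ae : a ≠ e)
    (bc : b ≠ c) (bd : b ≠ d) (be : b ≠ e) (cd : c ≠ d) (ce : c ≠ e) (de : d ≠ e) : False := by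
  by_cases hab : H.Adj a b <;> by_cases hac : H.Adj a c <;> by_cases had : H.Adj a d <;>
    by_cases hae : H.Adj a e
  all_goals first
  | exact h.three hab hac had bc bd cd ae be ce de
  | exact h.three hab hac hae bc be ce ad bd cd de.symm
  | exact h.three hab had hae bd be de ac bc cd.symm ce.symm
  | exact h.three hac had hae cd ce de ab bc.symm bd.symm be.symm
  | exact h.three' hab hac had ab ac ad bc bd cd
  | exact h.three' hab hac hae ab ac ae bc be ce
  | exact h.three' hab had hae ab ad ae bd be de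
  | exact h.three' hac had hae ac ad ae cd ce de
  | exact h.two hab hac had hae ad ae bd be bc de cd.symm ce.symm
  | exact h.two hab had hac hae ac ae bc be bd ce cd de.symm
  | exact h.two hab hae hac had ac ad bc bd be cd ce de
  | exact h.two hac had hab hae ab ae bc.symm ce cd be bd de.symm
  | exact h.two hac hae hab had ab ad bc.symm cd ce bd be de
  | exact h.two had hae hab hac ab ac bd.symm cd.symm de bc be ce

/-- matrices -/
def mk (b01 b02 b03 b12 b13 b23 : Bool) : Fin 4 → Fin 4 → Bool :=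
  ![![false, b01, b02, b03], ![b01, false, b12, b13], ![b02, b12, false, b23],
    ![b03, b13, b23, false]]

/-- adjacency matrix of `P₄` -/
def P4b (i j : Fin 4) : Bool := i.val + 1 = j.val || j.val + 1 = i.val
/-- adjacency matrix of the paw -/
def pawb (i j : Fin 4) : Bool := i ≠ j && (i = 0 || j = 0 || (i = 1 && j = 2) || (i = 2 && j = 1))
/-- adjacency matrix of the diamond -/
def diab (i j : Fin 4) : Bool := i ≠ j && (i = 0 || j = 0 || i = 1 || j = 1)

/-- `M` restricted to the list of vertices `l` embeds into `T` -/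
def embb (m : ℕ) (M T : Fin 4 → Fin 4 → Bool) : Bool :=
  (List.finRange 4).any fun a => (List.finRange 4).any fun b => (List.finRange 4).any fun c =>
  (List.finRange 4).any fun d =>
    let σ : Fin 4 → Fin 4 := ![a, b, c, d]
    (List.finRange 4).all fun i => (List.finRange 4).all fun j =>
      (i.val < m && j.val < m && i < j) → (σ i ≠ σ j && M i j == T (σ i) (σ j))

/-- bad configurations -/
def badb (M : Fin 4 → Fin 4 → Bool) : Bool :=
  -- three independent vertices
  (!M 0 1 && !M 0 2 && !M 1 2) || (!M 0 1 && !M 0 3 && !M 1 3) || (!M 0 2 && !M 0 3 && !M 2 3) ||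
  (!M 1 2 && !M 1 3 && !M 2 3) ||
  -- complete
  (M 0 1 && M 0 2 && M 0 3 && M 1 2 && M 1 3 && M 2 3) ||
  -- triangle and isolated vertex
  (M 0 1 && M 0 2 && M 1 2 && !M 0 3 && !M 1 3 && !M 2 3) ||
  (M 0 1 && M 0 3 && M 1 3 && !M 0 2 && !M 1 2 && !M 2 3) ||
  (M 0 2 && M 0 3 && M 2 3 && !M 0 1 && !M 1 2 && !M 1 3) ||
  (M 1 2 && M 1 3 && M 2 3 && !M 0 1 && !M 0 2 && !M 0 3) ||
  -- four-cycles
  (M 0 1 && M 1 2 && M 2 3 && M 0 3 && !M 0 2 && !M 1 3) ||
  (M 0 1 && M 1 3 && M 2 3 && M 0 2 && !M 0 3 && !M 1 2) ||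
  (M 0 2 && M 1 2 && M 1 3 && M 0 3 && !M 0 1 && !M 2 3) ||
  -- two disjoint edges
  (M 0 1 && M 2 3 && !M 0 2 && !M 0 3 && !M 1 2 && !M 1 3) ||
  (M 0 2 && M 1 3 && !M 0 1 && !M 0 3 && !M 1 2 && !M 2 3) ||
  (M 0 3 && M 1 2 && !M 0 1 && !M 0 2 && !M 1 3 && !M 2 3)

set_option maxRecDepth 100000 in
lemma dec4 : ∀ b01 b02 b03 b12 b13 b23 : Bool,
    (badb (mk b01 b02 b03 b12 b13 b23) || embb 4 (mk b01 b02 b03 b12 b13 b23) P4b ||
      embb 4 (mk b01 b02 b03 b12 b13 b23) pawb || embb 4 (mk b01 b02 b03 b12 b13 b23) diab) = true := by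
  decide +kernel

set_option maxRecDepth 100000 in
lemma dec3 : ∀ b01 b02 b12 : Bool,
    ((!b01 && !b02 && !b12) || embb 3 (mk b01 b02 false b12 false false) P4b ||
      embb 3 (mk b01 b02 false b12 false false) pawb ||
      embb 3 (mk b01 b02 false b12 false false) diab) = true := by
  decide +kernel

lemma embb_spec {m : ℕ} {M T : Fin 4 → Fin 4 → Bool} (h : embb m M T = true) :
    ∃ σ : Fin 4 → Fin 4, ∀ i j : Fin 4, i.val < m → j.val < m → i < j →
      σ i ≠ σ j ∧ M i j = T (σ i) (σ j) := by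
  simp only [embb, List.any_eq_true, List.mem_finRange, true_and, List.all_eq_true,
    forall_const] at h
  obtain ⟨a, b, c, d, h⟩ := h
  refine ⟨![a, b, c, d], fun i j hi hj hij => ?_⟩
  have := h i j
  simp only [hi, hj, hij, decide_true, Bool.and_self, forall_const] at this
  simpa using this

lemma emb_core {m : ℕ} {e : Fin 4 → W} (hcov : ∀ w, ∃ i : Fin 4, i.val < m ∧ e i = w)
    (M : Fin 4 → Fin 4 → Bool)
    (hM : ∀ i j : Fin 4, i.val < m → j.val < m → i < j → (M i j = true ↔ H.Adj (e i) (e j)))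
    {T : Fin 4 → Fin 4 → Bool} {TG : SimpleGraph (Fin 4)} (hT : ∀ i j, TG.Adj i j ↔ T i j = true)
    (h : embb m M T = true) : H.IsIndContained TG := by
  obtain ⟨σ, hσ⟩ := embb_spec h
  choose g hg1 hg2 using hcov
  have hg : ∀ w w', g w = g w' → w = w' := fun w w' h => by rw [← hg2 w, ← hg2 w', h]
  have key : ∀ w w', g w < g w' → σ (g w) ≠ σ (g w') ∧ (H.Adj w w' ↔ TG.Adj (σ (g w)) (σ (g w'))) := by
    intro w w' hlt
    obtain ⟨h1, h2⟩ := hσ (g w) (g w') (hg1 w) (hg1 w') hlt
    refine ⟨h1, ?_⟩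
    rw [hT, ← h2, hM _ _ (hg1 w) (hg1 w') hlt, hg2, hg2]
  refine ⟨⟨⟨fun w => σ (g w), ?_⟩, ?_⟩⟩
  · intro w w' hww
    rcases lt_trichotomy (g w) (g w') with h1 | h1 | h1
    · exact absurd hww (key w w' h1).1
    · exact hg w w' h1
    · exact absurd hww.symm (key w' w h1).1
  · intro w w'
    show TG.Adj (σ (g w)) (σ (g w')) ↔ H.Adj w w'
    rcases lt_trichotomy (g w) (g w') with h1 | h1 | h1
    · exact (key w w' h1).2.symm
    · have := hg w w' h1
      subst this; simp
    · rw [TG.adj_comm, H.adj_comm]; exact (key w' w h1).2.symm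

lemma P4_spec : ∀ i j : Fin 4, P4.Adj i j ↔ P4b i j = true := by
  unfold P4 P4b
  simp only [SimpleGraph.fromRel_adj]
  decide

lemma paw_spec : ∀ i j : Fin 4, paw.Adj i j ↔ pawb i j = true := by
  unfold paw pawb
  simp only [SimpleGraph.fromRel_adj]
  decide

lemma dia_spec : ∀ i j : Fin 4, diamond.Adj i j ↔ diab i j = true := by
  unfold diamond diab
  simp only [SimpleGraph.fromRel_adj]
  decide

/-- the final list -/
def Listed {W : Type} (H : SimpleGraph W) : Prop :=
  H.IsIndContained P4 ∨ H.IsIndContained paw ∨ H.IsIndContained diamond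

open Classical in
theorem classify [Finite W] (h : Loc H) : Listed H := by
  have : Fintype W := Fintype.ofFinite W
  -- at most four vertices
  have hcard : Fintype.card W ≤ 4 := by
    by_contra hcon
    have h5 : 5 ≤ Fintype.card W := by omega
    have e5 : Nonempty (Fin 5 ↪ W) := by
      apply Function.Embedding.nonempty_of_card_le
      simpa using h5
    obtain ⟨e⟩ := e5
    have hne : ∀ i j : Fin 5, i ≠ j → e i ≠ e j := fun i j hij he => hij (e.injective he)
    exact h.five (hne 0 1 (by decide)) (hne 0 2 (by decide)) (hne 0 3 (by decide))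
      (hne 0 4 (by decide)) (hne 1 2 (by decide)) (hne 1 3 (by decide)) (hne 1 4 (by decide))
      (hne 2 3 (by decide)) (hne 2 4 (by decide)) (hne 3 4 (by decide))
  obtain ⟨e⟩ : Nonempty (W ≃ Fin (Fintype.card W)) := ⟨Fintype.equivFin W⟩
  have mkT : ∀ b, (decide (b = true)) = b := by decide
  interval_cases hn : Fintype.card W
  · -- no vertices
    left
    have : IsEmpty W := Fintype.card_eq_zero_iff.1 hn
    exact ⟨⟨⟨fun w => isEmptyElim w, fun w => isEmptyElim w⟩, fun {w} => isEmptyElim w⟩⟩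
  · left
    refine ⟨⟨⟨fun _ => 0, fun a b _ => ?_⟩, ?_⟩⟩
    · exact Fintype.card_le_one_iff.1 hn.le a b
    · intro a b
      have : a = b := Fintype.card_le_one_iff.1 hn.le a b
      subst this
      simp
  · left
    -- two vertices
    have hcov : ∀ w : W, w = e.symm 0 ∨ w = e.symm 1 := by
      intro w
      rcases (show e w = 0 ∨ e w = 1 by
        have := (e w).isLt
        omega) with h1 | h1
      · left; rw [← h1]; simp
      · right; rw [← h1]; simp
    have hne : e.symm 0 ≠ e.symm 1 := fun he => absurd (e.symm.injective he) (by decide)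
    by_cases hadj : H.Adj (e.symm 0) (e.symm 1)
    · refine emb_core (m := 2) (e := ![e.symm 0, e.symm 1, e.symm 0, e.symm 0]) ?_
        (mk true false false false false false) ?_ P4_spec (by decide +kernel)
      · intro w
        rcases hcov w with rfl | rfl
        · exact ⟨0, by decide, rfl⟩
        · exact ⟨1, by decide, rfl⟩
      · intro i j hi hj hij
        have h1 : i = 0 := by ext; have : i.val < j.val := hij; simp; omega
        have h2 : j = 1 := by ext; have : i.val < j.val := hij; simp; omega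
        subst h1 h2
        simp [mk, hadj]
    · refine emb_core (m := 2) (e := ![e.symm 0, e.symm 1, e.symm 0, e.symm 0]) ?_
        (mk false false false false false false) ?_ P4_spec (by decide +kernel)
      · intro w
        rcases hcov w with rfl | rfl
        · exact ⟨0, by decide, rfl⟩
        · exact ⟨1, by decide, rfl⟩
      · intro i j hi hj hij
        have h1 : i = 0 := by ext; have : i.val < j.val := hij; simp; omega
        have h2 : j = 1 := by ext; have : i.val < j.val := hij; simp; omega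
        subst h1 h2
        simp [mk, hadj]
  · -- three vertices
    set a := e.symm 0 with ha
    set b := e.symm 1 with hb
    set c := e.symm 2 with hc
    have hcov : ∀ w : W, w = a ∨ w = b ∨ w = c := by
      intro w
      rcases (show e w = 0 ∨ e w = 1 ∨ e w = 2 by
        have := (e w).isLt
        omega) with h1 | h1 | h1
      · left; rw [ha, ← h1]; simp
      · right; left; rw [hb, ← h1]; simp
      · right; right; rw [hc, ← h1]; simp
    have nab : a ≠ b := fun he => absurd (e.symm.injective he) (by decide)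
    have nac : a ≠ c := fun he => absurd (e.symm.injective he) (by decide)
    have nbc : b ≠ c := fun he => absurd (e.symm.injective he) (by decide)
    have hc1 : ∀ w, ∃ i : Fin 4, i.val < 3 ∧ (![a, b, c, c] : Fin 4 → W) i = w := by
      intro w
      rcases hcov w with rfl | rfl | rfl
      · exact ⟨0, by decide, rfl⟩
      · exact ⟨1, by decide, rfl⟩
      · exact ⟨2, by decide, rfl⟩
    have hM : ∀ i j : Fin 4, i.val < 3 → j.val < 3 → i < j →
        (mk (decide (H.Adj a b)) (decide (H.Adj a c)) false (decide (H.Adj b c)) false false i j = true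
          ↔ H.Adj ((![a, b, c, c] : Fin 4 → W) i) ((![a, b, c, c] : Fin 4 → W) j)) := by
      intro i j hi hj hij
      fin_cases i <;> fin_cases j <;>
      first
      | (exact absurd hij (by decide))
      | (exact absurd hj (by decide))
      | (exact absurd hi (by decide))
      | simp [mk]
    have := dec3 (decide (H.Adj a b)) (decide (H.Adj a c)) (decide (H.Adj b c))
    rw [Bool.or_eq_true, Bool.or_eq_true, Bool.or_eq_true] at this
    rcases this with ((h1 | h1) | h1) | h1
    · exfalso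
      simp only [Bool.and_eq_true, Bool.not_eq_true', decide_eq_false_iff_not] at h1
      exact h.p1 a b c nab nac nbc h1.1.1 h1.1.2 h1.2
    · exact Or.inl (emb_core hc1 _ hM P4_spec h1)
    · exact Or.inr (Or.inl (emb_core hc1 _ hM paw_spec h1))
    · exact Or.inr (Or.inr (emb_core hc1 _ hM dia_spec h1))
  · -- four vertices
    set a := e.symm 0 with ha
    set b := e.symm 1 with hb
    set c := e.symm 2 with hc
    set d := e.symm 3 with hd
    have hcov : ∀ w : W, w = a ∨ w = b ∨ w = c ∨ w = d := by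
      intro w
      rcases (show e w = 0 ∨ e w = 1 ∨ e w = 2 ∨ e w = 3 by
        have := (e w).isLt
        omega) with h1 | h1 | h1 | h1
      · left; rw [ha, ← h1]; simp
      · right; left; rw [hb, ← h1]; simp
      · right; right; left; rw [hc, ← h1]; simp
      · right; right; right; rw [hd, ← h1]; simp
    have nab : a ≠ b := fun he => absurd (e.symm.injective he) (by decide)
    have nac : a ≠ c := fun he => absurd (e.symm.injective he) (by decide)
    have nad : a ≠ d := fun he => absurd (e.symm.injective he) (by decide)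
    have nbc : b ≠ c := fun he => absurd (e.symm.injective he) (by decide)
    have nbd : b ≠ d := fun he => absurd (e.symm.injective he) (by decide)
    have ncd : c ≠ d := fun he => absurd (e.symm.injective he) (by decide)
    have hc1 : ∀ w, ∃ i : Fin 4, i.val < 4 ∧ (![a, b, c, d] : Fin 4 → W) i = w := by
      intro w
      rcases hcov w with rfl | rfl | rfl | rfl
      · exact ⟨0, by decide, rfl⟩
      · exact ⟨1, by decide, rfl⟩
      · exact ⟨2, by decide, rfl⟩
      · exact ⟨3, by decide, rfl⟩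
    have hM : ∀ i j : Fin 4, i.val < 4 → j.val < 4 → i < j →
        (mk (decide (H.Adj a b)) (decide (H.Adj a c)) (decide (H.Adj a d)) (decide (H.Adj b c))
          (decide (H.Adj b d)) (decide (H.Adj c d)) i j = true
          ↔ H.Adj ((![a, b, c, d] : Fin 4 → W) i) ((![a, b, c, d] : Fin 4 → W) j)) := by
      intro i j hi hj hij
      fin_cases i <;> fin_cases j <;>
      first
      | (exact absurd hij (by decide))
      | simp [mk]
    have := dec4 (decide (H.Adj a b)) (decide (H.Adj a c)) (decide (H.Adj a d)) (decide (H.Adj b c))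
          (decide (H.Adj b d)) (decide (H.Adj c d))
    rw [Bool.or_eq_true, Bool.or_eq_true, Bool.or_eq_true] at this
    have flip : ∀ {x y : W}, ¬ H.Adj x y → ¬ H.Adj y x := fun hh h' => hh h'.symm
    rcases this with ((h1 | h1) | h1) | h1
    · exfalso
      simp only [badb, mk, Matrix.cons_val, Bool.or_eq_true, Bool.and_eq_true, Bool.not_eq_true',
        decide_eq_false_iff_not, decide_eq_true_eq, Matrix.cons_val_zero, Matrix.cons_val_one] at h1
      rcases h1 with (((((((((((((h1 | h1) | h1) | h1) | h1) | h1) | h1) | h1) | h1) | h1) | h1) | h1) |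
        h1) | h1) | h1
      · exact h.p1 a b c nab nac nbc h1.1.1 h1.1.2 h1.2
      · exact h.p1 a b d nab nad nbd h1.1.1 h1.1.2 h1.2
      · exact h.p1 a c d nac nad ncd h1.1.1 h1.1.2 h1.2
      · exact h.p1 b c d nbc nbd ncd h1.1.1 h1.1.2 h1.2
      · obtain ⟨⟨⟨⟨⟨q1, q2⟩, q3⟩, q4⟩, q5⟩, q6⟩ := h1
        exact h.p5 a b c d q1 q2 q3 q4 q5 q6
      · obtain ⟨⟨⟨⟨⟨q1, q2⟩, q3⟩, q4⟩, q5⟩, q6⟩ := h1
        exact h.p6 a b c d q1 q2 q3 nad nbd ncd q4 q5 q6
      · obtain ⟨⟨⟨⟨⟨q1, q2⟩, q3⟩, q4⟩, q5⟩, q6⟩ := h1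
        exact h.p6 a b d c q1 q2 q3 nac nbc ncd.symm q4 q5 (flip q6)
      · obtain ⟨⟨⟨⟨⟨q1, q2⟩, q3⟩, q4⟩, q5⟩, q6⟩ := h1
        exact h.p6 a c d b q1 q2 q3 nab nbc.symm nbd.symm q4 (flip q5) (flip q6)
      · obtain ⟨⟨⟨⟨⟨q1, q2⟩, q3⟩, q4⟩, q5⟩, q6⟩ := h1
        exact h.p6 b c d a q1 q2 q3 nab.symm nac.symm nad.symm (flip q4) (flip q5) (flip q6)
      · obtain ⟨⟨⟨⟨⟨q1, q2⟩, q3⟩, q4⟩, q5⟩, q6⟩ := h1
        exact h.c4 q1 q2 q3 q4.symm nac nbd q5 q6
      · obtain ⟨⟨⟨⟨⟨q1, q2⟩, q3⟩, q4⟩, q5⟩, q6⟩ := h1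
        exact h.c4 q1 q2 q3.symm q4.symm nad nbc q5 q6
      · obtain ⟨⟨⟨⟨⟨q1, q2⟩, q3⟩, q4⟩, q5⟩, q6⟩ := h1
        exact h.c4 q1 q2.symm q3 q4.symm nab ncd q5 q6
      · obtain ⟨⟨⟨⟨⟨q1, q2⟩, q3⟩, q4⟩, q5⟩, q6⟩ := h1
        exact h.p2 a b c d nac nad nbc nbd q1 q2 q3 q4 q5 q6
      · obtain ⟨⟨⟨⟨⟨q1, q2⟩, q3⟩, q4⟩, q5⟩, q6⟩ := h1
        exact h.p2 a c b d nab nad nbc.symm ncd q1 q2 q3 q4 (flip q5) q6
      · obtain ⟨⟨⟨⟨⟨q1, q2⟩, q3⟩, q4⟩, q5⟩, q6⟩ := h1
        exact h.p2 a d b c nab nac nbd.symm ncd.symm q1 q2 q3 q4 (flip q5) (flip q6)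
    · exact Or.inl (emb_core hc1 _ hM P4_spec h1)
    · exact Or.inr (Or.inl (emb_core hc1 _ hM paw_spec h1))
    · exact Or.inr (Or.inr (emb_core hc1 _ hM dia_spec h1))

end Pool.Agent.N415.ITM
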