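import Pool.Agent.N415.ITM.Cert
import Pool.Agent.H175R2.Blocks

/-! Shortest cycles and ears. -/

namespace Pool.Agent.N415.ITM

open Pool.Agent.H175R2 Finset

variable {V : Type} {G : SimpleGraph V}

lemma head_app {l1 X Y : List V} {p : V} : (l1 ++ p :: X).head? = (l1 ++ p :: Y).head? := by
  rcases l1 with _ | ⟨a, l1⟩ <;> simp

lemma last_app {X Y l3 : List V} {q : V} : (X ++ q :: l3).getLast? = (Y ++ q :: l3).getLast? := by
  rw [List.getLast?_append_cons, List.getLast?_append_cons]

lemma short_adj {R : V → V → Prop} {l1 l2 l3 : List V} {p q : V}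
    (h : (l1 ++ p :: (l2 ++ q :: l3)).IsChain R) (hpq : R p q) :
    (l1 ++ p :: (q :: l3)).IsChain R := by
  rw [List.isChain_append] at h ⊢
  obtain ⟨h1, h2, h3⟩ := h
  refine ⟨h1, ?_, fun x hx y hy => h3 x hx y (by simpa using hy)⟩
  rw [List.isChain_cons_cons]
  refine ⟨hpq, ?_⟩
  have : (p :: (l2 ++ q :: l3)) = (p :: l2) ++ (q :: l3) := by simp
  rw [this, List.isChain_append] at h2
  exact h2.2.1

lemma short_eq {R : V → V → Prop} {l1 l2 l3 : List V} {p : V}
    (h : (l1 ++ p :: (l2 ++ p :: l3)).IsChain R) :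
    (l1 ++ p :: l3).IsChain R := by
  rw [List.isChain_append] at h ⊢
  obtain ⟨h1, h2, h3⟩ := h
  refine ⟨h1, ?_, fun x hx y hy => h3 x hx y (by simpa using hy)⟩
  have : (p :: (l2 ++ p :: l3)) = (p :: l2) ++ (p :: l3) := by simp
  rw [this, List.isChain_append] at h2
  exact h2.2.1

lemma nodup_of {L : List V} (h : ∀ l1 p l2 l3, L = l1 ++ p :: (l2 ++ p :: l3) → False) :
    L.Nodup := by
  induction L with
  | nil => simp
  | cons a L ih =>
    rw [List.nodup_cons]
    refine ⟨fun ha => ?_, ih fun l1 p l2 l3 he => h (a :: l1) p l2 l3 (by rw [he]; rfl)⟩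
    obtain ⟨l2, l3, rfl⟩ := List.append_of_mem ha
    exact h [] a l2 l3 rfl

lemma mem_split2 {L : List V} {u v : V} (hu : u ∈ L) (hv : v ∈ L) :
    u = v ∨ (∃ l1 l2 l3, L = l1 ++ u :: (l2 ++ v :: l3)) ∨
      (∃ l1 l2 l3, L = l1 ++ v :: (l2 ++ u :: l3)) := by
  obtain ⟨l1, l2, rfl⟩ := List.append_of_mem hu
  rw [List.mem_append, List.mem_cons] at hv
  rcases hv with hv | rfl | hv
  · obtain ⟨l3, l4, rfl⟩ := List.append_of_mem hv
    right; right
    exact ⟨l3, l4, l2, by simp⟩
  · left; rfl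
  · obtain ⟨l3, l4, rfl⟩ := List.append_of_mem hv
    right; left
    exact ⟨l1, l3, l4, rfl⟩

/-- induced path -/
structure IndP (G : SimpleGraph V) (L : List V) : Prop where
  nodup : L.Nodup
  adj : ∀ u ∈ L, ∀ v ∈ L, (G.Adj u v ↔ Con L u v)

lemma indP_of {L : List V} (hc : L.IsChain G.Adj)
    (h1 : ∀ l1 p l2 q l3, L = l1 ++ p :: (l2 ++ q :: l3) → G.Adj p q → l2 = [])
    (h2 : ∀ l1 p l2 l3, L = l1 ++ p :: (l2 ++ p :: l3) → False) : IndP G L := by
  refine ⟨nodup_of h2, fun u hu v hv => ⟨fun h => ?_, fun h => ?_⟩⟩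
  · rcases mem_split2 hu hv with rfl | ⟨l1, l2, l3, e⟩ | ⟨l1, l2, l3, e⟩
    · exact absurd h (G.loopless.irrefl u)
    · have := h1 _ _ _ _ _ e h
      subst this
      exact Or.inl ⟨l1, l3, by simp [e]⟩
    · have := h1 _ _ _ _ _ e h.symm
      subst this
      exact Or.inr ⟨l1, l3, by simp [e]⟩
  · rcases h with h | h
    · exact chain_con hc h
    · exact (chain_con hc h).symm

section

/-- chains inside connected sets -/
lemma exists_chain {D : Finset V} (h : Cn G D) {a b : V} (ha : a ∈ D) (hb : b ∈ D) :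
    ∃ l : List V, l.head? = some a ∧ l.getLast? = some b ∧ l.IsChain G.Adj ∧ ∀ u ∈ l, u ∈ D := by
  classical
  set T := D.filter (fun z => ∃ l : List V, l.head? = some a ∧ l.getLast? = some z ∧
    l.IsChain G.Adj ∧ ∀ u ∈ l, u ∈ D) with hT
  have haT : a ∈ T := by
    rw [hT, mem_filter]
    exact ⟨ha, [a], by simp, by simp, by simp, by simpa using ha⟩
  by_contra hcon
  have hbT : b ∉ T := fun hh => hcon (mem_filter.1 hh).2
  obtain ⟨z, hz, w, hw, hzw⟩ := h.2 T (filter_subset _ _) ⟨a, haT⟩ ⟨b, mem_sdiff.2 ⟨hb, hbT⟩⟩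
  obtain ⟨hwD, hwT⟩ := mem_sdiff.1 hw
  obtain ⟨_, l, l1, l2, l3, l4⟩ := mem_filter.1 hz
  apply hwT
  rw [hT, mem_filter]
  refine ⟨hwD, l ++ [w], ?_, by simp, ?_, ?_⟩
  · rw [List.head?_append, l1]; rfl
  · rw [List.isChain_append]
    refine ⟨l3, by simp, ?_⟩
    intro x hx y hy
    rw [l2] at hx
    simp at hx hy
    subst hx hy
    exact hzw
  · intro u hu
    rw [List.mem_append] at hu
    rcases hu with hu | hu
    · exact l4 u hu
    · simp at hu; rw [hu]; exact hwD

/-- an ear of `Z` -/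
structure Ear (G : SimpleGraph V) (Z : Finset V) (z1 z2 : V) (L : List V) : Prop where
  m1 : z1 ∈ Z
  m2 : z2 ∈ Z
  ne : z1 ≠ z2
  chain : L.IsChain G.Adj
  out : ∀ p ∈ L, p ∉ Z
  h1 : ∃ p, L.head? = some p ∧ G.Adj z1 p
  h2 : ∃ p, L.getLast? = some p ∧ G.Adj z2 p

/-- a shortest ear -/
structure MinEar (G : SimpleGraph V) (Z : Finset V) (z1 z2 : V) (L : List V) : Prop extends
    Ear G Z z1 z2 L where
  min : ∀ z1' z2' L', Ear G Z z1' z2' L' → L.length ≤ L'.length

lemma exists_minEar {Z : Finset V} (h : ∃ z1 z2 L, Ear G Z z1 z2 L) :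
    ∃ z1 z2 L, MinEar G Z z1 z2 L := by
  classical
  have h' : ∃ n, ∃ z1 z2 L, Ear G Z z1 z2 L ∧ L.length = n := by
    obtain ⟨z1, z2, L, h⟩ := h
    exact ⟨_, z1, z2, L, h, rfl⟩
  obtain ⟨z1, z2, L, hE, hn⟩ := Nat.find_spec h'
  refine ⟨z1, z2, L, hE, fun z1' z2' L' hE' => ?_⟩
  rw [hn]
  exact Nat.find_min' h' ⟨z1', z2', L', hE', rfl⟩

variable {Z : Finset V} {z1 z2 : V} {L : List V}

lemma MinEar.ind (h : MinEar G Z z1 z2 L) : IndP G L := by
  apply indP_of h.chain
  · intro l1 p l2 q l3 e hpq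
    by_contra hne
    have hE : Ear G Z z1 z2 (l1 ++ p :: (q :: l3)) := by
      refine ⟨h.m1, h.m2, h.ne, ?_, ?_, ?_, ?_⟩
      · have := h.chain
        rw [e] at this
        exact short_adj this hpq
      · intro r hr
        apply h.out
        rw [e]
        simp only [List.mem_append, List.mem_cons] at hr ⊢
        tauto
      · have := h.h1
        rw [e, head_app (Y := q :: l3)] at this
        exact this
      · have := h.h2
        rw [e, show l1 ++ p :: (l2 ++ q :: l3) = (l1 ++ p :: l2) ++ q :: l3 by simp,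
          last_app (Y := l1 ++ [p])] at this
        simpa using this
    have := h.min _ _ _ hE
    rw [e] at this
    simp only [List.length_append, List.length_cons] at this
    have h0 := List.length_pos_of_ne_nil hne
    omega
  · intro l1 p l2 l3 e
    have hE : Ear G Z z1 z2 (l1 ++ p :: l3) := by
      refine ⟨h.m1, h.m2, h.ne, ?_, ?_, ?_, ?_⟩
      · have := h.chain
        rw [e] at this
        exact short_eq this
      · intro r hr
        apply h.out
        rw [e]
        simp only [List.mem_append, List.mem_cons] at hr ⊢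
        tauto
      · have := h.h1
        rw [e, head_app (Y := l3)] at this
        exact this
      · have := h.h2
        rw [e, show l1 ++ p :: (l2 ++ p :: l3) = (l1 ++ p :: l2) ++ p :: l3 by simp,
          last_app (Y := l1)] at this
        exact this
    have := h.min _ _ _ hE
    rw [e] at this
    simp only [List.length_append, List.length_cons] at this
    omega

lemma MinEar.right (h : MinEar G Z z1 z2 L) {l1 l2 : List V} {p z : V} (e : L = l1 ++ p :: l2)
    (hz : z ∈ Z) (hpz : G.Adj p z) (hne : z ≠ z1) : l2 = [] := by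
  by_contra hl2
  have hE : Ear G Z z1 z (l1 ++ [p]) := by
    refine ⟨h.m1, hz, hne.symm, ?_, ?_, ?_, ⟨p, by simp, hpz.symm⟩⟩
    · have := h.chain
      rw [e, show l1 ++ p :: l2 = (l1 ++ [p]) ++ l2 by simp, List.isChain_append] at this
      exact this.1
    · intro r hr
      apply h.out
      rw [e]
      simp only [List.mem_append, List.mem_cons, List.not_mem_nil, or_false] at hr ⊢
      tauto
    · have := h.h1
      rw [e, head_app (Y := [])] at this
      exact this
  have := h.min _ _ _ hE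
  rw [e] at this
  simp only [List.length_append, List.length_cons, List.length_nil] at this
  have h0 := List.length_pos_of_ne_nil hl2
  omega

lemma MinEar.left (h : MinEar G Z z1 z2 L) {l1 l2 : List V} {p z : V} (e : L = l1 ++ p :: l2)
    (hz : z ∈ Z) (hpz : G.Adj p z) (hne : z ≠ z2) : l1 = [] := by
  by_contra hl1
  have hE : Ear G Z z z2 (p :: l2) := by
    refine ⟨hz, h.m2, hne, ?_, ?_, ⟨p, by simp, hpz.symm⟩, ?_⟩
    · have := h.chain
      rw [e, List.isChain_append] at this
      exact this.2.1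
    · intro r hr
      apply h.out
      rw [e]
      simp only [List.mem_append, List.mem_cons] at hr ⊢
      tauto
    · have := h.h2
      rw [e, last_app (Y := [])] at this
      simpa using this
  have := h.min _ _ _ hE
  rw [e] at this
  simp only [List.length_append, List.length_cons] at this
  have h0 := List.length_pos_of_ne_nil hl1
  omega

lemma Ear.ne_nil (h : Ear G Z z1 z2 L) : L ≠ [] := by
  rintro rfl
  obtain ⟨p, hp, _⟩ := h.h1
  simp at hp

/-- the attachments of a shortest ear -/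
lemma MinEar.att (h : MinEar G Z z1 z2 L) {p z : V} (hp : p ∈ L) (hz : z ∈ Z) (hpz : G.Adj p z) :
    (z = z1 ∧ L.head? = some p) ∨ (z = z2 ∧ L.getLast? = some p) ∨ L = [p] := by
  obtain ⟨l1, l2, e⟩ := List.append_of_mem hp
  by_cases h1 : z = z1
  · left
    refine ⟨h1, ?_⟩
    have := h.left e hz hpz (by rw [h1]; exact h.ne)
    subst this
    rw [e]; simp
  · have e2 := h.right e hz hpz h1
    subst e2
    by_cases h2 : z = z2
    · right; left
      exact ⟨h2, by rw [e]; simp⟩
    · have := h.left e hz hpz h2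
      subst this
      right; right
      simpa using e

/-- assembling a theta -/
theorem theta_of {x y : V} {A B L : List V} (hnd : (x :: y :: (A ++ B)).Nodup) (hB : B ≠ [])
    (hadj : ∀ u ∈ x :: y :: (A ++ B), ∀ v ∈ x :: y :: (A ++ B),
      (G.Adj u v ↔ Con (x :: (A ++ [y])) u v ∨ Con (x :: (B ++ [y])) u v))
    (hL : IndP G L) (hL0 : L ≠ []) (hout : ∀ p ∈ L, p ∉ x :: y :: (A ++ B))
    (hatt : ∀ p ∈ L, ∀ z ∈ x :: y :: (A ++ B),
      (G.Adj p z ↔ (z = x ∧ L.head? = some p) ∨ (z = y ∧ L.getLast? = some p))) :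
    Theta G x y A B L := by
  have hsub : ∀ {l : List V} {u v : V}, (∀ w ∈ l, w ∈ A ++ B) → Con (x :: (l ++ [y])) u v →
      u ∈ x :: y :: (A ++ B) ∧ v ∈ x :: y :: (A ++ B) := by
    intro l u v hl h
    have h1 := h.mem
    simp only [List.mem_cons, List.mem_append, List.not_mem_nil, or_false] at h1 ⊢
    have h2 := hl u
    have h3 := hl v
    simp only [List.mem_append] at h2 h3
    tauto
  have hA' : ∀ {u v : V}, Con (x :: (A ++ [y])) u v →
      u ∈ x :: y :: (A ++ B) ∧ v ∈ x :: y :: (A ++ B) :=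
    hsub (fun w hw => by simp [hw])
  have hB' : ∀ {u v : V}, Con (x :: (B ++ [y])) u v →
      u ∈ x :: y :: (A ++ B) ∧ v ∈ x :: y :: (A ++ B) :=
    hsub (fun w hw => by simp [hw])
  have hxS : x ∈ x :: y :: (A ++ B) := by simp
  have hyS : y ∈ x :: y :: (A ++ B) := by simp
  have hmem : ∀ {u : V}, u ∈ x :: y :: (A ++ (B ++ L)) ↔ u ∈ x :: y :: (A ++ B) ∨ u ∈ L := by
    intro u
    simp only [List.mem_cons, List.mem_append]
    tauto
  have hhead : ∀ {u : V}, L.head? = some u → u ∈ L := fun h => List.mem_of_mem_head? h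
  have hlast : ∀ {u : V}, L.getLast? = some u → u ∈ L := fun h => List.mem_of_getLast? h
  have hmix : ∀ {u v : V}, u ∈ L → v ∈ x :: y :: (A ++ B) →
      (G.Adj u v ↔ Con (x :: (L ++ [y])) u v) := by
    intro u v hu hv
    rw [hatt u hu v hv]
    unfold Con
    rw [infix_ends hL0, infix_ends hL0]
    have h1 : u ∉ x :: y :: (A ++ B) := hout u hu
    have h2 : v ∉ L := fun h => hout v h hv
    have h3 : u ≠ x := fun h => h1 (h ▸ hxS)
    have h4 : u ≠ y := fun h => h1 (h ▸ hyS)
    constructor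
    · rintro (⟨rfl, h⟩ | ⟨rfl, h⟩)
      · exact Or.inr (Or.inl ⟨rfl, h⟩)
      · exact Or.inl (Or.inr (Or.inr ⟨h, rfl⟩))
    · rintro ((⟨h, _⟩ | h | ⟨h, rfl⟩) | (⟨rfl, h⟩ | h | ⟨_, h⟩))
      · exact absurd h h3
      · exact absurd (infix_mem h).2 h2
      · exact Or.inr ⟨rfl, h⟩
      · exact Or.inl ⟨rfl, h⟩
      · exact absurd (infix_mem h).1 h2
      · exact absurd h h4
  have hnot : ∀ {u v : V}, u ∈ L → ¬ (Con (x :: (A ++ [y])) u v ∨ Con (x :: (B ++ [y])) u v) := by
    rintro u v hu (h | h)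
    · exact hout u hu (hA' h).1
    · exact hout u hu (hB' h).1
  refine ⟨?_, hB, hL0, ?_⟩
  · have e : x :: y :: (A ++ (B ++ L)) = (x :: y :: (A ++ B)) ++ L := by simp
    rw [e, List.nodup_append]
    refine ⟨hnd, hL.nodup, ?_⟩
    rintro u hu v hv rfl
    exact hout u hv hu
  · intro u hu v hv
    rw [hmem] at hu hv
    rcases hu with hu | hu <;> rcases hv with hv | hv
    · have : ¬ Con (x :: (L ++ [y])) u v := by
        unfold Con
        rw [infix_ends hL0, infix_ends hL0]
        have h1 : u ∉ L := fun h => hout u h hu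
        have h2 : v ∉ L := fun h => hout v h hv
        rintro ((⟨_, h⟩ | h | ⟨h, _⟩) | (⟨_, h⟩ | h | ⟨h, _⟩))
        · exact h2 (hhead h)
        · exact h1 (infix_mem h).1
        · exact h1 (hlast h)
        · exact h1 (hhead h)
        · exact h1 (infix_mem h).2
        · exact h2 (hlast h)
      rw [hadj u hu v hv]
      tauto
    · have h1 : G.Adj u v ↔ Con (x :: (L ++ [y])) u v := by
        rw [G.adj_comm, hmix hv hu, con_comm]
      have h2 := hnot (v := u) hv
      have h2a : ¬ Con (x :: (A ++ [y])) u v := fun h => h2 (Or.inl h.symm)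
      have h2b : ¬ Con (x :: (B ++ [y])) u v := fun h => h2 (Or.inr h.symm)
      simp only [h1, h2a, h2b, false_or]
    · have h1 := hmix hu hv
      have h2 := hnot (v := v) hu
      tauto
    · have h2 := hnot (v := v) hu
      have h3 : u ≠ x := fun h => hout u hu (h ▸ hxS)
      have h4 : u ≠ y := fun h => hout u hu (h ▸ hyS)
      have h5 : v ≠ x := fun h => hout v hv (h ▸ hxS)
      have h6 : v ≠ y := fun h => hout v hv (h ▸ hyS)
      rw [hL.adj u hu v hv]
      have h7 : Con (x :: (L ++ [y])) u v ↔ Con L u v := by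
        unfold Con
        rw [infix_ends hL0, infix_ends hL0]
        simp only [h3, h4, h5, h6, false_and, and_false, false_or, or_false]
      have h2a : ¬ Con (x :: (A ++ [y])) u v := fun h => h2 (Or.inl h)
      have h2b : ¬ Con (x :: (B ++ [y])) u v := fun h => h2 (Or.inr h)
      simp only [h7, h2a, h2b, false_or]

end

end Pool.Agent.N415.ITM
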