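import Pool.Agent.N415.ITM.Cyc

/-! Shortest cycles. -/

namespace Pool.Agent.N415.ITM

open Pool.Agent.H175R2 Finset

variable {V : Type} {G : SimpleGraph V}

lemma last_cc {x y : V} {l : List V} : (x :: (l ++ [y])).getLast? = some y := by
  rw [← List.cons_append, List.getLast?_append_cons]; rfl

/-- a closed walk `x, M` whose second and last vertices are different -/
structure Cyc (G : SimpleGraph V) (x : V) (M : List V) : Prop where
  chain : M.IsChain G.Adj
  nx : x ∉ M
  ends : ∃ a b, M.head? = some a ∧ M.getLast? = some b ∧ a ≠ b ∧ G.Adj x a ∧ G.Adj x b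

/-- a shortest cycle -/
structure MinCyc (G : SimpleGraph V) (x : V) (M : List V) : Prop extends Cyc G x M where
  min : ∀ x' M', Cyc G x' M' → M.length ≤ M'.length

lemma exists_minCyc (h : ∃ x M, Cyc G x M) : ∃ x M, MinCyc G x M := by
  classical
  have h' : ∃ n, ∃ x M, Cyc G x M ∧ M.length = n := by
    obtain ⟨x, M, h⟩ := h
    exact ⟨_, x, M, h, rfl⟩
  obtain ⟨x, M, hE, hn⟩ := Nat.find_spec h'
  refine ⟨x, M, hE, fun x' M' hE' => ?_⟩
  rw [hn]
  exact Nat.find_min' h' ⟨x', M', hE', rfl⟩

variable {x : V} {M : List V}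

lemma Cyc.ne_nil (h : Cyc G x M) : M ≠ [] := by
  rintro rfl
  obtain ⟨a, b, h1, _⟩ := h.ends
  simp at h1

lemma Cyc.two_le (h : Cyc G x M) : 2 ≤ M.length := by
  obtain ⟨a, b, h1, h2, h3, _⟩ := h.ends
  rcases M with _ | ⟨c, _ | ⟨d, M⟩⟩
  · simp at h1
  · simp at h1 h2
    exact absurd (h1.symm.trans h2) h3
  · simp

lemma MinCyc.ind (h : MinCyc G x M) : IndP G M := by
  apply indP_of h.chain
  · intro l1 p l2 q l3 e hpq
    by_contra hne
    have hE : Cyc G x (l1 ++ p :: (q :: l3)) := by
      refine ⟨?_, ?_, ?_⟩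
      · have := h.chain
        rw [e] at this
        exact short_adj this hpq
      · intro hr
        apply h.nx
        rw [e]
        simp only [List.mem_append, List.mem_cons] at hr ⊢
        tauto
      · obtain ⟨a, b, h1, h2, h3, h4, h5⟩ := h.ends
        refine ⟨a, b, ?_, ?_, h3, h4, h5⟩
        · rw [e, head_app (Y := q :: l3)] at h1
          exact h1
        · rw [e, show l1 ++ p :: (l2 ++ q :: l3) = (l1 ++ p :: l2) ++ q :: l3 by simp,
            last_app (Y := l1 ++ [p])] at h2
          simpa using h2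
    have := h.min _ _ hE
    rw [e] at this
    simp only [List.length_append, List.length_cons] at this
    have h0 := List.length_pos_of_ne_nil hne
    omega
  · intro l1 p l2 l3 e
    have hE : Cyc G x (l1 ++ p :: l3) := by
      refine ⟨?_, ?_, ?_⟩
      · have := h.chain
        rw [e] at this
        exact short_eq this
      · intro hr
        apply h.nx
        rw [e]
        simp only [List.mem_append, List.mem_cons] at hr ⊢
        tauto
      · obtain ⟨a, b, h1, h2, h3, h4, h5⟩ := h.ends
        refine ⟨a, b, ?_, ?_, h3, h4, h5⟩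
        · rw [e, head_app (Y := l3)] at h1
          exact h1
        · rw [e, show l1 ++ p :: (l2 ++ p :: l3) = (l1 ++ p :: l2) ++ p :: l3 by simp,
            last_app (Y := l1)] at h2
          exact h2
    have := h.min _ _ hE
    rw [e] at this
    simp only [List.length_append, List.length_cons] at this
    omega

lemma MinCyc.mid (h : MinCyc G x M) {l1 l2 : List V} {p : V} (e : M = l1 ++ p :: l2)
    (hp : G.Adj x p) : l1 = [] ∨ l2 = [] := by
  by_contra hcon
  push Not at hcon
  obtain ⟨hl1, hl2⟩ := hcon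
  have hnd := h.ind.nodup
  have hE : Cyc G x (l1 ++ [p]) := by
    refine ⟨?_, ?_, ?_⟩
    · have := h.chain
      rw [e, show l1 ++ p :: l2 = (l1 ++ [p]) ++ l2 by simp, List.isChain_append] at this
      exact this.1
    · intro hr
      apply h.nx
      rw [e]
      simp only [List.mem_append, List.mem_cons, List.not_mem_nil, or_false] at hr ⊢
      tauto
    · obtain ⟨a, b, h1, h2, h3, h4, h5⟩ := h.ends
      refine ⟨a, p, ?_, by simp, ?_, h4, hp⟩
      · rw [e, head_app (Y := [])] at h1
        exact h1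
      · obtain ⟨c, l1', rfl⟩ := List.exists_cons_of_ne_nil hl1
        rw [e] at h1 hnd
        simp only [List.cons_append, List.head?_cons, Option.some.injEq] at h1
        subst h1
        rintro rfl
        simp at hnd
  have := h.min _ _ hE
  rw [e] at this
  simp only [List.length_append, List.length_cons, List.length_nil] at this
  have h0 := List.length_pos_of_ne_nil hl2
  omega

lemma Cyc.rotate {m1 m2 : List V} {y : V} (h : Cyc G x (m1 ++ y :: m2))
    (hnd : (m1 ++ y :: m2).Nodup) : Cyc G y (m2 ++ x :: m1) := by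
  obtain ⟨a, b, h1, h2, h3, h4, h5⟩ := h.ends
  have hc := h.chain
  rw [List.isChain_append] at hc
  obtain ⟨c1, c2, c3⟩ := hc
  have hnx := h.nx
  simp only [List.mem_append, List.mem_cons, not_or] at hnx
  rw [List.nodup_append, List.nodup_cons] at hnd
  obtain ⟨n1, ⟨n2, n3⟩, n4⟩ := hnd
  refine ⟨?_, ?_, ?_⟩
  · rw [List.isChain_append]
    refine ⟨?_, ?_, ?_⟩
    · exact (List.isChain_cons.1 c2).2
    · rcases m1 with _ | ⟨c, m1⟩
      · simp
      · simp only [List.cons_append, List.head?_cons, Option.some.injEq] at h1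
        subst h1
        rw [List.isChain_cons_cons]
        exact ⟨h4, c1⟩
    · intro u hu v hv
      simp only [List.head?_cons, Option.mem_def, Option.some.injEq] at hv
      subst hv
      rw [List.getLast?_append_cons] at h2
      rcases m2 with _ | ⟨d, m2⟩
      · simp at hu
      · rw [List.getLast?_cons_cons] at h2
        rw [Option.mem_def] at hu
        rw [hu] at h2
        simp only [Option.some.injEq] at h2
        subst h2
        exact h5.symm
  · simp only [List.mem_append, List.mem_cons, not_or]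
    refine ⟨n2, fun h => hnx.2.1 h.symm, fun h => n4 y h y (by simp) rfl⟩
  · have hfirst : ∃ c, (m2 ++ x :: m1).head? = some c ∧ G.Adj y c ∧ (c ∈ m2 ∨ (m2 = [] ∧ c = x)) := by
      rcases m2 with _ | ⟨d, m2⟩
      · refine ⟨x, by simp, ?_, Or.inr ⟨rfl, rfl⟩⟩
        simp at h2
        subst h2
        exact h5.symm
      · refine ⟨d, by simp, (List.isChain_cons_cons.1 c2).1, Or.inl (by simp)⟩
    have hlast : ∃ c, (m2 ++ x :: m1).getLast? = some c ∧ G.Adj y c ∧ (c ∈ m1 ∨ (m1 = [] ∧ c = x)) := by
      rw [List.getLast?_append_cons]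
      rcases m1 with _ | ⟨d, m1⟩
      · refine ⟨x, by simp, ?_, Or.inr ⟨rfl, rfl⟩⟩
        simp at h1
        subst h1
        exact h4.symm
      · rw [List.getLast?_cons_cons]
        obtain ⟨c, hc⟩ : ∃ c, (d :: m1).getLast? = some c := by
          rw [List.getLast?_eq_some_getLast (by simp)]; exact ⟨_, rfl⟩
        refine ⟨c, hc, ?_, Or.inl (List.mem_of_getLast? hc)⟩
        exact (c3 c hc y (by simp)).symm
    obtain ⟨c, e1, e2, e3⟩ := hfirst
    obtain ⟨d, f1, f2, f3⟩ := hlast
    refine ⟨c, d, e1, f1, ?_, e2, f2⟩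
    rintro rfl
    rcases e3 with e3 | ⟨e3, e4⟩ <;> rcases f3 with f3 | ⟨f3, f4⟩
    · exact n4 c f3 c (by simp [e3]) rfl
    · rw [f4] at e3; exact hnx.2.2 e3
    · rw [e4] at f3; exact hnx.1 f3
    · subst e3 f3
      simp only [List.nil_append, List.head?_cons, List.getLast?_singleton, Option.some.injEq] at h1 h2
      exact h3 (h1.symm.trans h2)

lemma MinCyc.rotate {m1 m2 : List V} {y : V} (h : MinCyc G x (m1 ++ y :: m2)) :
    MinCyc G y (m2 ++ x :: m1) := by
  refine ⟨h.toCyc.rotate h.ind.nodup, fun x' M' hE => ?_⟩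
  have := h.min x' M' hE
  simp only [List.length_append, List.length_cons] at this ⊢
  omega

lemma MinCyc.rot (h : MinCyc G x M) {z : V} (hz : z ∈ x :: M) :
    ∃ M', MinCyc G z M' ∧ M'.length = M.length ∧ ∀ w, w ∈ z :: M' ↔ w ∈ x :: M := by
  rw [List.mem_cons] at hz
  rcases hz with rfl | hz
  · exact ⟨M, h, rfl, fun w => Iff.rfl⟩
  · obtain ⟨m1, m2, rfl⟩ := List.append_of_mem hz
    refine ⟨_, h.rotate, ?_, fun w => ?_⟩
    · simp only [List.length_append, List.length_cons]; omega
    · simp only [List.mem_cons, List.mem_append]; tauto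

/-- adjacency on a shortest cycle -/
lemma MinCyc.cadj (h : MinCyc G x M) {u v : V} (hu : u ∈ x :: M) (hv : v ∈ x :: M) :
    G.Adj u v ↔ Con (x :: (M ++ [x])) u v := by
  have hM := h.ne_nil
  have hnx := h.nx
  have key : ∀ {p : V}, p ∈ M → (G.Adj x p ↔ M.head? = some p ∨ M.getLast? = some p) := by
    intro p hp
    obtain ⟨a, b, h1, h2, h3, h4, h5⟩ := h.ends
    constructor
    · intro hxp
      obtain ⟨l1, l2, e⟩ := List.append_of_mem hp
      rcases h.mid e hxp with h6 | h6
      · left; rw [e, h6]; simp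
      · right; rw [e, h6]; simp
    · rintro (h6 | h6)
      · rw [h1] at h6; simp only [Option.some.injEq] at h6; subst h6; exact h4
      · rw [h2] at h6; simp only [Option.some.injEq] at h6; subst h6; exact h5
  have hhead : ∀ {u : V}, M.head? = some u → u ∈ M := fun h => List.mem_of_mem_head? h
  have hlast : ∀ {u : V}, M.getLast? = some u → u ∈ M := fun h => List.mem_of_getLast? h
  unfold Con
  rw [infix_ends hM, infix_ends hM]
  rw [List.mem_cons] at hu hv
  rcases hu with rfl | hu <;> rcases hv with rfl | hv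
  · constructor
    · intro h; exact absurd h (G.loopless.irrefl _)
    · rintro ((⟨_, h⟩ | h | ⟨h, _⟩) | (⟨_, h⟩ | h | ⟨h, _⟩))
      · exact absurd (hhead h) hnx
      · exact absurd (infix_mem h).1 hnx
      · exact absurd (hlast h) hnx
      · exact absurd (hhead h) hnx
      · exact absurd (infix_mem h).1 hnx
      · exact absurd (hlast h) hnx
  · rw [key hv]
    constructor
    · rintro (h | h)
      · exact Or.inl (Or.inl ⟨rfl, h⟩)
      · exact Or.inr (Or.inr (Or.inr ⟨h, rfl⟩))
    · rintro ((⟨_, h⟩ | h | ⟨h, _⟩) | (⟨_, h⟩ | h | ⟨h, _⟩))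
      · exact Or.inl h
      · exact absurd (infix_mem h).1 hnx
      · exact absurd (hlast h) hnx
      · exact absurd (hhead h) hnx
      · exact absurd (infix_mem h).2 hnx
      · exact Or.inr h
  · rw [G.adj_comm, key hu]
    constructor
    · rintro (h | h)
      · exact Or.inr (Or.inl ⟨rfl, h⟩)
      · exact Or.inl (Or.inr (Or.inr ⟨h, rfl⟩))
    · rintro ((⟨_, h⟩ | h | ⟨h, _⟩) | (⟨_, h⟩ | h | ⟨h, _⟩))
      · exact absurd (hhead h) hnx
      · exact absurd (infix_mem h).2 hnx
      · exact Or.inr h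
      · exact Or.inl h
      · exact absurd (infix_mem h).1 hnx
      · exact absurd (hlast h) hnx
  · have h3 : u ≠ x := fun h => hnx (h ▸ hu)
    have h4 : v ≠ x := fun h => hnx (h ▸ hv)
    rw [h.ind.adj u hu v hv]
    simp only [h3, h4, false_and, and_false, false_or, or_false]
    rfl

/-- two neighbours on a shortest cycle -/
lemma MinCyc.outer {m1 m2 : List V} {y p : V} (h : MinCyc G x (m1 ++ y :: m2))
    (hp : p ∉ x :: (m1 ++ y :: m2)) (hpx : G.Adj p x) (hpy : G.Adj p y) :
    m1.length ≤ 1 ∧ m2.length ≤ 1 := by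
  obtain ⟨a, b, h1, h2, h3, h4, h5⟩ := h.ends
  have hnx := h.nx
  have hc := h.chain
  simp only [List.mem_cons, List.mem_append, not_or] at hp hnx
  constructor
  · have hE : Cyc G p ((y :: m2) ++ [x]) := by
      refine ⟨?_, ?_, ⟨y, x, by simp, last_cc, fun h => hnx.2.1 h.symm, hpy, hpx⟩⟩
      · rw [List.isChain_append]
        refine ⟨?_, by simp, ?_⟩
        · rw [List.isChain_append] at hc; exact hc.2.1
        · intro u hu v hv
          simp only [List.head?_cons, Option.mem_def, Option.some.injEq] at hv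
          subst hv
          rw [List.getLast?_append_cons] at h2
          rw [Option.mem_def, h2] at hu
          simp only [Option.some.injEq] at hu
          subst hu
          exact h5.symm
      · simp only [List.mem_append, List.mem_cons, List.not_mem_nil, or_false, not_or]
        tauto
    have := h.min _ _ hE
    simp only [List.length_append, List.length_cons, List.length_nil] at this
    omega
  · have hE : Cyc G p (x :: (m1 ++ [y])) := by
      refine ⟨?_, ?_, ⟨x, y, by simp, ?_, fun h => hnx.2.1 h, hpx, hpy⟩⟩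
      · rcases m1 with _ | ⟨c, m1⟩
        · simp only [List.nil_append, List.head?_cons, Option.some.injEq] at h1
          subst h1
          simp [h4]
        · simp only [List.cons_append, List.head?_cons, Option.some.injEq] at h1
          subst h1
          rw [List.cons_append, List.isChain_cons_cons]
          refine ⟨h4, ?_⟩
          rw [show (c :: m1) ++ y :: m2 = (c :: (m1 ++ [y])) ++ m2 by simp, List.isChain_append] at hc
          exact hc.1
      · simp only [List.mem_append, List.mem_cons, List.not_mem_nil, or_false, not_or]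
        tauto
      · exact last_cc
    have := h.min _ _ hE
    simp only [List.length_append, List.length_cons, List.length_nil] at this
    omega

/-- every vertex of a 2-connected graph has two neighbours -/
lemma two_nbrs [Fintype V] (h : TwoConn G) (x : V) : ∃ a b, a ≠ b ∧ G.Adj x a ∧ G.Adj x b := by
  classical
  have hc := h.card
  obtain ⟨u, hu, a, ha, hxa⟩ := h.conn.2 {x} (subset_univ _) ⟨x, by simp⟩ (by
    obtain ⟨y, hy⟩ := Fintype.exists_ne_of_one_lt_card (by omega) x
    exact ⟨y, by simpa using hy⟩)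
  rw [mem_singleton] at hu
  subst hu
  have hua : u ≠ a := hxa.ne
  obtain ⟨v, hv, b, hb, hxb⟩ := (h.del a).2 {u} (by simpa using hua) ⟨u, by simp⟩ (by
    have h3 : ((univ.erase a) \ {u} : Finset V).card = Fintype.card V - 2 := by
      rw [card_sdiff_of_subset (by simpa using hua), card_erase_of_mem (mem_univ _), card_univ,
        card_singleton]
      omega
    rw [← card_pos, h3]
    omega)
  rw [mem_singleton] at hv
  subst hv
  refine ⟨a, b, ?_, hxa, hxb⟩
  rintro rfl
  simp at hb

lemma exists_cyc [Fintype V] (h : TwoConn G) : ∃ x M, Cyc G x M := by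
  classical
  have hc := h.card
  obtain ⟨x⟩ : Nonempty V := Fintype.card_pos_iff.1 (by omega)
  obtain ⟨a, b, hab, ha, hb⟩ := two_nbrs h x
  obtain ⟨l, l1, l2, l3, l4⟩ := exists_chain (h.del x) (a := a) (b := b)
    (mem_erase.2 ⟨ha.ne.symm, mem_univ _⟩) (mem_erase.2 ⟨hb.ne.symm, mem_univ _⟩)
  exact ⟨x, l, l3, fun hx => (mem_erase.1 (l4 x hx)).1 rfl, a, b, l1, l2, hab, ha, hb⟩

/-- ears exist -/
lemma exists_ear [Fintype V] (h : TwoConn G) {Z : Finset V} (hZ : 2 ≤ Z.card) (hne : Z ≠ univ) :
    ∃ z1 z2 L, Ear G Z z1 z2 L := by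
  classical
  obtain ⟨v, hv⟩ : ∃ v, v ∉ Z := by
    by_contra hcon
    push Not at hcon
    exact hne (eq_univ_iff_forall.2 hcon)
  have hvE : v ∈ univ \ Z := mem_sdiff.2 ⟨mem_univ _, hv⟩
  set D := cpt G (univ \ Z) v with hD
  have hDc : Cn G D := cn_cpt hvE
  have hDZ : ∀ p ∈ D, p ∉ Z := fun p hp => (mem_sdiff.1 (cpt_subset hp)).2
  have hnb : ∀ p ∈ D, ∀ q, q ∉ D → G.Adj p q → q ∈ Z := by
    intro p hp q hq hpq
    by_contra hqZ
    exact not_adj_cpt hvE hp (mem_sdiff.2 ⟨mem_univ _, hqZ⟩) hq hpq
  obtain ⟨z0, hz0, z0', hz0', hz00⟩ := Finset.one_lt_card.1 (show 1 < Z.card by omega)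
  obtain ⟨p, hp, z1, hz1, hpz1⟩ := h.conn.2 D (subset_univ _) hDc.1
    ⟨z0, mem_sdiff.2 ⟨mem_univ _, fun hh => hDZ _ hh hz0⟩⟩
  have hz1D := (mem_sdiff.1 hz1).2
  have hz1Z := hnb p hp z1 hz1D hpz1
  obtain ⟨q, hq, z2, hz2, hqz2⟩ := (h.del z1).2 D (fun r hr => mem_erase.2
      ⟨fun he => hDZ r hr (he ▸ hz1Z), mem_univ _⟩) hDc.1 (by
    by_cases he : z0 = z1
    · refine ⟨z0', mem_sdiff.2 ⟨mem_erase.2 ⟨?_, mem_univ _⟩, fun hh => hDZ _ hh hz0'⟩⟩
      rintro rfl; exact hz00 he
    · exact ⟨z0, mem_sdiff.2 ⟨mem_erase.2 ⟨he, mem_univ _⟩, fun hh => hDZ _ hh hz0⟩⟩)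
  obtain ⟨hz2e, hz2D⟩ := mem_sdiff.1 hz2
  have hz2Z := hnb q hq z2 hz2D hqz2
  obtain ⟨l, l1, l2, l3, l4⟩ := exists_chain hDc hp hq
  exact ⟨z1, z2, l, hz1Z, hz2Z, (mem_erase.1 hz2e).1.symm, l3, fun r hr => hDZ r (l4 r hr),
    ⟨p, l1, hpz1.symm⟩, ⟨q, l2, hqz2.symm⟩⟩

end Pool.Agent.N415.ITM
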