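import Pool.Agent.H175R2.Defs

/-! Definitions for MP_d0d08e_co: induced topological minors. -/

namespace Pool.Agent.N415.ITM

/-- `K` is a subdivision of `H`: every edge `ab` of `H` is replaced by a path
`f a, P a b, f b`, where `f w` is the vertex of `K` that stands for the vertex `w` of `H` and `P a b`
is the list of the inner vertices of the path (read from `a` to `b`). -/
def IsSubdivision {W U : Type} (H : SimpleGraph W) (K : SimpleGraph U) : Prop :=
  ∃ (f : W → U) (P : W → W → List U), Function.Injective f ∧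
    (∀ a b, H.Adj a b → P b a = (P a b).reverse ∧ (P a b).Nodup ∧ ∀ w, f w ∉ P a b) ∧
    (∀ a b c d, H.Adj a b → H.Adj c d → ∀ x, x ∈ P a b → x ∈ P c d → s(a, b) = s(c, d)) ∧
    (∀ x, (∃ w, f w = x) ∨ ∃ a b, H.Adj a b ∧ x ∈ P a b) ∧
    (∀ x y, K.Adj x y ↔ ∃ a b, H.Adj a b ∧ [x, y] <:+: f a :: (P a b ++ [f b]))

/-- `H` is an induced topological minor of `G`: some induced subgraph of `G` is a subdivision
of `H`. -/
def IsInducedTopMinor {W V : Type} (H : SimpleGraph W) (G : SimpleGraph V) : Prop :=
  ∃ S : Set V, IsSubdivision H (G.induce S)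

/-- the 4-vertex path `0 1 2 3` -/
def P4 : SimpleGraph (Fin 4) := SimpleGraph.fromRel (fun x y => x.val + 1 = y.val)

end Pool.Agent.N415.ITM
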