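import Pool.Agent.N415.ITM.Cyc2
import Pool.Agent.N415.ITM.Blk

/-! Graphs without the diamond as an induced topological minor. -/

namespace Pool.Agent.N415.ITM

open Pool.Agent.H175R2 Finset

variable {V : Type} {G : SimpleGraph V}

lemma tri_adj {a b c : V} (hab : G.Adj a b) (hac : G.Adj a c) (hbc : G.Adj b c) :
    ∀ u ∈ a :: b :: ([] ++ [c]), ∀ v ∈ a :: b :: ([] ++ [c]),
      (G.Adj u v ↔ Con (a :: ([] ++ [b])) u v ∨ Con (a :: ([c] ++ [b])) u v) := by
  have n1 := hab.ne
  have n2 := hac.ne
  have n3 := hbc.ne
  intro u hu v hv
  simp only [List.nil_append, List.mem_cons, List.not_mem_nil, or_false] at hu hv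
  simp only [List.nil_append, List.cons_append, Con, infix_cc, infix_single, or_false]
  rcases hu with rfl | rfl | rfl <;> rcases hv with rfl | rfl | rfl
  · simp [n1, n2, n1.symm, n2.symm]
  · simp [hab]
  · simp [hac]
  · simp [hab.symm]
  · simp [n3, n1.symm, n3.symm]
  · simp [hbc]
  · simp [hac.symm]
  · simp [hbc.symm]
  · simp [n2.symm, n3.symm]

/-- a shortest cycle in a triangle-free graph -/
lemma MinCyc.three_le {x : V} {M : List V} (h : MinCyc G x M)
    (ht : ∀ a b c, G.Adj a b → G.Adj a c → G.Adj b c → False) : 3 ≤ M.length := by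
  obtain ⟨a, b, h1, h2, h3, h4, h5⟩ := h.ends
  have hc := h.chain
  rcases M with _ | ⟨c, _ | ⟨d, _ | ⟨e, M⟩⟩⟩
  · simp at h1
  · simp at h1 h2; exact absurd (h1.symm.trans h2) h3
  · simp at h1 h2 hc
    subst h1 h2
    exact (ht x c d h4 h5 hc).elim
  · simp

lemma MinCyc.nbr {x : V} {M : List V} (h : MinCyc G x M) :
    ∃ a b, ∀ v ∈ x :: M, G.Adj x v → v = a ∨ v = b := by
  obtain ⟨a, b, h1, h2, h3, h4, h5⟩ := h.ends
  refine ⟨a, b, fun v hv hxv => ?_⟩
  rw [List.mem_cons] at hv
  rcases hv with rfl | hv
  · exact absurd hxv (G.loopless.irrefl _)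
  · obtain ⟨l1, l2, e⟩ := List.append_of_mem hv
    rcases h.mid e hxv with h6 | h6
    · left
      rw [e, h6] at h1
      simpa using h1
    · right
      rw [e, h6, List.getLast?_append_cons] at h2
      simpa using h2

theorem dia_cases [Fintype V] (h2 : TwoConn G) (hD : ¬ IsInducedTopMinor diamond G) :
    (∀ u v, u ≠ v → G.Adj u v) ∨ (∀ u, ∃ a b, ∀ v, G.Adj u v → v = a ∨ v = b) := by
  classical
  by_cases ht : ∃ a b c, G.Adj a b ∧ G.Adj a c ∧ G.Adj b c
  · left
    obtain ⟨a, b, c, hab, hac, hbc⟩ := ht
    -- a maximum clique
    obtain ⟨K, hK, hmax⟩ := exists_max_image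
      ((univ : Finset V).powerset.filter (fun K => 3 ≤ K.card ∧ ∀ u ∈ K, ∀ v ∈ K, u ≠ v → G.Adj u v))
      card ⟨{a, b, c}, by
        rw [mem_filter, mem_powerset]
        refine ⟨subset_univ _, ?_, ?_⟩
        · rw [card_insert_of_notMem (by simp [hab.ne, hac.ne]),
            card_insert_of_notMem (by simp [hbc.ne]), card_singleton]
        · intro u hu v hv huv
          simp only [mem_insert, mem_singleton] at hu hv
          rcases hu with rfl | rfl | rfl <;> rcases hv with rfl | rfl | rfl <;>
            first | exact absurd rfl huv | assumption | (apply SimpleGraph.Adj.symm; assumption)⟩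
    rw [mem_filter, mem_powerset] at hK
    obtain ⟨_, hK3, hKc⟩ := hK
    by_cases hKu : K = univ
    · intro u v huv
      exact hKc u (hKu ▸ mem_univ u) v (hKu ▸ mem_univ v) huv
    exfalso
    obtain ⟨z1, z2, L, hL⟩ := exists_minEar (exists_ear h2 (by omega) hKu)
    obtain ⟨c, hcK, hc1, hc2, hcL⟩ : ∃ c ∈ K, c ≠ z1 ∧ c ≠ z2 ∧ ∀ p ∈ L, ¬ G.Adj p c := by
      by_cases h1 : ∃ p, L = [p]
      · obtain ⟨p, rfl⟩ := h1
        have hpK : p ∉ K := hL.out p (by simp)
        obtain ⟨c, hc, hpc⟩ : ∃ c ∈ K, ¬ G.Adj p c := by
          by_contra hcon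
          push Not at hcon
          have := hmax (insert p K) (by
            rw [mem_filter, mem_powerset]
            refine ⟨subset_univ _, ?_, ?_⟩
            · rw [card_insert_of_notMem hpK]; omega
            · intro u hu v hv huv
              rw [mem_insert] at hu hv
              rcases hu with rfl | hu <;> rcases hv with rfl | hv
              · exact absurd rfl huv
              · exact hcon v hv
              · exact (hcon u hu).symm
              · exact hKc u hu v hv huv)
          rw [card_insert_of_notMem hpK] at this
          omega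
        obtain ⟨q, hq, hq'⟩ := hL.h1
        obtain ⟨r, hr, hr'⟩ := hL.h2
        simp only [List.head?_cons, Option.some.injEq, List.getLast?_singleton] at hq hr
        subst hq hr
        refine ⟨c, hc, ?_, ?_, ?_⟩
        · rintro rfl; exact hpc hq'.symm
        · rintro rfl; exact hpc hr'.symm
        · intro r hr
          simp only [List.mem_cons, List.not_mem_nil, or_false] at hr
          subst hr; exact hpc
      · have hsd : ((K.erase z1).erase z2).Nonempty := by
          rw [← card_pos, card_erase_of_mem (mem_erase.2 ⟨hL.ne.symm, hL.m2⟩),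
            card_erase_of_mem hL.m1]
          omega
        obtain ⟨c, hc⟩ := hsd
        rw [mem_erase, mem_erase] at hc
        refine ⟨c, hc.2.2, hc.2.1, hc.1, fun p hp hpc => ?_⟩
        rcases hL.att hp hc.2.2 hpc with h3 | h3 | h3
        · exact hc.2.1 h3.1
        · exact hc.1 h3.1
        · exact h1 ⟨p, h3⟩
    have h12 := hKc z1 hL.m1 z2 hL.m2 hL.ne
    have h1c := hKc z1 hL.m1 c hcK hc1.symm
    have h2c := hKc z2 hL.m2 c hcK hc2.symm
    have hS : ∀ z ∈ z1 :: z2 :: ([] ++ [c]), z ∈ K := by
      intro z hz
      simp only [List.nil_append, List.mem_cons, List.not_mem_nil, or_false] at hz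
      rcases hz with rfl | rfl | rfl
      · exact hL.m1
      · exact hL.m2
      · exact hcK
    have hTh : Theta G z1 z2 [] [c] L := by
      refine theta_of ?_ (by simp) (tri_adj h12 h1c h2c) hL.ind hL.ne_nil
        (fun p hp hps => hL.out p hp (hS p hps)) ?_
      · simp [hL.ne, hc1.symm, hc2.symm]
      · intro p hp z hz
        have hzK := hS z hz
        constructor
        · intro hpz
          rcases hL.att hp hzK hpz with h3 | h3 | h3
          · exact Or.inl h3
          · exact Or.inr h3
          · simp only [List.nil_append, List.mem_cons, List.not_mem_nil, or_false] at hz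
            rcases hz with rfl | rfl | rfl
            · left; exact ⟨rfl, by rw [h3]; simp⟩
            · right; exact ⟨rfl, by rw [h3]; simp⟩
            · exact absurd hpz (hcL p hp)
        · rintro (⟨rfl, h3⟩ | ⟨rfl, h3⟩)
          · obtain ⟨q, hq, hq'⟩ := hL.h1
            rw [h3] at hq
            simp only [Option.some.injEq] at hq
            subst hq; exact hq'.symm
          · obtain ⟨q, hq, hq'⟩ := hL.h2
            rw [h3] at hq
            simp only [Option.some.injEq] at hq
            subst hq; exact hq'.symm
    exact hD hTh.itm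
  · right
    have ht' : ∀ a b c, G.Adj a b → G.Adj a c → G.Adj b c → False :=
      fun a b c h1 h2 h3 => ht ⟨a, b, c, h1, h2, h3⟩
    obtain ⟨x, M, hM⟩ := exists_minCyc (exists_cyc h2)
    have hM3 := hM.three_le ht'
    by_cases hZ : (x :: M).toFinset = univ
    · intro u
      have hu : u ∈ x :: M := by rw [← List.mem_toFinset, hZ]; exact mem_univ _
      obtain ⟨M', hM', _, hmem⟩ := hM.rot hu
      obtain ⟨a, b, hab⟩ := hM'.nbr
      refine ⟨a, b, fun v huv => hab v ?_ huv⟩
      rw [hmem, ← List.mem_toFinset, hZ]; exact mem_univ _
    · exfalso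
      have hcard : 2 ≤ (x :: M).toFinset.card := by
        rw [List.toFinset_card_of_nodup (List.nodup_cons.2 ⟨hM.nx, hM.ind.nodup⟩)]
        simp only [List.length_cons]; omega
      obtain ⟨z1, z2, L, hL⟩ := exists_minEar (exists_ear h2 hcard hZ)
      have hz1 := hL.m1
      rw [List.mem_toFinset] at hz1
      obtain ⟨M', hM', hlen, hmem⟩ := hM.rot hz1
      have hz2 := hL.m2
      rw [List.mem_toFinset, ← hmem, List.mem_cons] at hz2
      have hz2 := hz2.resolve_left hL.ne.symm
      obtain ⟨m1, m2, rfl⟩ := List.append_of_mem hz2
      have hin : ∀ z, z ∈ z1 :: (m1 ++ z2 :: m2) ↔ z ∈ (x :: M).toFinset := by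
        intro z; rw [List.mem_toFinset, hmem]
      have hnd := hM'.ind.nodup
      have hnx := hM'.nx
      obtain ⟨e1, e2, g1, g2, g3, g4, g5⟩ := hM'.ends
      -- attachments
      have hatt : ∀ p ∈ L, ∀ z ∈ z1 :: (m1 ++ z2 :: m2),
          (G.Adj p z ↔ (z = z1 ∧ L.head? = some p) ∨ (z = z2 ∧ L.getLast? = some p)) := by
        intro p hp z hz
        constructor
        · intro hpz
          rcases hL.att hp ((hin z).1 hz) hpz with h3 | h3 | h3
          · exact Or.inl h3
          · exact Or.inr h3
          · -- the ear has only one vertex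
            obtain ⟨q, hq, hq'⟩ := hL.h1
            obtain ⟨r, hr, hr'⟩ := hL.h2
            rw [h3] at hq hr
            simp only [List.head?_cons, Option.some.injEq, List.getLast?_singleton] at hq hr
            subst hq hr
            have hout := hM'.outer (p := p) (fun hh => hL.out p hp ((hin p).1 hh)) hq'.symm hr'.symm
            simp only [List.mem_cons, List.mem_append] at hz
            rcases hz with rfl | hz | rfl | hz
            · left; exact ⟨rfl, by rw [h3]; simp⟩
            · exfalso
              obtain ⟨c, rfl⟩ : ∃ c, m1 = [c] := by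
                rcases m1 with _ | ⟨c, _ | ⟨d, m1⟩⟩
                · simp at hz
                · exact ⟨c, rfl⟩
                · simp at hout
              simp only [List.mem_cons, List.not_mem_nil, or_false] at hz
              subst hz
              simp only [List.cons_append, List.nil_append, List.head?_cons, Option.some.injEq] at g1
              subst g1
              exact ht' p z1 z hq'.symm hpz g4
            · right; exact ⟨rfl, by rw [h3]; simp⟩
            · exfalso
              obtain ⟨c, rfl⟩ : ∃ c, m2 = [c] := by
                rcases m2 with _ | ⟨c, _ | ⟨d, m2⟩⟩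
                · simp at hz
                · exact ⟨c, rfl⟩
                · simp at hout
              simp only [List.mem_cons, List.not_mem_nil, or_false] at hz
              subst hz
              rw [List.getLast?_append_cons] at g2
              simp only [List.getLast?_cons_cons, List.getLast?_singleton, Option.some.injEq] at g2
              subst g2
              exact ht' p z1 z hq'.symm hpz g5
        · rintro (⟨rfl, h3⟩ | ⟨rfl, h3⟩)
          · obtain ⟨q, hq, hq'⟩ := hL.h1
            rw [h3] at hq
            simp only [Option.some.injEq] at hq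
            subst hq; exact hq'.symm
          · obtain ⟨q, hq, hq'⟩ := hL.h2
            rw [h3] at hq
            simp only [Option.some.injEq] at hq
            subst hq; exact hq'.symm
      -- adjacency on the cycle
      have hcad : ∀ u ∈ z1 :: (m1 ++ z2 :: m2), ∀ v ∈ z1 :: (m1 ++ z2 :: m2),
          (G.Adj u v ↔ Con (z1 :: (m1 ++ [z2])) u v ∨ Con (z1 :: (m2.reverse ++ [z2])) u v) := by
        intro u hu v hv
        rw [hM'.cadj hu hv]
        have e3 : z1 :: ((m1 ++ z2 :: m2) ++ [z1]) = (z1 :: m1) ++ z2 :: (m2 ++ [z1]) := by simp
        have e4 : z1 :: (m2.reverse ++ [z2]) = (z2 :: (m2 ++ [z1])).reverse := by simp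
        rw [e3, con_split, e4, con_rev]
        rfl
      rw [List.nodup_append, List.nodup_cons] at hnd
      obtain ⟨n1, ⟨n2, n3⟩, n4⟩ := hnd
      simp only [List.mem_append, List.mem_cons, not_or] at hnx
      have hnd' : (z1 :: z2 :: (m1 ++ m2.reverse)).Nodup := by
        rw [List.nodup_cons, List.nodup_cons, List.nodup_append]
        refine ⟨?_, ?_, n1, List.nodup_reverse.2 n3, ?_⟩
        · simp only [List.mem_cons, List.mem_append, List.mem_reverse, not_or]
          exact ⟨hnx.2.1, hnx.1, hnx.2.2⟩
        · simp only [List.mem_append, List.mem_reverse, not_or]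
          exact ⟨fun hh => n4 z2 hh z2 (by simp) rfl, n2⟩
        · intro a ha b hb
          rw [List.mem_reverse] at hb
          exact n4 a ha b (by simp [hb])
      have hset : ∀ z, z ∈ z1 :: z2 :: (m1 ++ m2.reverse) ↔ z ∈ z1 :: (m1 ++ z2 :: m2) := by
        intro z
        simp only [List.mem_cons, List.mem_append, List.mem_reverse]
        tauto
      have hset' : ∀ z, z ∈ z1 :: z2 :: (m2.reverse ++ m1) ↔ z ∈ z1 :: (m1 ++ z2 :: m2) := by
        intro z
        simp only [List.mem_cons, List.mem_append, List.mem_reverse]
        tauto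
      by_cases hm2 : m2 = []
      · have hm1 : m1 ≠ [] := by
          rintro rfl
          subst hm2
          simp at hlen
          omega
        have hTh : Theta G z1 z2 m2.reverse m1 L := by
          refine theta_of ?_ hm1 ?_ hL.ind hL.ne_nil ?_ ?_
          · subst hm2
            simpa using hnd'
          · intro u hu v hv
            rw [hset'] at hu hv
            rw [hcad u hu v hv, or_comm]
          · intro p hp hps
            rw [hset', hin] at hps
            exact hL.out p hp hps
          · intro p hp z hz
            rw [hset'] at hz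
            exact hatt p hp z hz
        exact hD hTh.itm
      · have hTh : Theta G z1 z2 m1 m2.reverse L := by
          refine theta_of hnd' (by simpa using hm2) ?_ hL.ind hL.ne_nil ?_ ?_
          · intro u hu v hv
            rw [hset] at hu hv
            exact hcad u hu v hv
          · intro p hp hps
            rw [hset, hin] at hps
            exact hL.out p hp hps
          · intro p hp z hz
            rw [hset] at hz
            exact hatt p hp z hz
        exact hD hTh.itm

end Pool.Agent.N415.ITM
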