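import Pool.Agent.H175R2.Cut

/-! A family of graphs of unbounded clique-width and maximum degree three in which every vertex
lies in exactly one triangle and has at most one neighbour outside this triangle. -/

namespace Pool.Agent.N415.ITM

open Pool.Agent.H175R2 Pool.Agent.H175R2.CutAux

/-- The cells `(i, j)` have the two triangles `0 1 2` and `3 4 5` joined by the edge `2 3`; there
are the edges `(i, j, 1) (i, j + 1, 0)` and `(i, j, 5) (i + 1, j, 4)`. -/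
def triGrid (n : ℕ) : SimpleGraph (Fin n × Fin n × Fin 6) :=
  SimpleGraph.fromRel (fun x y =>
    (x.1 = y.1 ∧ x.2.1 = y.2.1 ∧ (x.2.2.val / 3 = y.2.2.val / 3 ∨ x.2.2 = 2 ∧ y.2.2 = 3)) ∨
    (x.1 = y.1 ∧ x.2.1.val + 1 = y.2.1.val ∧ x.2.2 = 1 ∧ y.2.2 = 0) ∨
    (x.1.val + 1 = y.1.val ∧ x.2.1 = y.2.1 ∧ x.2.2 = 5 ∧ y.2.2 = 4))

/-- same triangle -/
def Tri {n : ℕ} (x y : Fin n × Fin n × Fin 6) : Prop :=
  x.1 = y.1 ∧ x.2.1 = y.2.1 ∧ x.2.2.val / 3 = y.2.2.val / 3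

/-- the partner relation, oriented -/
def Par0 {n : ℕ} (x y : Fin n × Fin n × Fin 6) : Prop :=
  (x.1 = y.1 ∧ x.2.1 = y.2.1 ∧ x.2.2 = 2 ∧ y.2.2 = 3) ∨
  (x.1 = y.1 ∧ x.2.1.val + 1 = y.2.1.val ∧ x.2.2 = 1 ∧ y.2.2 = 0) ∨
  (x.1.val + 1 = y.1.val ∧ x.2.1 = y.2.1 ∧ x.2.2 = 5 ∧ y.2.2 = 4)

/-- the partner relation -/
def Par {n : ℕ} (x y : Fin n × Fin n × Fin 6) : Prop := Par0 x y ∨ Par0 y x

variable {n : ℕ} {x y z w : Fin n × Fin n × Fin 6}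

lemma Tri.symm (h : Tri x y) : Tri y x := ⟨h.1.symm, h.2.1.symm, h.2.2.symm⟩

lemma Tri.trans (h : Tri x y) (h' : Tri y z) : Tri x z :=
  ⟨h.1.trans h'.1, h.2.1.trans h'.2.1, h.2.2.trans h'.2.2⟩

lemma Par.symm (h : Par x y) : Par y x := Or.symm h

lemma Par.ne (h : Par x y) : x ≠ y := by
  rintro rfl
  rcases h with (⟨_, _, h1, h2⟩ | ⟨_, _, h1, h2⟩ | ⟨_, _, h1, h2⟩) |
    (⟨_, _, h1, h2⟩ | ⟨_, _, h1, h2⟩ | ⟨_, _, h1, h2⟩) <;>
  · rw [h1] at h2; exact absurd h2 (by decide)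

lemma triGrid_adj : (triGrid n).Adj x y ↔ (x ≠ y ∧ Tri x y) ∨ Par x y := by
  simp only [triGrid, SimpleGraph.fromRel_adj]
  constructor
  · rintro ⟨hne, (⟨h1, h2, h3 | h3⟩ | h | h) | (⟨h1, h2, h3 | h3⟩ | h | h)⟩
    · exact Or.inl ⟨hne, h1, h2, h3⟩
    · exact Or.inr (Or.inl (Or.inl ⟨h1, h2, h3⟩))
    · exact Or.inr (Or.inl (Or.inr (Or.inl h)))
    · exact Or.inr (Or.inl (Or.inr (Or.inr h)))
    · exact Or.inl ⟨hne, h1.symm, h2.symm, h3.symm⟩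
    · exact Or.inr (Or.inr (Or.inl ⟨h1, h2, h3⟩))
    · exact Or.inr (Or.inr (Or.inr (Or.inl h)))
    · exact Or.inr (Or.inr (Or.inr (Or.inr h)))
  · rintro (⟨hne, h1, h2, h3⟩ | h)
    · exact ⟨hne, Or.inl (Or.inl ⟨h1, h2, Or.inl h3⟩)⟩
    · refine ⟨h.ne, ?_⟩
      rcases h with (⟨h1, h2, h3⟩ | h | h) | (⟨h1, h2, h3⟩ | h | h)
      · exact Or.inl (Or.inl ⟨h1, h2, Or.inr h3⟩)
      · exact Or.inl (Or.inr (Or.inl h))
      · exact Or.inl (Or.inr (Or.inr h))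
      · exact Or.inr (Or.inl ⟨h1, h2, Or.inr h3⟩)
      · exact Or.inr (Or.inr (Or.inl h))
      · exact Or.inr (Or.inr (Or.inr h))

lemma Par.not_tri (h : Par x y) : ¬ Tri x y := by
  rintro ⟨e1, e2, e3⟩
  rcases h with (⟨_, _, h1, h2⟩ | ⟨_, h0, h1, h2⟩ | ⟨h0, _, h1, h2⟩) |
    (⟨_, _, h1, h2⟩ | ⟨_, h0, h1, h2⟩ | ⟨h0, _, h1, h2⟩)
  · rw [h1, h2] at e3; exact absurd e3 (by decide)
  · rw [e2] at h0; omega
  · rw [e1] at h0; omega
  · rw [h1, h2] at e3; exact absurd e3 (by decide)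
  · rw [e2] at h0; omega
  · rw [e1] at h0; omega

lemma Par.unique (h : Par x y) (h' : Par x z) : y = z := by
  obtain ⟨x1, x2, x3⟩ := x
  obtain ⟨y1, y2, y3⟩ := y
  obtain ⟨z1, z2, z3⟩ := z
  simp only [Par, Par0] at h h'
  have key : ∀ {a b : Fin n}, a.val = b.val → a = b := fun h => Fin.ext h
  rcases h with (⟨a1, a2, a3, a4⟩ | ⟨a1, a2, a3, a4⟩ | ⟨a1, a2, a3, a4⟩) |
    (⟨a1, a2, a3, a4⟩ | ⟨a1, a2, a3, a4⟩ | ⟨a1, a2, a3, a4⟩) <;>
  rcases h' with (⟨b1, b2, b3, b4⟩ | ⟨b1, b2, b3, b4⟩ | ⟨b1, b2, b3, b4⟩) |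
    (⟨b1, b2, b3, b4⟩ | ⟨b1, b2, b3, b4⟩ | ⟨b1, b2, b3, b4⟩) <;>
  first
  | (exfalso; revert a3 b3; clear * -; intro a3 b3; rw [a3] at b3; exact absurd b3 (by decide))
  | (exfalso; revert a3 b4; clear * -; intro a3 b4; rw [a3] at b4; exact absurd b4 (by decide))
  | (exfalso; revert a4 b3; clear * -; intro a4 b3; rw [a4] at b3; exact absurd b3 (by decide))
  | (exfalso; revert a4 b4; clear * -; intro a4 b4; rw [a4] at b4; exact absurd b4 (by decide))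
  | (simp only [Prod.mk.injEq]
     refine ⟨?_, ?_, ?_⟩
     · first | exact a1.symm.trans b1 | exact a1.trans b1.symm | exact key (by omega)
     · first | exact a2.symm.trans b2 | exact a2.trans b2.symm | exact key (by omega)
     · first | exact a4.trans b4.symm | exact a3.trans b3.symm)

/-- neighbours of a vertex: a partner is adjacent to no mate -/
lemma Par.not_adj (h : Par x y) (h1 : Tri x z) (h2 : x ≠ z) : ¬ (triGrid n).Adj y z := by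
  rw [triGrid_adj]
  rintro (⟨_, h3⟩ | h3)
  · exact h.not_tri (h1.trans h3.symm)
  · exact h2 (h.symm.unique h3)

lemma tri_card (h1 : Tri x y) (h2 : Tri x z) (h3 : Tri x w) (n1 : x ≠ y) (n2 : x ≠ z) (n3 : x ≠ w)
    (n4 : y ≠ z) (n5 : y ≠ w) (n6 : z ≠ w) : False := by
  obtain ⟨x1, x2, x3⟩ := x
  obtain ⟨y1, y2, y3⟩ := y
  obtain ⟨z1, z2, z3⟩ := z
  obtain ⟨w1, w2, w3⟩ := w
  obtain ⟨a1, a2, a3⟩ := h1
  obtain ⟨b1, b2, b3⟩ := h2
  obtain ⟨c1, c2, c3⟩ := h3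
  simp only at a1 a2 a3 b1 b2 b3 c1 c2 c3
  subst a1 a2 b1 b2 c1 c2
  simp only [ne_eq, Prod.mk.injEq, true_and] at n1 n2 n3 n4 n5 n6
  rw [← ne_eq, ← Fin.val_ne_iff] at n1 n2 n3 n4 n5 n6
  have := x3.isLt
  have := y3.isLt
  have := z3.isLt
  have := w3.isLt
  omega

/-- among three neighbours two are adjacent -/
lemma no_claw (h1 : (triGrid n).Adj x y) (h2 : (triGrid n).Adj x z) (h3 : (triGrid n).Adj x w)
    (n1 : y ≠ z) (n2 : y ≠ w) (n3 : z ≠ w) :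
    (triGrid n).Adj y z ∨ (triGrid n).Adj y w ∨ (triGrid n).Adj z w := by
  have key : ∀ {y z : Fin n × Fin n × Fin 6}, Tri x y → Tri x z → y ≠ z → (triGrid n).Adj y z :=
    fun h h' hne => triGrid_adj.2 (Or.inl ⟨hne, h.symm.trans h'⟩)
  rw [triGrid_adj] at h1 h2 h3
  rcases h1 with ⟨_, h1⟩ | h1
  · rcases h2 with ⟨_, h2⟩ | h2
    · exact Or.inl (key h1 h2 n1)
    · rcases h3 with ⟨_, h3⟩ | h3
      · exact Or.inr (Or.inl (key h1 h3 n2))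
      · exact absurd (h2.unique h3) n3
  · rcases h2 with ⟨_, h2⟩ | h2
    · rcases h3 with ⟨_, h3⟩ | h3
      · exact Or.inr (Or.inr (key h2 h3 n3))
      · exact absurd (h1.unique h3) n2
    · exact absurd (h1.unique h2) n1

/-- maximum degree three -/
lemma no_deg_four {u : Fin n × Fin n × Fin 6} (h1 : (triGrid n).Adj x y) (h2 : (triGrid n).Adj x z)
    (h3 : (triGrid n).Adj x w) (h4 : (triGrid n).Adj x u)
    (n1 : y ≠ z) (n2 : y ≠ w) (n3 : z ≠ w) (n4 : y ≠ u) (n5 : z ≠ u) (n6 : w ≠ u) : False := by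
  rw [triGrid_adj] at h1 h2 h3 h4
  rcases h1 with ⟨e1, h1⟩ | h1 <;> rcases h2 with ⟨e2, h2⟩ | h2 <;>
    rcases h3 with ⟨e3, h3⟩ | h3 <;> rcases h4 with ⟨e4, h4⟩ | h4 <;>
  first
  | exact n1 (h1.unique h2)
  | exact n2 (h1.unique h3)
  | exact n3 (h2.unique h3)
  | exact n4 (h1.unique h4)
  | exact n5 (h2.unique h4)
  | exact n6 (h3.unique h4)
  | exact tri_card h1 h2 h3 e1 e2 e3 n1 n2 n3
  | exact tri_card h1 h2 h4 e1 e2 e4 n1 n4 n5
  | exact tri_card h1 h3 h4 e1 e3 e4 n2 n4 n6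
  | exact tri_card h2 h3 h4 e2 e3 e4 n3 n5 n6

/-- an edge lies in at most one triangle -/
lemma no_diamond (h : (triGrid n).Adj x y) (h1 : (triGrid n).Adj x z) (h2 : (triGrid n).Adj y z)
    (h3 : (triGrid n).Adj x w) (h4 : (triGrid n).Adj y w) : z = w := by
  have key : ∀ {x y z : Fin n × Fin n × Fin 6}, (triGrid n).Adj x y → (triGrid n).Adj x z →
      (triGrid n).Adj y z → Tri x y := by
    intro x y z h h1 h2
    have h' := h
    rw [triGrid_adj] at h'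
    rcases h' with ⟨_, h'⟩ | h'
    · exact h'
    · exfalso
      have h1' := h1
      rw [triGrid_adj] at h1'
      rcases h1' with ⟨_, h3⟩ | h3
      · exact h'.not_adj h3 h1.ne h2
      · exact h2.ne (h'.unique h3)
  by_contra hne
  exact tri_card (key h h1 h2) (key h1 h h2.symm) (key h3 h h4.symm) h.ne h1.ne h3.ne h2.ne h4.ne hne

end Pool.Agent.N415.ITM
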