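import Pool.Agent.N415.ITM.Basic
import Pool.Agent.N415.ITM.TriGrid

/-! Which graphs are not induced topological minors of the members of the families. -/

namespace Pool.Agent.N415.ITM

open Pool.Agent.H175R2

variable {W : Type} {H : SimpleGraph W}

lemma cobip_adj {n : ℕ} {x y : Fin n ⊕ (Fin n × Fin n)} (hne : x ≠ y)
    (h : (∃ a b, x = .inl a ∧ y = .inl b) ∨ (∃ a b, x = .inr a ∧ y = .inr b)) :
    (famCobip n).Adj x y := by
  simp only [famCobip, SimpleGraph.fromRel_adj]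
  rcases h with ⟨a, b, rfl, rfl⟩ | ⟨a, b, rfl, rfl⟩
  · exact ⟨hne, Or.inl (Or.inl ⟨a, b, rfl, rfl⟩)⟩
  · exact ⟨hne, Or.inl (Or.inr (Or.inl ⟨a, b, rfl, rfl⟩))⟩

/-- `3P₁` -/
lemma excl_3P1 {n : ℕ} {f : W → _} {P : W → W → List _} (h : TM H (famCobip n) f P) {a b c : W}
    (n1 : a ≠ b) (n2 : a ≠ c) (n3 : b ≠ c) (h1 : ¬ H.Adj a b) (h2 : ¬ H.Adj a c)
    (h3 : ¬ H.Adj b c) : False := by
  have key : ∀ {a b : W}, a ≠ b → ¬ H.Adj a b →
      ((∃ u v, f a = .inl u ∧ f b = .inl v) ∨ (∃ u v, f a = .inr u ∧ f b = .inr v)) → False :=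
    fun hne hn hs => hn (h.branch (cobip_adj (fun he => hne (h.inj he)) hs))
  rcases ha : f a with u | u <;> rcases hb : f b with v | v <;> rcases hc : f c with w | w
  · exact key n1 h1 (Or.inl ⟨u, v, ha, hb⟩)
  · exact key n1 h1 (Or.inl ⟨u, v, ha, hb⟩)
  · exact key n2 h2 (Or.inl ⟨u, w, ha, hc⟩)
  · exact key n3 h3 (Or.inr ⟨v, w, hb, hc⟩)
  · exact key n3 h3 (Or.inl ⟨v, w, hb, hc⟩)
  · exact key n2 h2 (Or.inr ⟨u, w, ha, hc⟩)
  · exact key n1 h1 (Or.inr ⟨u, v, ha, hb⟩)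
  · exact key n1 h1 (Or.inr ⟨u, v, ha, hb⟩)

lemma split_adj {n : ℕ} {x y : Fin n ⊕ (Fin n × Fin n)} (hne : x ≠ y)
    (hx : ∃ a, x = .inl a) (hy : ∃ b, y = .inl b) : (famSplit n).Adj x y := by
  simp only [famSplit, SimpleGraph.fromRel_adj]
  obtain ⟨a, rfl⟩ := hx
  obtain ⟨b, rfl⟩ := hy
  exact ⟨hne, Or.inl (Or.inl ⟨a, b, rfl, rfl⟩)⟩

lemma split_indep {n : ℕ} {x y : Fin n ⊕ (Fin n × Fin n)} (h : (famSplit n).Adj x y) :
    (∃ a, x = .inl a) ∨ ∃ b, y = .inl b := by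
  simp only [famSplit, SimpleGraph.fromRel_adj] at h
  rcases h with ⟨_, (⟨a, b, h1, h2⟩ | ⟨a, p, h1, h2, _⟩) | (⟨a, b, h1, h2⟩ | ⟨a, p, h1, h2, _⟩)⟩
  · exact Or.inl ⟨a, h1⟩
  · exact Or.inl ⟨a, h1⟩
  · exact Or.inl ⟨b, h2⟩
  · exact Or.inr ⟨a, h1⟩

lemma On.memQ {V : Type} {f : W → V} {P : W → W → List V} {a b : W} {x : V} (h : On f P a b x) :
    x ∈ Q f P a b := by
  rw [mem_Q]; rcases h with h | h
  · exact Or.inr (Or.inl h)
  · exact Or.inr (Or.inr h)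

/-- `2P₂` -/
lemma excl_2P2 {n : ℕ} {f : W → _} {P : W → W → List _} (h : TM H (famSplit n) f P) {a b c d : W}
    (n1 : a ≠ c) (n2 : a ≠ d) (n3 : b ≠ c) (n4 : b ≠ d) (hab : H.Adj a b) (hcd : H.Adj c d)
    (h1 : ¬ H.Adj a c) (h2 : ¬ H.Adj a d) (h3 : ¬ H.Adj b c) (h4 : ¬ H.Adj b d) : False := by
  obtain ⟨x, hx, hx'⟩ := h.exists_next hab
  obtain ⟨y, hy, hy'⟩ := h.exists_next hcd
  obtain ⟨u, hu, hu'⟩ : ∃ u ∈ Q f P a b, ∃ i, u = .inl i := by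
    rcases split_indep hx with hk | hk
    · exact ⟨f a, by simp [mem_Q], hk⟩
    · exact ⟨x, hx'.memQ, hk⟩
  obtain ⟨v, hv, hv'⟩ : ∃ v ∈ Q f P c d, ∃ i, v = .inl i := by
    rcases split_indep hy with hk | hk
    · exact ⟨f c, by simp [mem_Q], hk⟩
    · exact ⟨y, hy'.memQ, hk⟩
  have hne := h.far hab hcd n1 n2 n3 n4 hu hv
  have := h.far_adj hab hcd n1 n2 n3 n4 hu hv (split_adj hne hu' hv')
  tauto

/-- `C₄` and `C₅` -/
lemma excl_hole {n : ℕ} {f : W → _} {P : W → W → List _} (h : TM H (famSplit n) f P)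
    {a b c a' b' c' : W} (hab : H.Adj a b) (hac : H.Adj a c) (hbc : ¬ H.Adj b c) (nbc : b ≠ c)
    (hab' : H.Adj a' b') (hac' : H.Adj a' c') (hbc' : ¬ H.Adj b' c') (nbc' : b' ≠ c')
    (haa : a ≠ a') (hna : ¬ H.Adj a a') : False := by
  have key : ∀ {a b c : W}, H.Adj a b → H.Adj a c → ¬ H.Adj b c → b ≠ c → ∃ i, f a = .inl i := by
    intro a b c hab hac hbc nbc
    by_contra hcon
    obtain ⟨x, hx, hx'⟩ := h.exists_next hab
    obtain ⟨y, hy, hy'⟩ := h.exists_next hac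
    have h1 := (split_indep hx).resolve_left hcon
    have h2 := (split_indep hy).resolve_left hcon
    have hne := h.on_ne hab hac nbc hx' hy'
    have hadj := split_adj hne h1 h2
    obtain ⟨e1, e2⟩ := h.on_adj hab hac nbc hx' hy' hadj
    rw [e1, e2] at hadj
    exact hbc (h.branch hadj)
  exact hna (h.branch (split_adj (fun he => haa (h.inj he)) (key hab hac hbc nbc)
    (key hab' hac' hbc' nbc')))

/-- a vertex of degree four, e.g. in the gem -/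
lemma excl_deg {n : ℕ} {f : W → _} {P : W → W → List _} (h : TM H (triGrid n) f P)
    {x a b c d : W} (h1 : H.Adj x a) (h2 : H.Adj x b) (h3 : H.Adj x c) (h4 : H.Adj x d)
    (n1 : a ≠ b) (n2 : a ≠ c) (n3 : b ≠ c) (n4 : a ≠ d) (n5 : b ≠ d) (n6 : c ≠ d) : False := by
  obtain ⟨x1, y1, z1⟩ := h.exists_next h1
  obtain ⟨x2, y2, z2⟩ := h.exists_next h2
  obtain ⟨x3, y3, z3⟩ := h.exists_next h3
  obtain ⟨x4, y4, z4⟩ := h.exists_next h4
  exact no_deg_four y1 y2 y3 y4 (h.on_ne h1 h2 n1 z1 z2) (h.on_ne h1 h3 n2 z1 z3)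
    (h.on_ne h2 h3 n3 z2 z3) (h.on_ne h1 h4 n4 z1 z4) (h.on_ne h2 h4 n5 z2 z4)
    (h.on_ne h3 h4 n6 z3 z4)

/-- a branch vertex with three neighbours lies in a triangle of branch vertices -/
lemma tri_of_deg {n : ℕ} {f : W → _} {P : W → W → List _} (h : TM H (triGrid n) f P)
    {x a b c : W} (h1 : H.Adj x a) (h2 : H.Adj x b) (h3 : H.Adj x c)
    (n1 : a ≠ b) (n2 : a ≠ c) (n3 : b ≠ c) :
    ((triGrid n).Adj (f x) (f a) ∧ (triGrid n).Adj (f x) (f b) ∧ (triGrid n).Adj (f a) (f b)) ∨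
    ((triGrid n).Adj (f x) (f a) ∧ (triGrid n).Adj (f x) (f c) ∧ (triGrid n).Adj (f a) (f c)) ∨
    ((triGrid n).Adj (f x) (f b) ∧ (triGrid n).Adj (f x) (f c) ∧ (triGrid n).Adj (f b) (f c)) := by
  obtain ⟨x1, y1, z1⟩ := h.exists_next h1
  obtain ⟨x2, y2, z2⟩ := h.exists_next h2
  obtain ⟨x3, y3, z3⟩ := h.exists_next h3
  rcases no_claw y1 y2 y3 (h.on_ne h1 h2 n1 z1 z2) (h.on_ne h1 h3 n2 z1 z3)
    (h.on_ne h2 h3 n3 z2 z3) with e | e | e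
  · obtain ⟨rfl, rfl⟩ := h.on_adj h1 h2 n1 z1 z2 e
    exact Or.inl ⟨y1, y2, e⟩
  · obtain ⟨rfl, rfl⟩ := h.on_adj h1 h3 n2 z1 z3 e
    exact Or.inr (Or.inl ⟨y1, y3, e⟩)
  · obtain ⟨rfl, rfl⟩ := h.on_adj h2 h3 n3 z2 z3 e
    exact Or.inr (Or.inr ⟨y2, y3, e⟩)

/-- `K₄` -/
lemma excl_K4 {n : ℕ} {f : W → _} {P : W → W → List _} (h : TM H (triGrid n) f P)
    {a b c d : W} (h1 : H.Adj a b) (h2 : H.Adj a c) (h3 : H.Adj a d) (h4 : H.Adj b c)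
    (h5 : H.Adj b d) (h6 : H.Adj c d) : False := by
  have ne : ∀ {x y : W}, H.Adj x y → f x ≠ f y := fun hxy he => hxy.ne (h.inj he)
  have ta := tri_of_deg h h1 h2 h3 h4.ne h5.ne h6.ne
  have tb := tri_of_deg h h1.symm h4 h5 h2.ne h3.ne h6.ne
  have tc := tri_of_deg h h2.symm h4.symm h6 h1.ne h3.ne h5.ne
  have td := tri_of_deg h h3.symm h5.symm h6.symm h1.ne h2.ne h4.ne
  -- an edge in two triangles
  have key : ∀ {x y z w : W}, H.Adj z w → (triGrid n).Adj (f x) (f y) → (triGrid n).Adj (f x) (f z) →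
      (triGrid n).Adj (f y) (f z) → (triGrid n).Adj (f x) (f w) → (triGrid n).Adj (f y) (f w) →
      False := fun hzw a1 a2 a3 a4 a5 => ne hzw (no_diamond a1 a2 a3 a4 a5)
  rcases ta with ⟨p1, p2, p3⟩ | ⟨p1, p2, p3⟩ | ⟨p1, p2, p3⟩
  · -- triangle abc; use d
    rcases td with ⟨q1, q2, q3⟩ | ⟨q1, q2, q3⟩ | ⟨q1, q2, q3⟩
    · exact key h6 p1 p2 p3 q1.symm q2.symm
    · exact key h5 p2 p1 p3.symm q1.symm q2.symm
    · exact key h3 p3 p1.symm p2.symm q1.symm q2.symm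
  · -- triangle abd; use c
    rcases tc with ⟨q1, q2, q3⟩ | ⟨q1, q2, q3⟩ | ⟨q1, q2, q3⟩
    · exact key h6.symm p1 p2 p3 q1.symm q2.symm
    · exact key h4 p2 p1 p3.symm q1.symm q2.symm
    · exact key h2 p3 p1.symm p2.symm q1.symm q2.symm
  · -- triangle acd; use b
    rcases tb with ⟨q1, q2, q3⟩ | ⟨q1, q2, q3⟩ | ⟨q1, q2, q3⟩
    · exact key h5.symm p1 p2 p3 q1.symm q2.symm
    · exact key h4.symm p2 p1 p3.symm q1.symm q2.symm
    · exact key h1 p3 p1.symm p2.symm q1.symm q2.symm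

lemma trunc_adj {n : ℕ} {x y : {p : Fin n × Fin n // p.1 ≠ p.2}} :
    (famTrunc n).Adj x y ↔ x ≠ y ∧ ¬ (x.1.1 = y.1.1 ∨ (x.1.1 = y.1.2 ∧ x.1.2 = y.1.1)) := by
  simp only [famTrunc, SimpleGraph.fromRel_adj]
  constructor
  · rintro ⟨h1, h2 | h2⟩
    · exact ⟨h1, h2⟩
    · refine ⟨h1, fun h3 => h2 ?_⟩
      rcases h3 with h3 | ⟨h3, h4⟩
      · exact Or.inl h3.symm
      · exact Or.inr ⟨h4.symm, h3.symm⟩
  · rintro ⟨h1, h2⟩
    exact ⟨h1, Or.inl h2⟩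

/-- `K₃ + P₁` -/
lemma excl_K3P1 {n : ℕ} {f : W → _} {P : W → W → List _} (h : TM H (famTrunc n) f P)
    {a b c d : W} (h1 : H.Adj a b) (h2 : H.Adj a c) (h3 : H.Adj b c) (n1 : a ≠ d) (n2 : b ≠ d)
    (n3 : c ≠ d) (h4 : ¬ H.Adj a d) (h5 : ¬ H.Adj b d) (h6 : ¬ H.Adj c d) : False := by
  -- the vertices of the cycle are not adjacent to `f d`
  have far : ∀ {a b : W} {x : _}, H.Adj a b → a ≠ d → b ≠ d → ¬ H.Adj a d → ¬ H.Adj b d →
      x ∈ Q f P a b → x.1.1 = (f d).1.1 ∨ (x.1.1 = (f d).1.2 ∧ x.1.2 = (f d).1.1) := by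
    intro a b x hab m1 m2 m3 m4 hx
    by_contra hcon
    have hadj : (famTrunc n).Adj x (f d) :=
      trunc_adj.2 ⟨h.ne_branch hab m1 m2 hx, hcon⟩
    rcases h.branch_adj hab m1 m2 hx hadj with h | h
    · exact m3 h
    · exact m4 h
  -- a vertex with two neighbours is the partner of `f d`
  have cen : ∀ {a b c : W}, H.Adj a b → H.Adj a c → b ≠ c → a ≠ d → b ≠ d → c ≠ d → ¬ H.Adj a d →
      ¬ H.Adj b d → ¬ H.Adj c d → (f a).1.1 = (f d).1.2 ∧ (f a).1.2 = (f d).1.1 := by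
    intro a b c hab hac hbc m1 m2 m3 m4 m5 m6
    obtain ⟨x, hx, hx'⟩ := h.exists_next hab
    obtain ⟨y, hy, hy'⟩ := h.exists_next hac
    have e1 := far hab m1 m2 m4 m5 (x := f a) (by simp [mem_Q])
    have e2 := far hab m1 m2 m4 m5 hx'.memQ
    have e3 := far hac m1 m3 m4 m6 hy'.memQ
    have e4 := h.on_ne hab hac hbc hx' hy'
    rcases e1 with e1 | e1
    · exfalso
      rw [trunc_adj] at hx hy
      rcases e2 with e2 | e2
      · exact hx.2 (Or.inl (e1.trans e2.symm))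
      · rcases e3 with e3 | e3
        · exact hy.2 (Or.inl (e1.trans e3.symm))
        · exact e4 (Subtype.ext (Prod.ext (e2.1.trans e3.1.symm) (e2.2.trans e3.2.symm)))
    · exact e1
  have c1 := cen h1 h2 h3.ne n1 n2 n3 h4 h5 h6
  have c2 := cen h1.symm h3 h2.ne n2 n1 n3 h5 h4 h6
  exact h1.ne (h.inj (Subtype.ext (Prod.ext (c1.1.trans c2.1.symm) (c1.2.trans c2.2.symm))))

end Pool.Agent.N415.ITM
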