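import Pool.Agent.N415.ITM.Basic

/-! Lists and certificates. -/

namespace Pool.Agent.N415.ITM

variable {V : Type}

/-- consecutive in `l`, in one of the two orders -/
def Con (l : List V) (u v : V) : Prop := [u, v] <:+: l ∨ [v, u] <:+: l

lemma Con.symm {l : List V} {u v : V} (h : Con l u v) : Con l v u := Or.symm h

lemma con_comm {l : List V} {u v : V} : Con l u v ↔ Con l v u := ⟨Con.symm, Con.symm⟩

lemma infix_rev {l : List V} {u v : V} : [u, v] <:+: l.reverse ↔ [v, u] <:+: l := by
  have := List.reverse_infix (l₁ := [v, u]) (l₂ := l)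
  simpa using this

lemma con_rev {l : List V} {u v : V} : Con l.reverse u v ↔ Con l u v := by
  unfold Con; rw [infix_rev, infix_rev]; tauto

lemma infix_nil {u v : V} : ¬ [u, v] <:+: ([] : List V) := by
  simp

lemma infix_single {u v a : V} : ¬ [u, v] <:+: [a] := by
  rintro ⟨s, t, h⟩
  have := congrArg List.length h
  simp at this; omega

lemma infix_cc {u v a b : V} {l : List V} :
    [u, v] <:+: a :: b :: l ↔ (u = a ∧ v = b) ∨ [u, v] <:+: b :: l := by
  constructor
  · rintro ⟨s, t, h⟩
    rcases s with _ | ⟨c, s⟩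
    · simp only [List.nil_append, List.cons_append, List.cons.injEq] at h
      exact Or.inl ⟨h.1, h.2.1⟩
    · right
      simp only [List.cons_append, List.cons.injEq] at h
      exact ⟨s, t, h.2⟩
  · rintro (⟨rfl, rfl⟩ | ⟨s, t, h⟩)
    · exact ⟨[], l, by simp⟩
    · exact ⟨a :: s, t, by simp [← h]⟩

lemma infix_split {u v y : V} {l1 l2 : List V} :
    [u, v] <:+: l1 ++ y :: l2 ↔ [u, v] <:+: l1 ++ [y] ∨ [u, v] <:+: y :: l2 := by
  induction l1 with
  | nil =>
    simp only [List.nil_append]
    constructor
    · exact Or.inr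
    · rintro (h | h)
      · exact absurd h infix_single
      · exact h
  | cons a l1 ih =>
    rcases l1 with _ | ⟨b, l1⟩
    · simp only [List.cons_append, List.nil_append, infix_cc]
      have := infix_single (u := u) (v := v) (a := y)
      tauto
    · simp only [List.cons_append, infix_cc] at ih ⊢
      tauto

lemma con_split {u v y : V} {l1 l2 : List V} :
    Con (l1 ++ y :: l2) u v ↔ Con (l1 ++ [y]) u v ∨ Con (y :: l2) u v := by
  unfold Con
  have h1 := infix_split (u := u) (v := v) (y := y) (l1 := l1) (l2 := l2)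
  have h2 := infix_split (u := v) (v := u) (y := y) (l1 := l1) (l2 := l2)
  tauto

lemma infix_pair {u v a b : V} : [u, v] <:+: [a, b] ↔ u = a ∧ v = b := by
  rw [infix_cc]
  have := infix_single (u := u) (v := v) (a := b)
  tauto

lemma infix_mem2 {u v : V} {l : List V} (h : [u, v] <:+: l) : u ∈ l ∧ v ∈ l := infix_mem h

lemma Con.mem {u v : V} {l : List V} (h : Con l u v) : u ∈ l ∧ v ∈ l := by
  rcases h with h | h
  · exact infix_mem h
  · exact (infix_mem h).symm

/-- consecutive elements of a chain are adjacent -/
lemma chain_con {R : V → V → Prop} {l : List V} (h : l.IsChain R) {u v : V}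
    (hi : [u, v] <:+: l) : R u v := by
  obtain ⟨s, t, rfl⟩ := hi
  rw [List.append_assoc] at h
  have := (List.isChain_append.1 h).2.1
  simp only [List.cons_append, List.nil_append, List.isChain_cons_cons] at this
  exact this.1

/-- the structure of consecutive pairs of `x :: (l ++ [y])` -/
lemma infix_ends {u v x y : V} {l : List V} (hl : l ≠ []) :
    [u, v] <:+: x :: (l ++ [y]) ↔ (u = x ∧ l.head? = some v) ∨ [u, v] <:+: l ∨
      (l.getLast? = some u ∧ v = y) := by
  obtain ⟨a, l', rfl⟩ := List.exists_cons_of_ne_nil hl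
  simp only [List.cons_append, infix_cc, List.head?_cons, Option.some.injEq]
  have key : ∀ (l' : List V) (a : V), [u, v] <:+: a :: (l' ++ [y]) ↔
      [u, v] <:+: a :: l' ∨ ((a :: l').getLast? = some u ∧ v = y) := by
    intro l'
    induction l' with
    | nil =>
      intro a
      simp only [List.nil_append, infix_pair, List.getLast?_singleton, Option.some.injEq]
      have := infix_single (u := u) (v := v) (a := a)
      constructor
      · rintro ⟨rfl, rfl⟩; exact Or.inr ⟨rfl, rfl⟩
      · rintro (h | ⟨rfl, rfl⟩)
        · exact absurd h this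
        · exact ⟨rfl, rfl⟩
    | cons b l' ih =>
      intro a
      simp only [List.cons_append, infix_cc]
      rw [ih b]
      simp only [List.getLast?_cons_cons]
      tauto
  rw [key l' a]
  constructor
  · rintro (⟨rfl, rfl⟩ | h | h)
    · exact Or.inl ⟨rfl, rfl⟩
    · exact Or.inr (Or.inl h)
    · exact Or.inr (Or.inr h)
  · rintro (⟨rfl, rfl⟩ | h | h)
    · exact Or.inl ⟨rfl, rfl⟩
    · exact Or.inr (Or.inl h)
    · exact Or.inr (Or.inr h)

end Pool.Agent.N415.ITM
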