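import Pool.Agent.N415.ITM.TriGrid

/-! The triangle grids have unbounded clique-width. -/

namespace Pool.Agent.N415.ITM

open Pool.Agent.H175R2 Pool.Agent.H175R2.CutAux

/-- swapping rows and columns -/
def sg : Fin 6 → Fin 6 := ![4, 5, 3, 2, 0, 1]

lemma sg_sg : ∀ s, sg (sg s) = s := by decide

lemma sg_div : ∀ s t : Fin 6, ((sg s).val / 3 = (sg t).val / 3 ↔ s.val / 3 = t.val / 3) := by decide

lemma sg_facts : ∀ s : Fin 6, (sg s = 2 ↔ s = 3) ∧ (sg s = 3 ↔ s = 2) ∧ (sg s = 1 ↔ s = 5) ∧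
    (sg s = 0 ↔ s = 4) ∧ (sg s = 5 ↔ s = 1) ∧ (sg s = 4 ↔ s = 0) := by decide

/-- the symmetry as a map -/
def sw {n : ℕ} (p : Fin n × Fin n × Fin 6) : Fin n × Fin n × Fin 6 := (p.2.1, p.1, sg p.2.2)

lemma sw_sw {n : ℕ} (p : Fin n × Fin n × Fin 6) : sw (sw p) = p := by simp [sw, sg_sg]

lemma par0_sw {n : ℕ} {p q : Fin n × Fin n × Fin 6} (h : Par0 p q) : Par (sw p) (sw q) := by
  rcases h with ⟨h1, h2, h3, h4⟩ | ⟨h1, h2, h3, h4⟩ | ⟨h1, h2, h3, h4⟩
  · exact Or.inr (Or.inl ⟨h2.symm, h1.symm, (sg_facts _).1.2 h4, (sg_facts _).2.1.2 h3⟩)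
  · exact Or.inl (Or.inr (Or.inr ⟨h2, h1, (sg_facts _).2.2.2.2.1.2 h3, (sg_facts _).2.2.2.2.2.2 h4⟩))
  · exact Or.inl (Or.inr (Or.inl ⟨h2, h1, (sg_facts _).2.2.1.2 h3, (sg_facts _).2.2.2.1.2 h4⟩)) 

lemma adj_sw {n : ℕ} {p q : Fin n × Fin n × Fin 6} (h : (triGrid n).Adj p q) :
    (triGrid n).Adj (sw p) (sw q) := by
  rw [triGrid_adj] at h ⊢
  rcases h with ⟨hne, h1, h2, h3⟩ | h | h
  · refine Or.inl ⟨fun he => hne ?_, h2, h1, (sg_div _ _).2 h3⟩
    rw [← sw_sw p, he, sw_sw]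
  · exact Or.inr (par0_sw h)
  · exact Or.inr (par0_sw h).symm

/-- the symmetry -/
def swapTri (n : ℕ) : triGrid n ≃g triGrid n where
  toFun := sw
  invFun := sw
  left_inv := sw_sw
  right_inv := sw_sw
  map_rel_iff' := by
    intro p q
    constructor
    · intro h
      have := adj_sw h
      simpa only [Equiv.coe_fn_mk, sw_sw] using this
    · exact adj_sw

open Classical in
/-- mixed rows -/
noncomputable def mix {n : ℕ} (A : Set (Fin n × Fin n × Fin 6)) : Finset (Fin n) :=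
  Finset.univ.filter (fun i => (∃ p, (i, p) ∈ A) ∧ ∃ p, (i, p) ∉ A)

/-- a mixed row contains a boundary edge -/
lemma exists_boundary {n : ℕ} (A : Set (Fin n × Fin n × Fin 6)) (i : Fin n) (h1 : ∃ p, (i, p) ∈ A)
    (h2 : ∃ p, (i, p) ∉ A) : ∃ a b, (i, a) ∈ A ∧ (i, b) ∉ A ∧ (triGrid n).Adj (i, a) (i, b) := by
  by_contra hcon
  push Not at hcon
  have key : ∀ a b, (triGrid n).Adj (i, a) (i, b) → ((i, a) ∈ A ↔ (i, b) ∈ A) := by
    intro a b hab
    constructor
    · intro h; by_contra h'; exact hcon a b h h' hab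
    · intro h; by_contra h'; exact hcon b a h h' hab.symm
  have tri : ∀ (j : Fin n) (s t : Fin 6), s.val / 3 = t.val / 3 →
      ((i, j, s) ∈ A ↔ (i, j, t) ∈ A) := by
    intro j s t hst
    by_cases he : s = t
    · rw [he]
    · apply key
      rw [triGrid_adj]
      refine Or.inl ⟨?_, rfl, rfl, hst⟩
      simpa using he
  have cell : ∀ (j : Fin n) (s : Fin 6), ((i, j, s) ∈ A ↔ (i, j, 0) ∈ A) := by
    intro j s
    have h23 : (i, j, (2 : Fin 6)) ∈ A ↔ (i, j, (3 : Fin 6)) ∈ A := by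
      apply key
      rw [triGrid_adj]
      exact Or.inr (Or.inl (Or.inl ⟨rfl, rfl, rfl, rfl⟩))
    rcases (show s.val / 3 = (0 : Fin 6).val / 3 ∨ s.val / 3 = (3 : Fin 6).val / 3 by
      revert s; decide) with hs | hs
    · exact tri j s 0 hs
    · rw [tri j s 3 hs, ← h23]
      exact tri j 2 0 (by decide)
  have step : ∀ (j : ℕ) (hj : j + 1 < n), ((i, (⟨j, by omega⟩ : Fin n), (0 : Fin 6)) ∈ A ↔
      (i, (⟨j + 1, hj⟩ : Fin n), (0 : Fin 6)) ∈ A) := by
    intro j hj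
    rw [← cell ⟨j, by omega⟩ 1]
    apply key
    rw [triGrid_adj]
    exact Or.inr (Or.inl (Or.inr (Or.inl ⟨rfl, rfl, rfl, rfl⟩)))
  have hall : ∀ (j : ℕ) (hj : j < n), ((i, (⟨j, hj⟩ : Fin n), (0 : Fin 6)) ∈ A ↔
      (i, (⟨0, by omega⟩ : Fin n), (0 : Fin 6)) ∈ A) := by
    intro j
    induction j with
    | zero => intro _; rfl
    | succ j ih =>
      intro hj
      rw [← step j hj]
      exact ih _
  obtain ⟨⟨j, s⟩, ha⟩ := h1
  obtain ⟨⟨j', s'⟩, hb⟩ := h2
  apply hb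
  rw [cell, hall j'.1 j'.2, ← hall j.1 j.2, ← cell _ s]
  exact ha

theorem mix_le {n k : ℕ} (A : Set (Fin n × Fin n × Fin 6)) (h : Types (triGrid n) A k) :
    (mix A).card ≤ 2 * k := by
  classical
  obtain ⟨l, hl⟩ := h
  have hch : ∀ i : Fin n, i ∈ mix A → ∃ a b, (i, a) ∈ A ∧ (i, b) ∉ A ∧
      (triGrid n).Adj (i, a) (i, b) := by
    intro i hi
    simp only [mix, Finset.mem_filter, Finset.mem_univ, true_and] at hi
    exact exists_boundary A i hi.1 hi.2
  have hn : ∀ i : Fin n, i ∈ mix A → ∃ p : (Fin n × Fin 6) × (Fin n × Fin 6),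
      (i, p.1) ∈ A ∧ (i, p.2) ∉ A ∧ (triGrid n).Adj (i, p.1) (i, p.2) := by
    intro i hi
    obtain ⟨a, b, h1, h2, h3⟩ := hch i hi
    exact ⟨(a, b), h1, h2, h3⟩
  by_cases hn0 : n = 0
  · subst hn0
    have : mix A = ∅ := by ext i; exact i.elim0
    rw [this]; simp
  have : Nonempty (Fin n) := ⟨⟨0, by omega⟩⟩
  choose! p ha hb hab using hn
  by_contra hcon
  push Not at hcon
  have hcard : (Finset.univ : Finset (Fin k)).card * 2 < (mix A).card := by
    simp; omega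
  obtain ⟨t, _, ht⟩ := Finset.exists_lt_card_fiber_of_mul_lt_card_of_maps_to
    (f := fun i => l (i, (p i).1)) (s := mix A) (t := Finset.univ) (fun _ _ => Finset.mem_univ _) hcard
  rw [Finset.two_lt_card] at ht
  obtain ⟨x, hx, y, hy, z, hz, hxy, hxz, hyz⟩ := ht
  simp only [Finset.mem_filter] at hx hy hz
  have key : ∀ x y : Fin n, x ∈ mix A → y ∈ mix A → l (x, (p x).1) = l (y, (p y).1) →
      x.val ≤ y.val + 1 := by
    intro x y hx hy hxy
    have h2 := (hl _ (ha x hx) _ (ha y hy) hxy _ (hb x hx)).1 (hab x hx)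
    rw [triGrid_adj] at h2
    rcases h2 with ⟨_, h, _⟩ | (⟨h, _⟩ | ⟨h, _⟩ | ⟨h, _⟩) | (⟨h, _⟩ | ⟨h, _⟩ | ⟨h, _⟩)
    all_goals (simp only at h)
    all_goals first | (rw [h]; omega) | omega
  have k1 := key x y hx.1 hy.1 (hx.2.trans hy.2.symm)
  have k2 := key y x hy.1 hx.1 (hy.2.trans hx.2.symm)
  have k3 := key x z hx.1 hz.1 (hx.2.trans hz.2.symm)
  have k4 := key z x hz.1 hx.1 (hz.2.trans hx.2.symm)
  have k5 := key y z hy.1 hz.1 (hy.2.trans hz.2.symm)
  have k6 := key z y hz.1 hy.1 (hz.2.trans hy.2.symm)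
  have n1 : x.val ≠ y.val := fun h => hxy (Fin.ext h)
  have n2 : x.val ≠ z.val := fun h => hxz (Fin.ext h)
  have n3 : y.val ≠ z.val := fun h => hyz (Fin.ext h)
  omega

/-- if every row meeting `A` is mixed then `A` is small -/
theorem card_le_mix {n : ℕ} (A : Set (Fin n × Fin n × Fin 6)) (h : ∀ i, (∃ p, (i, p) ∈ A) → i ∈ mix A) :
    A.ncard ≤ (mix A).card * (n * 6) := by
  have h1 : A ⊆ ((mix A ×ˢ (Finset.univ : Finset (Fin n × Fin 6)) : Finset _) :
      Set (Fin n × Fin n × Fin 6)) := by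
    rintro ⟨i, p⟩ hip
    simp only [Finset.coe_product, Finset.coe_univ, Set.mem_prod, Finset.mem_coe, Set.mem_univ,
      and_true]
    exact h i ⟨p, hip⟩
  have h2 := Set.ncard_le_ncard h1 (Finset.finite_toSet _)
  rw [Set.ncard_coe_finset, Finset.card_product] at h2
  simpa using h2

theorem mix_compl {n : ℕ} (A : Set (Fin n × Fin n × Fin 6)) : mix Aᶜ = mix A := by
  ext i
  simp only [mix, Finset.mem_filter, Finset.mem_univ, true_and, Set.mem_compl_iff, not_not]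
  tauto

theorem triGrid_unbounded : ∀ c N : ℕ, ∃ n ≥ N, ∀ k ≤ c, ¬ CwLE (triGrid n) k := by
  intro c N
  refine ⟨N + 6 * c + 2, by omega, ?_⟩
  intro k hk hcw
  set n := N + 6 * c + 2 with hn
  have hcard : (Set.univ : Set (Fin n × Fin n × Fin 6)).ncard = n * (n * 6) := by
    rw [Set.ncard_univ]; simp
  obtain ⟨A, hT, h1, h2⟩ := balanced_cut (triGrid n) k hcw Set.univ (by rw [hcard]; nlinarith)
  rw [Set.inter_univ, hcard] at h1 h2
  have hcompl : A.ncard + Aᶜ.ncard = n * (n * 6) := by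
    rw [Set.ncard_add_ncard_compl]; simp
  have hm := mix_le A hT
  have hbig : n ≤ 3 * (mix A).card → False := by
    intro h; omega
  by_cases hfull : ∃ i, ∀ p, (i, p) ∈ A
  · by_cases hempty : ∃ i, ∀ p, (i, p) ∉ A
    · obtain ⟨i, hi⟩ := hfull
      obtain ⟨i', hi'⟩ := hempty
      have hT' : Types (triGrid n) (swapTri n ⁻¹' A) k := Types.iso _ hT
      have hm' := mix_le _ hT'
      have : mix (swapTri n ⁻¹' A) = Finset.univ := by
        ext j
        simp only [mix, Finset.mem_filter, Finset.mem_univ, true_and, iff_true]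
        exact ⟨⟨(i, 0), hi (j, sg 0)⟩, ⟨(i', 0), hi' (j, sg 0)⟩⟩
      rw [this] at hm'
      simp at hm'
      omega
    · push Not at hempty
      have h3 : Aᶜ.ncard ≤ (mix Aᶜ).card * (n * 6) := by
        apply card_le_mix
        rintro i ⟨p, hp⟩
        rw [mix_compl]
        simp only [mix, Finset.mem_filter, Finset.mem_univ, true_and]
        exact ⟨hempty i, p, hp⟩
      rw [mix_compl] at h3
      apply hbig
      have : n * (n * 6) ≤ (3 * (mix A).card) * (n * 6) := by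
        have h4 : (3 * (mix A).card) * (n * 6) = 3 * ((mix A).card * (n * 6)) := by ring
        omega
      exact Nat.le_of_mul_le_mul_right this (by omega)
  · push Not at hfull
    have h3 : A.ncard ≤ (mix A).card * (n * 6) := by
      apply card_le_mix
      rintro i ⟨p, hp⟩
      simp only [mix, Finset.mem_filter, Finset.mem_univ, true_and]
      exact ⟨⟨p, hp⟩, hfull i⟩
    apply hbig
    have : n * (n * 6) ≤ (3 * (mix A).card) * (n * 6) := by
      have h4 : (3 * (mix A).card) * (n * 6) = 3 * ((mix A).card * (n * 6)) := by ring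
      omega
    exact Nat.le_of_mul_le_mul_right this (by omega)

end Pool.Agent.N415.ITM
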