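import Pool.Agent.N415.ITM.Classify
import Pool.Agent.N415.ITM.TriWidth
import Pool.Agent.H175R2.Fam
import Pool.Agent.H175R2.Cw

/-! Necessity. -/

namespace Pool.Agent.N415.ITM

open Pool.Agent.H175R2 SimpleGraph

/-- The graphs without `H` as an induced topological minor have bounded clique-width. -/
def BddITM {W : Type} (H : SimpleGraph W) : Prop :=
  ∃ c : ℕ, ∀ (V : Type) [Finite V] (G : SimpleGraph V), ¬ IsInducedTopMinor H G →
    cliqueWidth G ≤ c

open Finset in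
lemma exists_cwLE {V : Type} [Finite V] [Nonempty V] (G : SimpleGraph V) : ∃ k, CwLE G k := by
  classical
  have : Fintype V := Fintype.ofFinite V
  have ht : Tame G (Fintype.card V) := ⟨univ, by simp, fun x hx => by simp at hx⟩
  exact ⟨_, cwLE_of_dt (dt_of_tame ht)⟩

lemma cwLE_cliqueWidth {V : Type} [Finite V] [Nonempty V] (G : SimpleGraph V) :
    CwLE G (cliqueWidth G) :=
  Nat.sInf_mem (s := {k | CwLE G k}) (exists_cwLE G)

lemma mem_fam {W : Type} {H : SimpleGraph W} (hb : BddITM H) {V : ℕ → Type}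
    [∀ n, Finite (V n)] (fam : ∀ n, SimpleGraph (V n)) (hne : ∀ n ≥ 2, Nonempty (V n))
    (hu : ∀ c N : ℕ, ∃ n ≥ N, ∀ k ≤ c, ¬ CwLE (fam n) k) :
    ∃ n f P, TM H (fam n) f P := by
  obtain ⟨c, hc⟩ := hb
  obtain ⟨n, hn, hk⟩ := hu c 2
  refine ⟨n, ?_⟩
  rw [← isITM_iff]
  by_contra hno
  have := hc (V n) (fam n) hno
  have := hne n hn
  exact hk _ (hc (V n) (fam n) hno) (cwLE_cliqueWidth (fam n))

theorem necessity {W : Type} [Finite W] {H : SimpleGraph W} (hb : BddITM H) : Listed H := by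
  obtain ⟨n1, f1, P1, h1⟩ := mem_fam hb famCobip (fun n hn => ⟨.inl ⟨0, by omega⟩⟩) famCobip_unbounded
  obtain ⟨n2, f2, P2, h2⟩ := mem_fam hb famSplit (fun n hn => ⟨.inl ⟨0, by omega⟩⟩) famSplit_unbounded
  obtain ⟨n3, f3, P3, h3⟩ := mem_fam hb famTrunc
    (fun n hn => ⟨⟨(⟨0, by omega⟩, ⟨1, by omega⟩), by simp⟩⟩) famTrunc_unbounded
  obtain ⟨n4, f4, P4, h4⟩ := mem_fam hb triGrid
    (fun n hn => ⟨(⟨0, by omega⟩, ⟨0, by omega⟩, 0)⟩) triGrid_unbounded
  apply classify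
  refine ⟨?_, ?_, ?_, ?_, ?_, ?_⟩
  · intro a b c
    exact excl_3P1 h1
  · intro a b c d
    exact excl_2P2 h2
  · intro a b c a' b' c'
    exact excl_hole h2
  · intro x a b c d
    exact excl_deg h4
  · intro a b c d
    exact excl_K4 h4
  · intro a b c d
    exact excl_K3P1 h3

end Pool.Agent.N415.ITM
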