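import Pool.Agent.N415.ITM.Dia

/-! Graphs without the paw as an induced topological minor. -/

namespace Pool.Agent.N415.ITM

open Pool.Agent.H175R2 Finset

variable {V : Type} {G : SimpleGraph V}

/-- an induced paw -/
lemma lolli3 {x w a b : V} (hxw : G.Adj x w) (hxa : G.Adj x a) (hxb : G.Adj x b) (hab : G.Adj a b)
    (hwa : ¬ G.Adj w a) (hwb : ¬ G.Adj w b) (n1 : w ≠ a) (n2 : w ≠ b) : Lolli G x w [a, b] := by
  have m1 := hxw.ne
  have m2 := hxa.ne
  have m3 := hxb.ne
  have m4 := hab.ne
  have hwa' : ¬ G.Adj a w := fun h => hwa h.symm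
  have hwb' : ¬ G.Adj b w := fun h => hwb h.symm
  refine ⟨by simp [m1, m2, m3, m4, n1, n2], by simp, ?_⟩
  intro u hu v hv
  simp only [List.mem_cons, List.not_mem_nil, or_false] at hu hv
  simp only [List.nil_append, List.cons_append, Con, infix_cc, infix_single, or_false]
  rcases hu with rfl | rfl | rfl | rfl <;> rcases hv with rfl | rfl | rfl | rfl <;>
    simp_all [hxw.symm, hxa.symm, hxb.symm, hab.symm, m1.symm, m2.symm, m3.symm, m4.symm, n1.symm,
      n2.symm]

/-- an induced 4-cycle with a pendant vertex -/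
lemma lolli4 {x w a y b : V} (hxw : G.Adj x w) (hxa : G.Adj x a) (hxb : G.Adj x b) (hya : G.Adj y a)
    (hyb : G.Adj y b) (hwa : ¬ G.Adj w a) (hwb : ¬ G.Adj w b) (hwy : ¬ G.Adj w y)
    (hxy : ¬ G.Adj x y) (hab : ¬ G.Adj a b)
    (n1 : w ≠ a) (n2 : w ≠ b) (n3 : w ≠ y) (n4 : x ≠ y) (n5 : a ≠ b) : Lolli G x w [a, y, b] := by
  have m1 := hxw.ne
  have m2 := hxa.ne
  have m3 := hxb.ne
  have m4 := hya.ne
  have m5 := hyb.ne
  have hwa' : ¬ G.Adj a w := fun h => hwa h.symm
  have hwb' : ¬ G.Adj b w := fun h => hwb h.symm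
  have hwy' : ¬ G.Adj y w := fun h => hwy h.symm
  have hxy' : ¬ G.Adj y x := fun h => hxy h.symm
  have hab' : ¬ G.Adj b a := fun h => hab h.symm
  refine ⟨by simp [m1, m2, m3, m4.symm, m5, n1, n2, n3, n4, n5], by simp, ?_⟩
  intro u hu v hv
  simp only [List.mem_cons, List.not_mem_nil, or_false] at hu hv
  simp only [List.nil_append, List.cons_append, Con, infix_cc, infix_single, or_false]
  rcases hu with rfl | rfl | rfl | rfl | rfl <;> rcases hv with rfl | rfl | rfl | rfl | rfl <;>
    simp_all [hxw.symm, hxa.symm, hxb.symm, hya.symm, hyb.symm, m1.symm, m2.symm, m3.symm, m4.symm,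
      m5.symm, n1.symm, n2.symm, n3.symm, n4.symm, n5.symm]

/-- a property that is inherited by neighbours holds everywhere in a connected graph -/
lemma spread [Fintype V] (hc : Cn G univ) {p : V → Prop} (h0 : ∃ x, p x)
    (hs : ∀ x y, G.Adj x y → p x → p y) : ∀ x, p x := by
  classical
  by_contra hcon
  push Not at hcon
  obtain ⟨y, hy⟩ := hcon
  obtain ⟨x, hx⟩ := h0
  obtain ⟨a, ha, b, hb, hab⟩ := hc.2 (univ.filter p) (subset_univ _) ⟨x, by simp [hx]⟩
    ⟨y, by simp [hy]⟩
  simp only [mem_filter, mem_univ, true_and, mem_sdiff] at ha hb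
  exact hb (hs a b hab ha)

theorem paw_cases [Fintype V] (h2 : TwoConn G) (hD : ¬ IsInducedTopMinor paw G) :
    P4Free G univ ∨ (∀ u, ∃ a b, ∀ v, G.Adj u v → v = a ∨ v = b) := by
  classical
  by_cases ht : ∃ a b c, G.Adj a b ∧ G.Adj a c ∧ G.Adj b c
  · left
    have hpaw : ∀ x w a b, G.Adj x w → G.Adj x a → G.Adj x b → G.Adj a b → w ≠ a → w ≠ b →
        G.Adj w a ∨ G.Adj w b := by
      intro x w a b h1 h2 h3 h4 h5 h6
      by_contra hcon
      push Not at hcon
      exact hD (lolli3 h1 h2 h3 h4 hcon.1 hcon.2 h5 h6).itm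
    have hall : ∀ x, ∃ y z, G.Adj x y ∧ G.Adj x z ∧ G.Adj y z := by
      apply spread (p := fun x => ∃ y z, G.Adj x y ∧ G.Adj x z ∧ G.Adj y z) h2.conn
      · obtain ⟨a, b, c, h⟩ := ht; exact ⟨a, b, c, h⟩
      · rintro x w hxw ⟨y, z, h1, h2, h3⟩
        by_cases e1 : w = y
        · subst e1; exact ⟨x, z, h1.symm, h3, h2⟩
        by_cases e2 : w = z
        · subst e2; exact ⟨x, y, h2.symm, h3.symm, h1⟩
        rcases hpaw x w y z hxw h1 h2 h3 e1 e2 with h | h
        · exact ⟨x, y, hxw.symm, h, h1⟩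
        · exact ⟨x, z, hxw.symm, h, h2⟩
    intro a _ b _ c _ d _ hac had hbd hab hbc hcd
    by_contra hcon
    push Not at hcon
    obtain ⟨nac, nad, nbd⟩ := hcon
    obtain ⟨t, htb, htc⟩ : ∃ t, G.Adj b t ∧ G.Adj c t := by
      obtain ⟨y, z, h1, h2, h3⟩ := hall b
      by_cases e1 : c = y
      · subst e1; exact ⟨z, h2, h3⟩
      by_cases e2 : c = z
      · subst e2; exact ⟨y, h1, h3.symm⟩
      rcases hpaw b c y z hbc h1 h2 h3 e1 e2 with h | h
      · exact ⟨y, h1, h⟩
      · exact ⟨z, h2, h⟩
    have hat : a ≠ t := by rintro rfl; exact nac htc.symm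
    have hdt : d ≠ t := by rintro rfl; exact nbd htb
    have h5 : G.Adj a t := by
      rcases hpaw b a c t hab.symm hbc htb htc hac hat with h | h
      · exact absurd h nac
      · exact h
    have h6 : G.Adj d t := by
      rcases hpaw c d b t hcd hbc.symm htc htb hbd.symm hdt with h | h
      · exact absurd h.symm nbd
      · exact h
    rcases hpaw t d a b h6.symm h5.symm htb.symm hab had.symm hbd.symm with h | h
    · exact nad h.symm
    · exact nbd h.symm
  have ht' : ∀ a b c, G.Adj a b → G.Adj a c → G.Adj b c → False :=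
    fun a b c h1 h2 h3 => ht ⟨a, b, c, h1, h2, h3⟩
  by_cases hq : ∃ x y a b, x ≠ y ∧ a ≠ b ∧ G.Adj x a ∧ G.Adj x b ∧ G.Adj y a ∧ G.Adj y b
  · left
    -- in a 4-cycle the neighbours of `x` are neighbours of `y`
    have htw : ∀ x y a b, x ≠ y → a ≠ b → G.Adj x a → G.Adj x b → G.Adj y a → G.Adj y b →
        ∀ w, G.Adj x w → G.Adj w y := by
      intro x y a b hxy hab h1 h2 h3 h4 w hxw
      by_cases e1 : w = a
      · subst e1; exact h3.symm
      by_cases e2 : w = b
      · subst e2; exact h4.symm
      by_contra hwy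
      have nxy : ¬ G.Adj x y := fun h => ht' x y a h h1 h3
      refine hD (lolli4 hxw h1 h2 h3 h4 ?_ ?_ hwy nxy ?_ e1 e2 ?_ hxy hab).itm
      · exact fun h => ht' x w a hxw h1 h
      · exact fun h => ht' x w b hxw h2 h
      · exact fun h => ht' x a b h1 h2 h
      · rintro rfl; exact nxy hxw
    have hall : ∀ x, ∃ y a b, x ≠ y ∧ a ≠ b ∧ G.Adj x a ∧ G.Adj x b ∧ G.Adj y a ∧ G.Adj y b := by
      apply spread (p := fun x => ∃ y a b, x ≠ y ∧ a ≠ b ∧ G.Adj x a ∧ G.Adj x b ∧ G.Adj y a ∧
        G.Adj y b) h2.conn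
      · obtain ⟨x, y, a, b, h⟩ := hq; exact ⟨x, y, a, b, h⟩
      · rintro x w hxw ⟨y, a, b, h1, h2, h3, h4, h5, h6⟩
        have hwy := htw x y a b h1 h2 h3 h4 h5 h6 w hxw
        by_cases e1 : w = a
        · subst e1
          exact ⟨b, x, y, h2, h1, h3.symm, hwy, h4.symm, h6.symm⟩
        · exact ⟨a, x, y, e1, h1, hxw.symm, hwy, h3.symm, h5.symm⟩
    intro a _ b _ c _ d _ hac had hbd hab hbc hcd
    obtain ⟨q, r, s, h1, h2, h3, h4, h5, h6⟩ := hall b
    have haq := htw b q r s h1 h2 h3 h4 h5 h6 a hab.symm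
    have hcq := htw b q r s h1 h2 h3 h4 h5 h6 c hbc
    have := htw c a b q hac.symm h1 hbc.symm hcq hab haq d hcd
    exact Or.inr (Or.inl this.symm)
  right
  obtain ⟨x, M, hM⟩ := exists_minCyc (exists_cyc h2)
  have hM3 := hM.three_le ht'
  have hM4 : 4 ≤ M.length := by
    by_contra hcon
    obtain ⟨a, b, g1, g2, g3, g4, g5⟩ := hM.ends
    have hc := hM.chain
    have hnx := hM.nx
    rcases M with _ | ⟨c, _ | ⟨d, _ | ⟨e, _ | ⟨f, M⟩⟩⟩⟩
    · simp at hM3
    · simp at hM3
    · simp at hM3
    · simp only [List.head?_cons, Option.some.injEq, List.getLast?_cons_cons,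
        List.getLast?_singleton, List.isChain_cons_cons, List.mem_cons, List.not_mem_nil, or_false,
        not_or] at g1 g2 hc hnx
      subst g1 g2
      exact hq ⟨x, d, c, e, hnx.2.1, g3, g4, g5, hc.1.symm, hc.2.1⟩
    · simp at hcon
  by_cases hZ : (x :: M).toFinset = univ
  · intro u
    have hu : u ∈ x :: M := by rw [← List.mem_toFinset, hZ]; exact mem_univ _
    obtain ⟨M', hM', _, hmem⟩ := hM.rot hu
    obtain ⟨a, b, hab⟩ := hM'.nbr
    refine ⟨a, b, fun v huv => hab v ?_ huv⟩
    rw [hmem, ← List.mem_toFinset, hZ]; exact mem_univ _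
  exfalso
  obtain ⟨z, hz, w, hw, hzw⟩ := h2.conn.2 (x :: M).toFinset (subset_univ _) ⟨x, by simp⟩ (by
    obtain ⟨w, hw⟩ : ∃ w, w ∉ (x :: M).toFinset := by
      by_contra hcon
      push Not at hcon
      exact hZ (eq_univ_iff_forall.2 hcon)
    exact ⟨w, mem_sdiff.2 ⟨mem_univ _, hw⟩⟩)
  rw [List.mem_toFinset] at hz
  rw [mem_sdiff, List.mem_toFinset] at hw
  obtain ⟨M', hM', hlen, hmem⟩ := hM.rot hz
  have hwM : w ∉ z :: M' := fun h => hw.2 ((hmem w).1 h)
  have hno : ∀ y ∈ M', ¬ G.Adj w y := by
    intro y hy hwy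
    obtain ⟨m1, m2, rfl⟩ := List.append_of_mem hy
    have := hM'.outer hwM hzw.symm hwy
    simp only [List.length_append, List.length_cons] at hlen
    omega
  have hwM' : w ∉ M' := fun h => hwM (by simp [h])
  have hwz : w ≠ z := fun h => hwM (by simp [h])
  have hc1 : ∀ u, ¬ Con (z :: (M' ++ [z])) w u := by
    intro u h
    have := h.mem.1
    simp only [List.mem_cons, List.mem_append, List.not_mem_nil, or_false] at this
    rcases this with h | h | h
    · exact hwz h
    · exact hwM' h
    · exact hwz h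
  have hlol : Lolli G z w M' := by
    refine ⟨?_, by omega, ?_⟩
    · rw [List.nodup_cons, List.nodup_cons]
      refine ⟨?_, hwM', hM'.ind.nodup⟩
      simp only [List.mem_cons, not_or]
      exact ⟨hwz.symm, hM'.nx⟩
    · have key : ∀ u ∈ z :: w :: M', u ≠ w → u ∈ z :: M' := by
        intro u hu huw
        simp only [List.mem_cons] at hu ⊢
        tauto
      have hadw : ∀ u ∈ z :: M', (G.Adj u w ↔ Con [z, w] u w) := by
        intro u hu
        unfold Con
        rw [infix_pair, infix_pair]
        rw [List.mem_cons] at hu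
        rcases hu with rfl | hu
        · simp [hzw]
        · have h1 : u ≠ z := by rintro rfl; exact hM'.nx hu
          have h2 : u ≠ w := by rintro rfl; exact hwM' hu
          simp only [h1, h2, false_and, and_false, or_false, iff_false]
          exact fun h => hno u hu h.symm
      intro u hu v hv
      by_cases e1 : u = w
      · subst e1
        by_cases e2 : v = u
        · subst e2
          refine iff_of_false (G.loopless.irrefl _) ?_
          rintro (h | h)
          · exact hc1 _ h
          · unfold Con at h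
            rw [infix_pair] at h
            rcases h with h | h <;> exact hwz h.1
        · rw [G.adj_comm, hadw v (key v hv e2), con_comm (l := [z, u])]
          constructor
          · exact Or.inr
          · rintro (h | h)
            · exact absurd h (hc1 _)
            · exact h
      · by_cases e2 : v = w
        · subst e2
          rw [hadw u (key u hu e1)]
          constructor
          · exact Or.inr
          · rintro (h | h)
            · exact absurd h.symm (hc1 _)
            · exact h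
        · rw [hM'.cadj (key u hu e1) (key v hv e2)]
          constructor
          · exact Or.inl
          · rintro (h | h)
            · exact h
            · exfalso
              unfold Con at h
              rw [infix_pair, infix_pair] at h
              rcases h with h | h
              · exact e2 h.2
              · exact e1 h.2
  exact hD hlol.itm

end Pool.Agent.N415.ITM
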