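import Pool.Agent.N415.ITM.Paw
import Pool.Agent.N415.ITM.Nec

/-! Sufficiency and the classification. -/

namespace Pool.Agent.N415.ITM

open Pool.Agent.H175R2 Finset

variable {V : Type} {G : SimpleGraph V}

lemma TM.map {W U : Type} {H : SimpleGraph W} {e : U ↪ V} {f : W → U} {P : W → W → List U}
    (h : TM H (G.comap e) f P) : TM H G (fun w => e (f w)) (fun a b => (P a b).map e) := by
  have hQ : ∀ a b, Q (fun w => e (f w)) (fun a b => (P a b).map e) a b = (Q f P a b).map e := by
    intro a b; simp [Q]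
  refine ⟨e.injective.comp h.inj, ?_, ?_, ?_, ?_, ?_⟩
  · intro a b hab
    rw [h.rev a b hab, List.map_reverse]
  · intro a b hab
    exact (h.nodup a b hab).map e.injective
  · intro a b hab w hw
    rw [List.mem_map] at hw
    obtain ⟨x, hx, hxw⟩ := hw
    exact h.br a b hab w (e.injective hxw ▸ hx)
  · intro a b c d hab hcd x hx hx'
    rw [List.mem_map] at hx hx'
    obtain ⟨y, hy, rfl⟩ := hx
    obtain ⟨z, hz, hyz⟩ := hx'
    exact h.disj a b c d hab hcd y hy (e.injective hyz ▸ hz)
  · have hv : ∀ x, Ver H (fun w => e (f w)) (fun a b => (P a b).map e) x →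
        ∃ y, e y = x ∧ Ver H f P y := by
      rintro x (⟨w, rfl⟩ | ⟨a, b, hab, hx⟩)
      · exact ⟨_, rfl, Or.inl ⟨w, rfl⟩⟩
      · rw [List.mem_map] at hx
        obtain ⟨y, hy, rfl⟩ := hx
        exact ⟨y, rfl, Or.inr ⟨a, b, hab, hy⟩⟩
    intro x y hx hy
    obtain ⟨x', rfl, hx'⟩ := hv x hx
    obtain ⟨y', rfl, hy'⟩ := hv y hy
    have := h.adj x' y' hx' hy'
    rw [SimpleGraph.comap_adj] at this
    rw [this]
    simp only [hQ, infix_map_iff e.injective]

lemma itm_of_comap {W U : Type} {H : SimpleGraph W} {e : U ↪ V}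
    (h : IsInducedTopMinor H (G.comap e)) : IsInducedTopMinor H G := by
  obtain ⟨f, P, h⟩ := isITM_iff.1 h
  exact isITM_iff.2 ⟨_, _, h.map⟩

lemma itm_of_indContained {W W' : Type} {H : SimpleGraph W} {H' : SimpleGraph W'}
    (hc : H'.IsIndContained H) (h : IsInducedTopMinor H G) : IsInducedTopMinor H' G := by
  obtain ⟨f, P, h⟩ := isITM_iff.1 h
  obtain ⟨φ⟩ := hc
  exact isITM_iff.2 ⟨_, _, h.restrict φ⟩

lemma p4Free_of [Fintype V] (h : ¬ IsInducedTopMinor P4 G) : P4Free G univ := by
  intro a _ b _ c _ d _ hac had hbd hab hbc hcd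
  by_contra hcon
  push Not at hcon
  obtain ⟨h1, h2, h3⟩ := hcon
  apply h
  have h1' : ¬ G.Adj c a := fun h => h1 h.symm
  have h2' : ¬ G.Adj d a := fun h => h2 h.symm
  have h3' : ¬ G.Adj d b := fun h => h3 h.symm
  have φ : P4 ↪g G := ⟨⟨![a, b, c, d], inj4 hab.ne hac had hbc.ne hbd hcd.ne⟩, by
    intro i j
    rw [P4_spec]
    fin_cases i <;> fin_cases j <;> simp [P4b, hab, hbc, hcd, hab.symm, hbc.symm, hcd.symm, h1, h2,
      h3, h1', h2', h3']⟩
  exact isITM_iff.2 ⟨_, _, TM.of_emb φ⟩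

lemma cwBuilt_nonempty {k : ℕ} {W : Type} {G' : SimpleGraph W} {l : W → Fin k}
    (h : CwBuilt k W G' l) : Nonempty W := by
  induction h with
  | single i => exact ⟨()⟩
  | union V W G H l m _ _ ih _ => obtain ⟨x⟩ := ih; exact ⟨.inl x⟩
  | join V G l i j _ _ ih => exact ih
  | _ => assumption

lemma cliqueWidth_empty [IsEmpty V] (G : SimpleGraph V) : cliqueWidth G = 0 := by
  unfold cliqueWidth
  have : {k | CwLE G k} = ∅ := by
    ext k
    simp only [Set.mem_setOf_eq, Set.mem_empty_iff_false, iff_false]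
    rintro ⟨W, G', l, hb, ⟨e⟩⟩
    obtain ⟨x⟩ := cwBuilt_nonempty hb
    exact IsEmpty.false (e.symm x)
  rw [this, Nat.sInf_empty]

lemma dt_p4Free [Fintype V] [Nonempty V] (h : P4Free G univ) : DT G 1 univ univ :=
  dt_cograph _ univ univ le_rfl univ_nonempty (Subset.refl _) h
    (fun _ _ _ _ z _ hz => absurd (mem_univ z) hz)

lemma dt_deg [Fintype V] (hc : Cn G univ) (h : ∀ u, ∃ a b, ∀ v, G.Adj u v → v = a ∨ v = b) :
    DT G 2 univ univ := by
  classical
  refine dt_deg_two (R := univ) ?_ _ univ (Subset.refl _) le_rfl hc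
  intro u _
  obtain ⟨a, b, hab⟩ := h u
  refine (card_le_card (t := {a, b}) ?_).trans card_le_two
  intro v hv
  rw [mem_filter] at hv
  rw [mem_insert, mem_singleton]
  exact hab v hv.2

lemma twoConn_nonempty [Fintype V] (h : TwoConn G) : Nonempty V :=
  Fintype.card_pos_iff.1 (by have := h.card; omega)

theorem dt_dia [Fintype V] [Nonempty V] (h : ¬ IsInducedTopMinor diamond G) :
    DT G 3 univ univ := by
  refine dt_of_blocks_all (fun V G => ¬ IsInducedTopMinor diamond G)
    (fun V U G e hG hn => hG (itm_of_comap hn)) 2 ?_ V G h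
  intro V _ G h2 hG
  have := twoConn_nonempty h2
  rcases dia_cases h2 hG with h3 | h3
  · refine (dt_p4Free ?_).mono (by omega)
    intro a _ b _ c _ d _ hac _ _ _ _ _
    exact Or.inl (h3 a c hac)
  · exact dt_deg h2.conn h3

theorem dt_paw [Fintype V] [Nonempty V] (h : ¬ IsInducedTopMinor paw G) :
    DT G 3 univ univ := by
  refine dt_of_blocks_all (fun V G => ¬ IsInducedTopMinor paw G)
    (fun V U G e hG hn => hG (itm_of_comap hn)) 2 ?_ V G h
  intro V _ G h2 hG
  have := twoConn_nonempty h2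
  rcases paw_cases h2 hG with h3 | h3
  · exact (dt_p4Free h3).mono (by omega)
  · exact dt_deg h2.conn h3

theorem sufficiency {W : Type} {H : SimpleGraph W} (h : Listed H) : BddITM H := by
  refine ⟨12, ?_⟩
  intro V _ G hG
  rcases isEmpty_or_nonempty V with hV | hV
  · rw [cliqueWidth_empty]; omega
  have : Fintype V := Fintype.ofFinite V
  rcases h with h | h | h
  · have h1 : ¬ IsInducedTopMinor P4 G := fun h' => hG (itm_of_indContained h h')
    exact cliqueWidth_le_of_dt ((dt_p4Free (p4Free_of h1)).mono (by omega : 1 ≤ 3))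
  · have h1 : ¬ IsInducedTopMinor paw G := fun h' => hG (itm_of_indContained h h')
    exact cliqueWidth_le_of_dt (dt_paw h1)
  · have h1 : ¬ IsInducedTopMinor diamond G := fun h' => hG (itm_of_indContained h h')
    exact cliqueWidth_le_of_dt (dt_dia h1)

/-- The classification. -/
theorem classification {W : Type} [Finite W] (H : SimpleGraph W) : BddITM H ↔ Listed H :=
  ⟨necessity, sufficiency⟩

end Pool.Agent.N415.ITM
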